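import Pool.Agent.Helper26K9.DN.Gi
import Pool.Agent.Y25.JP.ABSc
import Pool.Agent.Y690.PP.Glue

/-!
# The main terms, the linear character may be constant
-/

set_option autoImplicit false

open Finset Filter

namespace Pool.Agent.Helper26K9.DN

open Pool.Agent.Y690.PP (NN FF PB sy Basic A2 HR TT)
open Pool.Agent.Y690.JP (Lin A3' wt)
open Pool.Agent.Y977.PP (mem_PB NN_pos NN_mono le_NN FF_fin mem_FF FF_mono FF_sub_powerset Npos
  sum_inv label evenprod sy_comm sy_sq abs_s_le abs_sy_le TB MB prodNN AA AA_le mem_TB mem_MB)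
open Pool.Agent.Y25.JP (abs_ch ch_sq key cst GG decomp absf abs_cst_le)

variable {P : Type} {X : Type} [AddCommGroup X] {N : P → ℕ} {s : P → P → ℝ} {ch : X → P → ℝ}
variable {I : Type} [Fintype I] [DecidableEq I]

/-- the mean values of the characters are zero -/
def HS (N : P → ℕ) (ch : X → P → ℝ) : Prop :=
  ∀ x0 : X, x0 ≠ 0 → ∃ C η : ℝ, 0 < η ∧ ∀ x : ℝ, 4 ≤ x →
    |∑ m ∈ FF N x, ∏ p ∈ m, ch x0 p| ≤ C * x * Real.log x ^ (-η)

open Classical in
/-- (c) the main terms -/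
def SABSc0 (N : P → ℕ) (s : P → P → ℝ) (ch : X → P → ℝ) (I : Type) [Fintype I] [DecidableEq I]
    (w : ℝ) (e : I → I → ℕ) (τ : I → X) : Prop :=
  ∀ Λ : Finset I, (#Λ : ℝ) * w = 1 → (∀ u ∈ Λ, ∀ v ∈ Λ, Even (e u v + e v u)) →
    (∀ v, v ∉ Λ → (∃ u ∈ Λ, Even (e u v + e v u)) ∧ ∃ u ∈ Λ, Odd (e u v + e v u)) →
    ∃ (C η : ℝ) (D : ℕ), 0 < η ∧ ∀ x Z : ℝ, 4 ≤ x → 2 ≤ Z → Z ^ (2 * Fintype.card I) ≤ x →
      |∑ A ∈ (TT I N x).filter (fun A => ∀ u, u ∉ Λ → (NN N (A u) : ℝ) ≤ Z), wt s ch w e τ A -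
        if ∀ u ∈ Λ, τ u = 0 then (#(FF N x) : ℝ) else 0| ≤
        C * x * Real.log x ^ (-η) * Real.log Z ^ D

/-- two labels with a nontrivial quotient -/
theorem exists_pair0 (htwo : ∀ x : X, x + x = 0) (e : I → I → ℕ) (τ : I → X) (Λ : Finset I)
    (H3 : ∀ v, v ∉ Λ → (∃ u ∈ Λ, Even (e u v + e v u)) ∧ ∃ u ∈ Λ, Odd (e u v + e v u))
    {Z : ℝ} {B : I → Finset P}
    (hB : B ∈ TB N Λ Z) (hne : ¬ (B = (fun _ => ∅) ∧ ∀ u ∈ Λ, ∀ v ∈ Λ, τ u = τ v)) :
    ∃ u0 ∈ Λ, ∃ u1 ∈ Λ, u0 ≠ u1 ∧ ((AA e Λ B u0 u1).Nonempty ∨ τ u0 + τ u1 ≠ 0) := by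
  classical
  rw [mem_TB] at hB
  obtain ⟨_, hB2, _⟩ := hB
  by_cases hv : ∃ v, v ∉ Λ ∧ (B v).Nonempty
  · obtain ⟨v, hv, q, hq⟩ := hv
    obtain ⟨⟨u0, h0, he0⟩, u1, h1, he1⟩ := H3 v hv
    refine ⟨u0, h0, u1, h1, ?_, Or.inl ⟨q, ?_⟩⟩
    · rintro rfl
      exact (Nat.not_even_iff_odd.2 he1) he0
    · unfold AA
      rw [Finset.mem_biUnion]
      exact ⟨v, Finset.mem_filter.2 ⟨by simpa using hv, he0.add_odd he1⟩, hq⟩
  · push Not at hv
    have hB0 : B = fun _ => ∅ := by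
      funext v
      by_cases hvΛ : v ∈ Λ
      · exact hB2 v hvΛ
      · simpa using hv v hvΛ
    have h5 : ∃ u0 ∈ Λ, ∃ u1 ∈ Λ, τ u0 ≠ τ u1 := by
      by_contra h6
      push Not at h6
      exact hne ⟨hB0, h6⟩
    obtain ⟨u0, h0, u1, h1, h01⟩ := h5
    refine ⟨u0, h0, u1, h1, ?_, Or.inr ?_⟩
    · rintro rfl
      exact h01 rfl
    · intro hz
      apply h01
      have h7 := htwo (τ u1)
      exact add_right_cancel (hz.trans h7.symm)

/-- the sum over the remaining sets for given small sets -/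
theorem inner0 (h : Basic N s (fun _ => 1)) (hl : Lin ch) (h2 : A2 N)
    (h3 : A3' N s ch) (hHR : HR N) (w : ℝ) (hw0 : 0 < w)
    (hw1 : w ≤ 1) (e : I → I → ℕ) (τ : I → X) (Λ : Finset I) (hΛ : (#Λ : ℝ) * w = 1)
    (H3 : ∀ v, v ∉ Λ → (∃ u ∈ Λ, Even (e u v + e v u)) ∧ ∃ u ∈ Λ, Odd (e u v + e v u)) :
    ∃ C : ℝ, 0 ≤ C ∧ ∀ (x Z : ℝ) (B : I → Finset P), B ∈ TB N Λ Z →
      ¬ (B = (fun _ => ∅) ∧ ∀ u ∈ Λ, ∀ v ∈ Λ, τ u = τ v) →
      2 ≤ x / ((∏ u, NN N (B u) : ℕ) : ℝ) →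
      |∑ m ∈ MB N x B, ∏ p ∈ m, ∑ u ∈ Λ, GG s ch w e τ Λ B u p| ≤
        C * (x / ((∏ u, NN N (B u) : ℕ) : ℝ)) *
          Real.log (x / ((∏ u, NN N (B u) : ℕ) : ℝ)) ^ (-w) *
            (1 + Real.log ((∏ u, NN N (B u) : ℕ) : ℝ)) := by
  classical
  obtain ⟨C, hC0, hC⟩ := key h hl h2 h3 hHR w hw0.le hw1
  refine ⟨C, hC0, fun x Z B hB hne hY => ?_⟩
  obtain ⟨u0, h0, u1, h1, h01, hpair⟩ := exists_pair0 hl.two e τ Λ H3 hB hne
  obtain ⟨hB1, hB2, hB3⟩ := mem_TB.1 hB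
  set q : ℝ := ((∏ u, NN N (B u) : ℕ) : ℝ) with hq
  have hq1 : 1 ≤ q := by
    rw [hq]
    exact_mod_cast Finset.one_le_prod' fun u _ => NN_pos h (B u)
  have hq0 : 0 < q := by linarith
  set g : P → ℝ := fun p => if ∃ v, p ∈ B v then 0 else |∑ u ∈ Λ, GG s ch w e τ Λ B u p| with hg
  have hw2 : w ≤ 1 / 2 := by
    have h2 : 2 ≤ #Λ := by
      have : #({u0, u1} : Finset I) ≤ #Λ := by
        apply Finset.card_le_card
        intro u hu
        simp only [Finset.mem_insert, Finset.mem_singleton] at hu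
        rcases hu with rfl | rfl
        · exact h0
        · exact h1
      rwa [Finset.card_pair h01] at this
    have h2' : (2 : ℝ) ≤ #Λ := by exact_mod_cast h2
    nlinarith
  have hg0 : ∀ p, 0 ≤ g p := by
    intro p
    simp only [hg]
    split_ifs
    · exact le_rfl
    · exact abs_nonneg _
  have hgle : ∀ p, g p ≤ (1 - w) + w * (ch (τ u0 + τ u1) p *
      ∏ q ∈ AA e Λ B u0 u1, s q p) := by
    intro p
    by_cases hp : ∃ v, p ∈ B v
    · simp only [hg, if_pos hp]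
      have e1 : |ch (τ u0 + τ u1) p * ∏ q ∈ AA e Λ B u0 u1, s q p| ≤ 1 := by
        rw [abs_mul, abs_ch hl, one_mul, Finset.abs_prod]
        exact Finset.prod_le_one (fun _ _ => abs_nonneg _) fun q _ => abs_s_le h q p
      have e2 := (abs_le.1 e1).1
      nlinarith
    · simp only [hg, if_neg hp]
      push Not at hp
      exact absf h hl w hw0 e τ Λ hΛ B hB3 u0 u1 h0 h1 h01 p hp
  have hkey := hC (AA e Λ B u0 u1) (τ u0 + τ u1) hpair g hg0 hgle (x / q) hY
  have hlY : 0 < Real.log (x / q) := Real.log_pos (by linarith)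
  have e1 : |∑ m ∈ MB N x B, ∏ p ∈ m, ∑ u ∈ Λ, GG s ch w e τ Λ B u p| ≤
      ∑ m ∈ FF N (x / q), ∏ p ∈ m, g p := by
    calc |∑ m ∈ MB N x B, ∏ p ∈ m, ∑ u ∈ Λ, GG s ch w e τ Λ B u p|
        ≤ ∑ m ∈ MB N x B, |∏ p ∈ m, ∑ u ∈ Λ, GG s ch w e τ Λ B u p| :=
          Finset.abs_sum_le_sum_abs _ _
      _ = ∑ m ∈ MB N x B, ∏ p ∈ m, g p := by
          refine Finset.sum_congr rfl fun m hm => ?_
          rw [Finset.abs_prod]
          refine Finset.prod_congr rfl fun p hp => ?_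
          have hnot : ¬ ∃ v, p ∈ B v := by
            rintro ⟨v, hv⟩
            exact (Finset.disjoint_left.1 ((mem_MB.1 hm).2.1 v)) hp hv
          simp only [hg, if_neg hnot]
      _ ≤ ∑ m ∈ FF N (x / q), ∏ p ∈ m, g p := by
          refine Finset.sum_le_sum_of_subset_of_nonneg (fun m hm => ?_)
            fun m _ _ => Finset.prod_nonneg fun p _ => hg0 p
          rw [mem_FF h, le_div_iff₀ hq0]
          have := (mem_MB.1 hm).2.2
          linarith
  refine e1.trans (hkey.trans ?_)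
  have e2 : Real.log (NN N (AA e Λ B u0 u1)) ≤ Real.log q := by
    apply Real.log_le_log
    · exact_mod_cast (NN_pos h _)
    · rw [hq]
      exact_mod_cast AA_le h e Λ B hB3 u0 u1
  have e3 : 0 ≤ Real.log (x / q) ^ (-w) := Real.rpow_nonneg hlY.le _
  have e4 : 0 ≤ x / q := by linarith
  gcongr

open Classical in
/-- **the main terms** -/
theorem t_ABSc1 (h : Basic N s (fun _ => 1)) (hl : Lin ch) (h2 : A2 N)
    (h3 : A3' N s ch) (hHR : HR N) (w : ℝ) (hw0 : 0 < w)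
    (hw1 : w ≤ 1) (e : I → I → ℕ) (he : ∀ u, e u u = 0) (τ : I → X)
    (Λ : Finset I) (hΛ : (#Λ : ℝ) * w = 1) (H2 : ∀ u ∈ Λ, ∀ v ∈ Λ, Even (e u v + e v u))
    (H3 : ∀ v, v ∉ Λ → (∃ u ∈ Λ, Even (e u v + e v u)) ∧ ∃ u ∈ Λ, Odd (e u v + e v u))
    (u₀ : I) (hu₀ : u₀ ∈ Λ) :
    ∃ (C : ℝ) (D : ℕ), 0 ≤ C ∧ ∀ x Z : ℝ, 4 ≤ x → 2 ≤ Z → Z ^ (2 * Fintype.card I) ≤ x →
      |∑ A ∈ (TT I N x).filter (fun A => ∀ u, u ∉ Λ → (NN N (A u) : ℝ) ≤ Z), wt s ch w e τ A -
        if ∀ u ∈ Λ, ∀ v ∈ Λ, τ u = τ v then (∑ m ∈ FF N x, ∏ p ∈ m, ch (τ u₀) p) else 0| ≤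
        C * x * Real.log x ^ (-w) * Real.log Z ^ D := by
  classical
  obtain ⟨C1, hC10, hC1⟩ := inner0 h hl h2 h3 hHR w hw0 hw1 e τ Λ hΛ H3
  obtain ⟨C2, hC20, hC2⟩ := sum_inv h h2
  set k : ℕ := Fintype.card I with hk
  refine ⟨C1 * 2 * (2 + k) * C2 ^ k, 3 * k + 1, by positivity, fun x Z hx hZ hZx => ?_⟩
  have hlZ : 1 / 2 ≤ Real.log Z := by
    have h1 : Real.log 2 ≤ Real.log Z := Real.log_le_log (by norm_num) hZ
    have h2 := Real.log_two_gt_d9
    linarith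
  have hlx : 0 < Real.log x := Real.log_pos (by linarith)
  set m0 : ℝ := if ∀ u ∈ Λ, ∀ v ∈ Λ, τ u = τ v then (∑ m ∈ FF N x, ∏ p ∈ m, ch (τ u₀) p)
    else 0 with hm0
  have hdec := decomp h hl w e τ he Λ H2 x Z (by linarith)
    ((TT I N x).filter (fun A => ∀ u, u ∉ Λ → (NN N (A u) : ℝ) ≤ Z)) (by
      intro A
      unfold TT
      rw [Finset.mem_filter, Finset.mem_filter, Fintype.mem_piFinset]
      constructor
      · rintro ⟨⟨_, h1, h2⟩, h3⟩
        exact ⟨h1, h2, h3⟩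
      · rintro ⟨h1, h2, h3⟩
        refine ⟨⟨fun u => ?_, h1, h2⟩, h3⟩
        rw [mem_FF h]
        refine le_trans ?_ h2
        have : NN N (A u) ≤ ∏ u, NN N (A u) :=
          Finset.single_le_prod' (fun v _ => NN_pos h (A v)) (Finset.mem_univ u)
        exact_mod_cast this)
  have hB0 : (fun _ => ∅ : I → Finset P) ∈ TB N Λ Z := by
    rw [mem_TB]
    refine ⟨fun u => ?_, fun u _ => rfl, fun u v _ => Finset.disjoint_empty_left _⟩
    rw [mem_FF h]
    have : (1 : ℝ) ≤ Z := by linarith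
    simpa [NN] using this
  have hsplit : m0 = ∑ B ∈ TB N Λ Z, if B = (fun _ => ∅) then m0 else 0 := by
    rw [Finset.sum_ite_eq' (TB N Λ Z) (fun _ => ∅) (fun _ => m0), if_pos hB0]
  have hbound : ∀ B ∈ TB N Λ Z,
      |cst s ch w e τ Λ B * ∑ m ∈ MB N x B, ∏ p ∈ m, ∑ u ∈ Λ, GG s ch w e τ Λ B u p -
        if B = (fun _ => ∅) then m0 else 0| ≤
      (C1 * 2 * (2 + k) * x * Real.log x ^ (-w) * Real.log Z) *
        (1 / ((∏ u, NN N (B u) : ℕ) : ℝ)) := by
    intro B hB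
    obtain ⟨hB1, hB2, hB3⟩ := mem_TB.1 hB
    set q : ℝ := ((∏ u, NN N (B u) : ℕ) : ℝ) with hq
    have hq1 : 1 ≤ q := by
      rw [hq]
      exact_mod_cast Finset.one_le_prod' fun u _ => NN_pos h (B u)
    have hq0 : 0 < q := by linarith
    have hrx : 0 ≤ Real.log x ^ (-w) := Real.rpow_nonneg hlx.le _
    by_cases hcase : B = (fun _ => ∅) ∧ ∀ u ∈ Λ, ∀ v ∈ Λ, τ u = τ v
    · obtain ⟨rfl, hev⟩ := hcase
      rw [if_pos rfl, hm0, if_pos hev]
      have e1 : cst s ch w e τ Λ (fun _ => (∅ : Finset P)) = 1 := by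
        simp [cst, sy]
      have e2 : ∀ p, ∑ u ∈ Λ, GG s ch w e τ Λ (fun _ => (∅ : Finset P)) u p = ch (τ u₀) p := by
        intro p
        have e4 : ∀ u ∈ Λ, GG s ch w e τ Λ (fun _ => (∅ : Finset P)) u p = w * ch (τ u₀) p := by
          intro u hu
          unfold GG
          rw [hev u hu u₀ hu₀]
          simp
        rw [Finset.sum_congr rfl e4, Finset.sum_const, nsmul_eq_mul, ← mul_assoc, hΛ, one_mul]
      have e3 : MB N x (fun _ : I => (∅ : Finset P)) = FF N x := by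
        ext m
        rw [mem_MB]
        constructor
        · exact fun h => h.1
        · intro hm
          refine ⟨hm, fun v => Finset.disjoint_empty_right _, ?_⟩
          rw [mem_FF h] at hm
          simpa [NN] using hm
      rw [e1, e3, one_mul]
      simp_rw [e2]
      rw [sub_self, abs_zero]
      have : 0 ≤ Real.log Z := by linarith
      positivity
    · have hzero : (if B = (fun _ => ∅) then m0 else 0) = 0 := by
        split_ifs with h1
        · rw [hm0, if_neg fun h2 => hcase ⟨h1, h2⟩]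
        · rfl
      rw [hzero, sub_zero]
      -- the size of the quotient
      have hqZ : q ≤ Z ^ k := by
        rw [hq, Nat.cast_prod, hk, ← Finset.card_univ, ← Finset.prod_const]
        exact Finset.prod_le_prod (fun u _ => by positivity) fun u _ => (mem_FF h).1 (hB1 u)
      have hqx : q ^ 2 ≤ x := by
        calc q ^ 2 ≤ (Z ^ k) ^ 2 := by gcongr
          _ = Z ^ (2 * k) := by rw [← pow_mul, mul_comm]
          _ ≤ x := hZx
      have hYx : x ≤ (x / q) ^ 2 := by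
        rw [div_pow, le_div_iff₀ (by positivity)]
        nlinarith
      have hY0 : 0 < x / q := by positivity
      have hY2 : 2 ≤ x / q := by nlinarith
      have hlY : Real.log x / 2 ≤ Real.log (x / q) := by
        have := Real.log_le_log (by linarith) hYx
        rw [Real.log_pow] at this
        push_cast at this
        linarith
      have hrY : Real.log (x / q) ^ (-w) ≤ 2 * Real.log x ^ (-w) := by
        calc Real.log (x / q) ^ (-w) ≤ (Real.log x / 2) ^ (-w) :=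
              Real.rpow_le_rpow_of_nonpos (by positivity) hlY (by linarith)
          _ = Real.log x ^ (-w) * 2 ^ w := by
              rw [Real.div_rpow hlx.le (by norm_num), Real.rpow_neg (by norm_num : (0:ℝ) ≤ 2)]
              field_simp
          _ ≤ Real.log x ^ (-w) * 2 ^ (1 : ℝ) := by
              gcongr
              norm_num
          _ = _ := by rw [Real.rpow_one, mul_comm]
      have hlq : 1 + Real.log q ≤ (2 + k) * Real.log Z := by
        have h1 : Real.log q ≤ k * Real.log Z := by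
          have := Real.log_le_log hq0 hqZ
          rwa [Real.log_pow] at this
        nlinarith
      have hlq0 : 0 ≤ Real.log q := Real.log_nonneg hq1
      have hin := hC1 x Z B hB hcase hY2
      have hcst := abs_cst_le h hl hw0.le hw1 e τ Λ B
      rw [abs_mul]
      calc |cst s ch w e τ Λ B| * |∑ m ∈ MB N x B, ∏ p ∈ m, ∑ u ∈ Λ, GG s ch w e τ Λ B u p|
          ≤ 1 * (C1 * (x / q) * Real.log (x / q) ^ (-w) * (1 + Real.log q)) := by
            apply mul_le_mul hcst hin (abs_nonneg _) (by norm_num)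
        _ ≤ 1 * (C1 * (x / q) * (2 * Real.log x ^ (-w)) * ((2 + k) * Real.log Z)) := by
            gcongr
        _ = _ := by ring
  rw [hdec, hsplit, ← Finset.sum_sub_distrib]
  calc |∑ B ∈ TB N Λ Z, (cst s ch w e τ Λ B *
        ∑ m ∈ MB N x B, ∏ p ∈ m, ∑ u ∈ Λ, GG s ch w e τ Λ B u p -
        if B = (fun _ => ∅) then m0 else 0)|
      ≤ ∑ B ∈ TB N Λ Z, |cst s ch w e τ Λ B *
        ∑ m ∈ MB N x B, ∏ p ∈ m, ∑ u ∈ Λ, GG s ch w e τ Λ B u p -
        if B = (fun _ => ∅) then m0 else 0| := Finset.abs_sum_le_sum_abs _ _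
    _ ≤ ∑ B ∈ TB N Λ Z, (C1 * 2 * (2 + k) * x * Real.log x ^ (-w) * Real.log Z) *
        (1 / ((∏ u, NN N (B u) : ℕ) : ℝ)) := Finset.sum_le_sum hbound
    _ = (C1 * 2 * (2 + k) * x * Real.log x ^ (-w) * Real.log Z) *
        ∑ B ∈ TB N Λ Z, (1 / ((∏ u, NN N (B u) : ℕ) : ℝ)) := by rw [Finset.mul_sum]
    _ ≤ (C1 * 2 * (2 + k) * x * Real.log x ^ (-w) * Real.log Z) *
        (C2 * Real.log Z ^ 3) ^ k := by
        have h0 : 0 ≤ C1 * 2 * (2 + k) * x * Real.log x ^ (-w) * Real.log Z := by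
          have := Real.rpow_nonneg hlx.le (-w)
          have : 0 ≤ Real.log Z := by linarith
          positivity
        refine mul_le_mul_of_nonneg_left ?_ h0
        calc ∑ B ∈ TB N Λ Z, (1 / ((∏ u, NN N (B u) : ℕ) : ℝ))
            ≤ ∑ B ∈ Fintype.piFinset fun _ : I => FF N Z, (1 / ((∏ u, NN N (B u) : ℕ) : ℝ)) := by
              refine Finset.sum_le_sum_of_subset_of_nonneg (fun B hB => ?_)
                fun B _ _ => by positivity
              rw [Fintype.mem_piFinset]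
              exact (mem_TB.1 hB).1
          _ = ∑ B ∈ Fintype.piFinset fun _ : I => FF N Z, ∏ u, (1 : ℝ) / NN N (B u) := by
              refine Finset.sum_congr rfl fun B _ => ?_
              rw [Nat.cast_prod]
              simp
          _ = ∏ _u : I, ∑ A ∈ FF N Z, (1 : ℝ) / NN N A := by
              rw [Finset.prod_univ_sum]
          _ = (∑ A ∈ FF N Z, (1 : ℝ) / NN N A) ^ k := by
              rw [Finset.prod_const, Finset.card_univ]
          _ ≤ (C2 * Real.log Z ^ 3) ^ k := by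
              gcongr
              exact hC2 Z hZ
    _ = C1 * 2 * (2 + k) * C2 ^ k * x * Real.log x ^ (-w) * Real.log Z ^ (3 * k + 1) := by
        rw [mul_pow, ← pow_mul, pow_succ]
        ring


/-- the main terms -/
theorem t_ABSc0 (h : Basic N s (fun _ => 1)) (hl : Lin ch) (h2 : A2 N)
    (h3 : A3' N s ch) (hHR : HR N) (hS : HS N ch) (w : ℝ) (hw0 : 0 < w)
    (hw1 : w ≤ 1) (e : I → I → ℕ) (he : ∀ u, e u u = 0) (τ : I → X) :
    SABSc0 N s ch I w e τ := by
  classical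
  intro Λ hΛ H2 H3
  obtain ⟨u₀, hu₀⟩ : Λ.Nonempty := by
    rw [Finset.nonempty_iff_ne_empty]
    rintro rfl
    rw [Finset.card_empty] at hΛ
    norm_num at hΛ
  obtain ⟨C, D, hC0, hC⟩ := t_ABSc1 h hl h2 h3 hHR w hw0 hw1 e he τ Λ hΛ H2 H3 u₀ hu₀
  have hlog2 : (1 / 2 : ℝ) ≤ Real.log 2 := by
    have := Real.log_two_gt_d9
    linarith
  by_cases hconst : ∀ u ∈ Λ, ∀ v ∈ Λ, τ u = τ v
  · simp only [if_pos hconst] at hC
    by_cases h0 : τ u₀ = 0
    · have hall : ∀ u ∈ Λ, τ u = 0 := fun u hu => (hconst u hu u₀ hu₀).trans h0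
      refine ⟨C, w, D, hw0, fun x Z hx hZ hZx => ?_⟩
      rw [if_pos hall]
      have h5 := hC x Z hx hZ hZx
      have e1 : ∑ m ∈ FF N x, ∏ p ∈ m, ch (τ u₀) p = (#(FF N x) : ℝ) := by
        rw [Finset.card_eq_sum_ones]
        push_cast
        refine Finset.sum_congr rfl fun m _ => Finset.prod_eq_one fun p _ => ?_
        rw [h0, hl.zero]
      rw [e1] at h5
      exact h5
    · obtain ⟨C', η, hη, hS'⟩ := hS (τ u₀) h0
      have hnall : ¬ ∀ u ∈ Λ, τ u = 0 := fun h => h0 (h u₀ hu₀)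
      refine ⟨C + |C'| * 2 ^ D, min w η, D, lt_min hw0 hη, fun x Z hx hZ hZx => ?_⟩
      rw [if_neg hnall, sub_zero]
      have h5 := hC x Z hx hZ hZx
      have h6 := hS' x hx
      have hl1 : 1 ≤ Real.log x := by
        have h7 : Real.log 4 ≤ Real.log x := Real.log_le_log (by norm_num) hx
        have h8 : Real.log 4 = 2 * Real.log 2 := by
          rw [show (4 : ℝ) = 2 ^ 2 by norm_num, Real.log_pow]
          norm_num
        linarith
      have hlZ : (1 / 2 : ℝ) ≤ Real.log Z := hlog2.trans (Real.log_le_log (by norm_num) hZ)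
      have e1 : Real.log x ^ (-w) ≤ Real.log x ^ (-(min w η)) :=
        Real.rpow_le_rpow_of_exponent_le hl1 (by have := min_le_left w η; linarith)
      have e2 : Real.log x ^ (-η) ≤ Real.log x ^ (-(min w η)) :=
        Real.rpow_le_rpow_of_exponent_le hl1 (by have := min_le_right w η; linarith)
      have e3 : (1 : ℝ) ≤ 2 ^ D * Real.log Z ^ D := by
        rw [← mul_pow]
        exact one_le_pow₀ (by linarith)
      have e4 : 0 ≤ Real.log x ^ (-(min w η)) := Real.rpow_nonneg (by linarith) _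
      have e6 : 0 ≤ Real.log x ^ (-η) := Real.rpow_nonneg (by linarith) _
      have e5 : 0 ≤ Real.log Z ^ D := pow_nonneg (by linarith) _
      have h9 := abs_sub_abs_le_abs_sub (∑ A ∈ (TT I N x).filter
        (fun A => ∀ u, u ∉ Λ → (NN N (A u) : ℝ) ≤ Z), wt s ch w e τ A)
        (∑ m ∈ FF N x, ∏ p ∈ m, ch (τ u₀) p)
      calc |∑ A ∈ (TT I N x).filter (fun A => ∀ u, u ∉ Λ → (NN N (A u) : ℝ) ≤ Z),
            wt s ch w e τ A|
          ≤ C * x * Real.log x ^ (-w) * Real.log Z ^ D + C' * x * Real.log x ^ (-η) := by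
            linarith
        _ ≤ C * x * Real.log x ^ (-(min w η)) * Real.log Z ^ D +
            |C'| * x * Real.log x ^ (-(min w η)) * (2 ^ D * Real.log Z ^ D) := by
            refine add_le_add (by gcongr) ?_
            calc C' * x * Real.log x ^ (-η) ≤ |C'| * x * Real.log x ^ (-(min w η)) := by
                  have := le_abs_self C'
                  gcongr
              _ ≤ _ := le_mul_of_one_le_right (by positivity) e3
        _ = _ := by ring
  · simp only [if_neg hconst] at hC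
    have hnall : ¬ ∀ u ∈ Λ, τ u = 0 := fun h => hconst fun u hu v hv => (h u hu).trans (h v hv).symm
    refine ⟨C, w, D, hw0, fun x Z hx hZ hZx => ?_⟩
    rw [if_neg hnall]
    exact hC x Z hx hZ hZx

end Pool.Agent.Helper26K9.DN
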