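import Pool.Agent.Helper26K9.DN.Stm
import Pool.Agent.Y692.PP.Abel
import Pool.Agent.Y808.PP.Disc
import Pool.Agent.Y427.PP.Fac

/-!
# Job DN-ASYM: the mean value of the sign, and the number of squarefree primary elements
-/

set_option autoImplicit false

open Finset

namespace Pool.Agent.Helper26K9.DN

open Pool.Agent.Y690.PP Pool.Agent.Y690.PP.Fn

/-! ### classes modulo four -/

theorem four_dvd_iff (v : G) : (4 : G) ∣ v ↔ v.re % 4 = 0 ∧ v.im % 4 = 0 := by
  have h := Zsqrtd.intCast_dvd (d := -1) (4 : ℤ) v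
  have h1 : (((4 : ℤ) : G)) = (4 : G) := by norm_num
  rw [h1] at h
  rw [h]
  omega

theorem four_dvd_cast (v : G) : ((4 : ℕ) : G) ∣ v ↔ v.re % 4 = 0 ∧ v.im % 4 = 0 := by
  rw [← four_dvd_iff]
  norm_num

theorem prm_cases {v : G} (h : Prm v) : (4 : G) ∣ v - 1 ∨ (4 : G) ∣ v - ⟨3, 2⟩ := by
  rw [Pool.Agent.Y427.PP.prm_iff] at h
  rw [four_dvd_iff, four_dvd_iff]
  simp only [Zsqrtd.re_sub, Zsqrtd.im_sub, Zsqrtd.re_one, Zsqrtd.im_one]
  omega

theorem prm_congr {v w : G} (h : (4 : G) ∣ v - w) : Prm v ↔ Prm w := by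
  rw [Pool.Agent.Y427.PP.prm_iff, Pool.Agent.Y427.PP.prm_iff]
  rw [four_dvd_iff] at h
  simp only [Zsqrtd.re_sub, Zsqrtd.im_sub] at h
  omega

theorem sq_one {v : G} (h : Prm v) : (4 : G) ∣ v ^ 2 - 1 := by
  rcases prm_cases h with h | h
  · have : v ^ 2 - 1 = (v - 1) * (v + 1) := by ring
    rw [this]
    exact Dvd.dvd.mul_right h _
  · have h1 : v ^ 2 - 1 = (v - ⟨3, 2⟩) * (v + ⟨3, 2⟩) + (⟨3, 2⟩ ^ 2 - 1) := by ring
    have h2 : (4 : G) ∣ (⟨3, 2⟩ : G) ^ 2 - 1 := by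
      rw [four_dvd_iff]
      decide
    rw [h1]
    exact dvd_add (Dvd.dvd.mul_right h _) h2

theorem gi_congr {v w : G} (h : (4 : G) ∣ v - w) : gi v = gi w := by
  unfold gi
  have h1 : (4 : G) ∣ v - 1 ↔ (4 : G) ∣ w - 1 := by
    have e : v - 1 = (v - w) + (w - 1) := by ring
    rw [e]
    exact dvd_add_right h
  by_cases hv : (4 : G) ∣ v - 1
  · rw [if_pos hv, if_pos (h1.1 hv)]
  · rw [if_neg hv, if_neg fun h' => hv (h1.2 h')]

theorem gi_one : gi 1 = 1 := by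
  unfold gi
  rw [if_pos (by rw [sub_self]; exact dvd_zero _)]

theorem gi_c : gi ⟨3, 2⟩ = -1 := by
  unfold gi
  rw [if_neg]
  rw [four_dvd_iff]
  decide

theorem gi_mul {v w : G} (hv : Prm v) (hw : Prm w) : gi (v * w) = gi v * gi w := by
  rcases prm_cases hv with h | h <;> rcases prm_cases hw with h' | h'
  · have e : (4 : G) ∣ v * w - 1 := by
      have : v * w - 1 = v * (w - 1) + (v - 1) := by ring
      rw [this]
      exact dvd_add (Dvd.dvd.mul_left h' _) h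
    rw [gi_congr e, gi_congr h, gi_congr h', gi_one, one_mul]
  · have e : (4 : G) ∣ v * w - ⟨3, 2⟩ := by
      have : v * w - ⟨3, 2⟩ = v * (w - ⟨3, 2⟩) + (v - 1) * ⟨3, 2⟩ := by ring
      rw [this]
      exact dvd_add (Dvd.dvd.mul_left h' _) (Dvd.dvd.mul_right h _)
    rw [gi_congr e, gi_congr h, gi_congr h', gi_one, one_mul]
  · have e : (4 : G) ∣ v * w - ⟨3, 2⟩ := by
      have : v * w - ⟨3, 2⟩ = v * (w - 1) + (v - ⟨3, 2⟩) := by ring
      rw [this]
      exact dvd_add (Dvd.dvd.mul_left h' _) h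
    rw [gi_congr e, gi_congr h, gi_congr h', gi_one, mul_one]
  · have e : (4 : G) ∣ v * w - 1 := by
      have h1 : v * w - 1 = v * (w - ⟨3, 2⟩) + (v - ⟨3, 2⟩) * ⟨3, 2⟩ + (⟨3, 2⟩ ^ 2 - 1) := by ring
      have h2 : (4 : G) ∣ (⟨3, 2⟩ : G) ^ 2 - 1 := by
        rw [four_dvd_iff]
        decide
      rw [h1]
      exact dvd_add (dvd_add (Dvd.dvd.mul_left h' _) (Dvd.dvd.mul_right h _)) h2
    rw [gi_congr e, gi_congr h, gi_congr h', gi_one, gi_c]
    norm_num

theorem gi_prod (A : Finset Pr) : (gi (PA A) : ℝ) = ∏ p ∈ A, gz p := by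
  classical
  induction A using Finset.induction_on with
  | empty =>
    unfold PA
    rw [Finset.prod_empty, Finset.prod_empty, gi_one]
    norm_num
  | insert p A hp ih =>
    unfold PA at *
    rw [Finset.prod_insert hp, Finset.prod_insert hp, gi_mul p.2.2
      (Pool.Agent.Y692.PP.prm_prod A _ fun p _ => p.2.2), Int.cast_mul, ih]
    rfl

theorem prm_PA (A : Finset Pr) : Prm (PA A) := Pool.Agent.Y692.PP.prm_pd A

theorem nm_PA (A : Finset Pr) : nm (PA A) = NN gN A := Pool.Agent.Y692.PP.nm_pd A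

theorem PA_inj : Function.Injective PA := Pool.Agent.Y692.PP.pd_inj Pool.Agent.Y427.PP.t_FAC

theorem mem_FF {x : ℝ} {A : Finset Pr} : A ∈ FF gN x ↔ (NN gN A : ℝ) ≤ x :=
  Pool.Agent.Y692.PP.mem_FF Pool.Agent.Y427.PP.t_FAC

theorem mem_disc {x : ℝ} {v : G} : v ∈ disc x ↔ (nm v : ℝ) ≤ x :=
  Pool.Agent.Y692.PP.mem_disc

/-! ### sums over discs -/

/-- the condition on the periodic functions -/
structure Per (h : G → ℝ) : Prop where
  abs : ∀ v, |h v| ≤ 1
  per : ∀ v w : G, (4 : G) ∣ v - w → h v = h w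
  zero : h 0 = 0
  mean : ∑ x ∈ range 4, ∑ y ∈ range 4, h ⟨(x : ℤ), (y : ℤ)⟩ = 0

theorem disc_bound : ∃ C : ℝ, 0 ≤ C ∧ ∀ h : G → ℝ, Per h → ∀ x : ℝ, 0 ≤ x →
    |∑ v ∈ disc x, h v| ≤ C * x ^ (3 / 4 : ℝ) := by
  obtain ⟨C, hC⟩ := Pool.Agent.Y808.PP.t_DISC
  refine ⟨|C| * ((4 : ℕ) : ℝ) ^ (1 / 2 : ℝ), by positivity, fun h hh x hx => ?_⟩
  rcases lt_or_ge x 1 with h1 | h1
  · have e : ∑ v ∈ disc x, h v = 0 := by
      refine Finset.sum_eq_zero fun v hv => ?_
      rw [mem_disc] at hv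
      have h2 : nm v = 0 := by
        by_contra hc
        have : (1 : ℝ) ≤ nm v := by exact_mod_cast Nat.one_le_iff_ne_zero.2 hc
        linarith
      rw [Pool.Agent.Y692.PP.nm_eq_zero h2, hh.zero]
    rw [e, abs_zero]
    positivity
  · refine (hC 4 h (by norm_num) hh.abs (fun v w hvw => hh.per v w (by exact_mod_cast hvw))
      hh.mean x h1).trans ?_
    have : C * ((4 : ℕ) : ℝ) ^ (1 / 2 : ℝ) ≤ |C| * ((4 : ℕ) : ℝ) ^ (1 / 2 : ℝ) :=
      mul_le_mul_of_nonneg_right (le_abs_self C) (by positivity)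
    exact mul_le_mul_of_nonneg_right this (by positivity)

/-! ### the sieve -/

open Classical in
/-- the primes whose square divides `v` -/
noncomputable def P2 (v : G) : Finset Pr := (PB gN (nm v)).filter fun p => p.1 ^ 2 ∣ v

theorem mem_P2 {v : G} (hv : Prm v) {p : Pr} : p ∈ P2 v ↔ p.1 ^ 2 ∣ v := by
  classical
  unfold P2
  rw [Finset.mem_filter, Pool.Agent.Y692.PP.mem_PB]
  refine ⟨fun h => h.2, fun h => ⟨?_, h⟩⟩
  have h1 := Pool.Agent.Y692.PP.nm_le_of_dvd (Pool.Agent.Y692.PP.prm_ne_zero hv)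
    ((dvd_pow_self p.1 two_ne_zero).trans h)
  exact_mod_cast h1

theorem subset_P2 {v : G} (hv : Prm v) (T : Finset Pr) : T ⊆ P2 v ↔ PA T ^ 2 ∣ v := by
  constructor
  · intro h
    unfold PA
    rw [← Finset.prod_pow]
    refine Finset.prod_dvd_of_isRelPrime ?_ ?_
    · intro p _ q _ hpq
      have h1 : IsCoprime p.1 q.1 := by
        refine (Prime.coprime_iff_not_dvd p.2.1).2 fun hd => hpq ?_
        exact Subtype.ext (Pool.Agent.Y427.PP.prm_assoc
          ((Prime.dvd_prime_iff_associated p.2.1 q.2.1).1 hd) p.2.2 q.2.2)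
      exact (h1.pow).isRelPrime
    · intro p hp
      exact (mem_P2 hv).1 (h hp)
  · intro h p hp
    refine (mem_P2 hv).2 ((pow_dvd_pow_of_dvd ?_ 2).trans h)
    exact Finset.dvd_prod_of_mem (fun p : Pr => p.1) hp

theorem P2_PA (A : Finset Pr) : P2 (PA A) = ∅ := by
  classical
  rw [Finset.eq_empty_iff_forall_notMem]
  intro p hp
  rw [mem_P2 (prm_PA A)] at hp
  have h1 : p ∈ A := by
    by_contra hc
    exact Pool.Agent.Y427.PP.not_dvd_prod p A hc ((dvd_pow_self p.1 two_ne_zero).trans hp)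
  have h2 : PA A = p.1 * ∏ q ∈ A.erase p, q.1 := by
    unfold PA
    rw [Finset.mul_prod_erase A (fun q => q.1) h1]
  rw [h2, sq] at hp
  have h3 := (mul_dvd_mul_iff_left p.2.1.ne_zero).1 hp
  exact Pool.Agent.Y427.PP.not_dvd_prod p _ (Finset.notMem_erase p A) h3

theorem eq_PA {v : G} (hv : Prm v) (h : P2 v = ∅) : ∃ A, v = PA A := by
  obtain ⟨t, A, ht, rfl⟩ := Pool.Agent.Y427.PP.t_FAC.1 v hv
  by_cases hu : IsUnit t
  · refine ⟨A, ?_⟩
    rw [Pool.Agent.Y427.PP.prm_unit hu ht, one_pow, one_mul]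
    rfl
  · exfalso
    obtain ⟨p, hp⟩ := Pool.Agent.Y427.PP.exists_prime ht hu
    have h1 : p ∈ P2 (t ^ 2 * ∏ p ∈ A, p.1) :=
      (mem_P2 hv).2 (Dvd.dvd.mul_right (pow_dvd_pow_of_dvd hp 2) _)
    rw [h] at h1
    exact Finset.notMem_empty _ h1

open Classical in
theorem sum_P2 {v : G} (hv : Prm v) {x : ℝ} (hx : (nm v : ℝ) ≤ x) :
    ∑ T ∈ FF gN x, (if PA T ^ 2 ∣ v then (-1 : ℝ) ^ #T else 0) =
      if ∃ A, v = PA A then 1 else 0 := by
  rw [← Finset.sum_filter]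
  have h1 : (FF gN x).filter (fun T => PA T ^ 2 ∣ v) = (P2 v).powerset := by
    ext T
    rw [Finset.mem_filter, Finset.mem_powerset, subset_P2 hv, mem_FF]
    refine ⟨fun h => h.2, fun h => ⟨?_, h⟩⟩
    have h2 := Pool.Agent.Y692.PP.nm_le_of_dvd (Pool.Agent.Y692.PP.prm_ne_zero hv)
      ((dvd_pow_self (PA T) two_ne_zero).trans h)
    rw [nm_PA] at h2
    have h3 : (NN gN T : ℝ) ≤ nm v := by exact_mod_cast h2
    linarith
  rw [h1]
  have h2 := Finset.sum_powerset_neg_one_pow_card (x := P2 v)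
  have h3 : ∑ T ∈ (P2 v).powerset, (-1 : ℝ) ^ #T = ((∑ T ∈ (P2 v).powerset, (-1 : ℤ) ^ #T : ℤ) : ℝ) := by
    push_cast
    rfl
  rw [h3, h2]
  by_cases h : P2 v = ∅
  · rw [if_pos h, if_pos (eq_PA hv h)]
    norm_num
  · rw [if_neg h, if_neg]
    · norm_num
    · rintro ⟨A, rfl⟩
      exact h (P2_PA A)

/-- the sieve -/
theorem sieve (f : G → ℝ) (hf : ∀ v, ¬ Prm v → f v = 0) (x : ℝ) :
    ∑ A ∈ FF gN x, f (PA A) =
      ∑ T ∈ FF gN x, (-1 : ℝ) ^ #T * ∑ w ∈ disc (x / (NN gN T : ℝ) ^ 2), f (PA T ^ 2 * w) := by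
  classical
  have h1 : ∑ A ∈ FF gN x, f (PA A) = ∑ v ∈ disc x, f v * if ∃ A, v = PA A then 1 else 0 := by
    have e : ∑ A ∈ FF gN x, f (PA A) = ∑ v ∈ (FF gN x).image PA, f v := by
      rw [Finset.sum_image]
      intro A _ B _ h
      exact PA_inj h
    rw [e]
    have e2 : ∀ v : G, f v * (if ∃ A, v = PA A then (1 : ℝ) else 0) =
        if ∃ A, v = PA A then f v else 0 := by
      intro v
      split_ifs <;> simp
    rw [Finset.sum_congr rfl fun v _ => e2 v, ← Finset.sum_filter]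
    refine Finset.sum_congr ?_ fun _ _ => rfl
    ext v
    rw [Finset.mem_image, Finset.mem_filter, mem_disc]
    constructor
    · rintro ⟨A, hA, rfl⟩
      rw [mem_FF] at hA
      exact ⟨by rw [nm_PA]; exact hA, A, rfl⟩
    · rintro ⟨h, A, rfl⟩
      refine ⟨A, ?_, rfl⟩
      rw [mem_FF, ← nm_PA]
      exact h
  have h2 : ∑ v ∈ disc x, (f v * if ∃ A, v = PA A then (1 : ℝ) else 0) =
      ∑ v ∈ disc x, ∑ T ∈ FF gN x, if PA T ^ 2 ∣ v then f v * (-1 : ℝ) ^ #T else 0 := by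
    refine Finset.sum_congr rfl fun v hv => ?_
    by_cases hp : Prm v
    · rw [← sum_P2 hp (mem_disc.1 hv), Finset.mul_sum]
      refine Finset.sum_congr rfl fun T _ => ?_
      split_ifs <;> simp
    · rw [hf v hp, zero_mul]
      symm
      refine Finset.sum_eq_zero fun T _ => ?_
      rw [zero_mul, ite_self]
  rw [h1, h2, Finset.sum_comm]
  refine Finset.sum_congr rfl fun T _ => ?_
  rw [← Finset.sum_filter, Finset.mul_sum]
  symm
  have hT : PA T ≠ 0 := Pool.Agent.Y692.PP.prm_ne_zero (prm_PA T)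
  have hN : (0 : ℝ) < (NN gN T : ℝ) ^ 2 := by
    have : (0 : ℝ) < NN gN T := by exact_mod_cast Pool.Agent.Y692.PP.NN_pos T
    positivity
  refine Finset.sum_bij (fun w _ => PA T ^ 2 * w) ?_ ?_ ?_ ?_
  · intro w hw
    rw [mem_disc, le_div_iff₀ hN] at hw
    rw [Finset.mem_filter, mem_disc]
    refine ⟨?_, dvd_mul_right _ _⟩
    rw [Pool.Agent.Y692.PP.nm_mul, sq, Pool.Agent.Y692.PP.nm_mul, nm_PA]
    push_cast
    nlinarith
  · intro w _ w' _ h
    exact mul_left_cancel₀ (pow_ne_zero 2 hT) h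
  · intro v hv
    rw [Finset.mem_filter, mem_disc] at hv
    obtain ⟨h3, w, rfl⟩ := hv
    refine ⟨w, ?_, rfl⟩
    rw [mem_disc, le_div_iff₀ hN]
    rw [Pool.Agent.Y692.PP.nm_mul, sq, Pool.Agent.Y692.PP.nm_mul, nm_PA] at h3
    push_cast at h3
    nlinarith
  · intro w _
    rw [mul_comm]

/-! ### the bound -/

theorem sum_NN : ∃ C : ℝ, 0 ≤ C ∧ ∀ F : Finset (Finset Pr),
    ∑ T ∈ F, (NN gN T : ℝ) ^ (-(3 / 2 : ℝ)) ≤ C := by
  classical
  have hs := Pool.Agent.Y692.PP.summable_nm (σ := 3 / 2) (by norm_num) (by norm_num)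
  refine ⟨∑' v : G, (nm v : ℝ) ^ (-(3 / 2 : ℝ)), tsum_nonneg fun v => by positivity, fun F => ?_⟩
  have e : ∑ T ∈ F, (NN gN T : ℝ) ^ (-(3 / 2 : ℝ)) =
      ∑ v ∈ F.image PA, (nm v : ℝ) ^ (-(3 / 2 : ℝ)) := by
    rw [Finset.sum_image fun A _ B _ h => PA_inj h]
    refine Finset.sum_congr rfl fun T _ => ?_
    rw [nm_PA]
  rw [e]
  exact hs.sum_le_tsum _ fun v _ => by positivity

theorem main_bound : ∃ C : ℝ, 0 ≤ C ∧ ∀ h : G → ℝ, Per h → ∀ x : ℝ, 0 ≤ x →
    |∑ T ∈ FF gN x, (-1 : ℝ) ^ #T * ∑ w ∈ disc (x / (NN gN T : ℝ) ^ 2), h w| ≤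
      C * x ^ (3 / 4 : ℝ) := by
  obtain ⟨C, hC0, hC⟩ := disc_bound
  obtain ⟨D, hD0, hD⟩ := sum_NN
  refine ⟨C * D, by positivity, fun h hh x hx => ?_⟩
  refine (Finset.abs_sum_le_sum_abs _ _).trans ?_
  have h1 : ∀ T ∈ FF gN x, |(-1 : ℝ) ^ #T * ∑ w ∈ disc (x / (NN gN T : ℝ) ^ 2), h w| ≤
      C * x ^ (3 / 4 : ℝ) * (NN gN T : ℝ) ^ (-(3 / 2 : ℝ)) := by
    intro T _
    have hN : (0 : ℝ) < NN gN T := by exact_mod_cast Pool.Agent.Y692.PP.NN_pos T
    rw [abs_mul, abs_pow, abs_neg, abs_one, one_pow, one_mul]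
    refine (hC h hh _ (by positivity)).trans (le_of_eq ?_)
    rw [Real.div_rpow hx (by positivity), ← Real.rpow_natCast, ← Real.rpow_mul hN.le,
      Real.rpow_neg hN.le]
    have : ((2 : ℕ) : ℝ) * (3 / 4) = 3 / 2 := by norm_num
    rw [this]
    ring
  refine (Finset.sum_le_sum h1).trans ?_
  rw [← Finset.mul_sum]
  have := hD (FF gN x)
  have h0 : 0 ≤ C * x ^ (3 / 4 : ℝ) := by positivity
  calc C * x ^ (3 / 4 : ℝ) * ∑ T ∈ FF gN x, (NN gN T : ℝ) ^ (-(3 / 2 : ℝ))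
      ≤ C * x ^ (3 / 4 : ℝ) * D := mul_le_mul_of_nonneg_left this h0
    _ = C * D * x ^ (3 / 4 : ℝ) := by ring

/-! ### the two functions -/

open Classical in
/-- the sign on the primary elements -/
noncomputable def h1 (v : G) : ℝ := if Prm v then (gi v : ℝ) else 0

open Classical in
/-- the indicator function of the elements congruent to `1 + i` minus half of that of the primary
elements -/
noncomputable def h2 (v : G) : ℝ := (if (4 : G) ∣ v - la then 1 else 0) - if Prm v then 1 / 2 else 0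

theorem gi_val (v : G) : gi v = 1 ∨ gi v = -1 := by
  unfold gi
  split_ifs <;> simp

theorem per_h1 : Per h1 where
  abs v := by
    unfold h1
    rcases gi_val v with h | h <;> rw [h] <;> split_ifs <;> norm_num
  per v w h := by
    unfold h1
    rw [gi_congr h]
    by_cases hw : Prm w
    · rw [if_pos hw, if_pos ((prm_congr h).2 hw)]
    · rw [if_neg hw, if_neg fun h' => hw ((prm_congr h).1 h')]
  zero := by
    unfold h1
    rw [if_neg]
    intro h
    exact Pool.Agent.Y692.PP.prm_ne_zero h rfl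
  mean := by
    have key : ∀ x y : ℤ, h1 ⟨x, y⟩ =
        if y % 2 = 0 ∧ (x - 1 + y) % 4 = 0 then (if (x - 1) % 4 = 0 ∧ y % 4 = 0 then 1 else -1)
          else 0 := by
      intro x y
      unfold h1 gi
      simp only [Pool.Agent.Y427.PP.prm_iff, four_dvd_iff, Zsqrtd.re_sub, Zsqrtd.im_sub,
        Zsqrtd.re_one, Zsqrtd.im_one, sub_zero]
      split_ifs <;> simp
    simp only [key, Finset.sum_range_succ, Finset.sum_range_zero]
    norm_num

theorem per_h2 : Per h2 where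
  abs v := by
    unfold h2
    split_ifs <;> norm_num [abs_le]
  per v w h := by
    unfold h2
    have h1 : (4 : G) ∣ v - la ↔ (4 : G) ∣ w - la := by
      have e : v - la = (v - w) + (w - la) := by ring
      rw [e]
      exact dvd_add_right h
    have h2 := prm_congr h
    classical
    rw [if_congr h1 rfl rfl, if_congr h2 rfl rfl]
  zero := by
    unfold h2
    rw [if_neg, if_neg]
    · norm_num
    · intro h
      exact Pool.Agent.Y692.PP.prm_ne_zero h rfl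
    · rw [four_dvd_iff]
      unfold la
      decide
  mean := by
    have key : ∀ x y : ℤ, h2 ⟨x, y⟩ =
        (if (x - 1) % 4 = 0 ∧ (y - 1) % 4 = 0 then 1 else 0) -
          if y % 2 = 0 ∧ (x - 1 + y) % 4 = 0 then 1 / 2 else 0 := by
      intro x y
      unfold h2 la
      simp only [Pool.Agent.Y427.PP.prm_iff, four_dvd_iff, Zsqrtd.re_sub, Zsqrtd.im_sub]
    simp only [key, Finset.sum_range_succ, Finset.sum_range_zero]
    norm_num

theorem mul_sq_congr (T : Finset Pr) (w : G) : (4 : G) ∣ PA T ^ 2 * w - w := by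
  have e : PA T ^ 2 * w - w = (PA T ^ 2 - 1) * w := by ring
  rw [e]
  exact Dvd.dvd.mul_right (sq_one (prm_PA T)) _

/-! ### counting -/

open Classical in
/-- the indicator function of the primary elements -/
noncomputable def h0 (v : G) : ℝ := if Prm v then 1 else 0

theorem card_FF (x : ℝ) : (#(FF gN x) : ℝ) =
    ∑ T ∈ FF gN x, (-1 : ℝ) ^ #T * ∑ w ∈ disc (x / (NN gN T : ℝ) ^ 2), h0 w := by
  have h := sieve h0 (fun v hv => by unfold h0; rw [if_neg hv]) x
  have e : ∀ A ∈ FF gN x, h0 (PA A) = 1 := fun A _ => by unfold h0; rw [if_pos (prm_PA A)]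
  rw [Finset.sum_congr rfl e] at h
  simp only [Finset.sum_const, nsmul_eq_mul, mul_one] at h
  rw [h]
  refine Finset.sum_congr rfl fun T _ => ?_
  congr 1
  refine Finset.sum_congr rfl fun w _ => ?_
  unfold h0
  classical
  exact if_congr (prm_congr (mul_sq_congr T w)) rfl rfl

theorem nm_la : nm la = 2 := by
  unfold nm la
  rfl

open Classical in
theorem half (y : ℝ) : ∑ w ∈ disc (y / 2), h0 w =
    ∑ v ∈ disc y, if (4 : G) ∣ v - la then (1 : ℝ) else 0 := by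
  unfold h0
  rw [← Finset.sum_filter, ← Finset.sum_filter]
  refine Finset.sum_bij (fun w _ => la * w) ?_ ?_ ?_ ?_
  · intro w hw
    rw [Finset.mem_filter, mem_disc] at hw
    rw [Finset.mem_filter, mem_disc, Pool.Agent.Y692.PP.nm_mul, nm_la]
    refine ⟨by push_cast; linarith [hw.1], ?_⟩
    obtain ⟨c, hc⟩ := hw.2
    have e : la * w - la = 4 * (⟨0, 1⟩ * c) := by
      have e1 : la * w - la = la * (w - 1) := by ring
      have e2 : la * (⟨2, 2⟩ : G) = 4 * ⟨0, 1⟩ := by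
        unfold la
        decide
      rw [e1, hc, ← mul_assoc, e2, mul_assoc]
    exact ⟨_, e⟩
  · intro w _ w' _ h
    have hla : la ≠ 0 := by
      unfold la
      decide
    exact mul_left_cancel₀ hla h
  · intro v hv
    rw [Finset.mem_filter, mem_disc] at hv
    obtain ⟨h3, c, hc⟩ := hv
    have e3 : (4 : G) = la * (⟨2, -2⟩ : G) := by
      unfold la
      decide
    refine ⟨1 + ⟨2, -2⟩ * c, ?_, ?_⟩
    · rw [Finset.mem_filter, mem_disc]
      have e4 : v = la * (1 + ⟨2, -2⟩ * c) := by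
        have : v = la + 4 * c := by rw [← hc]; ring
        rw [this, e3]
        ring
      rw [e4, Pool.Agent.Y692.PP.nm_mul, nm_la] at h3
      push_cast at h3
      refine ⟨by linarith, ?_⟩
      unfold Prm
      have e5 : (⟨2, -2⟩ : G) = ⟨2, 2⟩ * ⟨0, -1⟩ := by decide
      rw [add_sub_cancel_left, e5, mul_assoc]
      exact dvd_mul_right _ _
    · have : v = la + 4 * c := by rw [← hc]; ring
      rw [this, e3]
      ring
  · intro w _
    rfl

/-- the sieve over a larger set of indices -/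
theorem card_half {x : ℝ} (hx : 0 ≤ x) : (#(FF gN (x / 2)) : ℝ) =
    ∑ T ∈ FF gN x, (-1 : ℝ) ^ #T * ∑ w ∈ disc (x / 2 / (NN gN T : ℝ) ^ 2), h0 w := by
  rw [card_FF]
  refine Finset.sum_subset ?_ ?_
  · intro T hT
    rw [mem_FF] at *
    linarith
  · intro T _ hT
    rw [mem_FF, not_le] at hT
    have hN : (1 : ℝ) ≤ NN gN T := by exact_mod_cast Pool.Agent.Y692.PP.NN_pos T
    have e : ∑ w ∈ disc (x / 2 / (NN gN T : ℝ) ^ 2), h0 w = 0 := by
      refine Finset.sum_eq_zero fun w hw => ?_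
      rw [mem_disc] at hw
      have h3 : x / 2 / (NN gN T : ℝ) ^ 2 < 1 := by
        rw [div_lt_one (by positivity)]
        nlinarith
      have h2 : nm w = 0 := by
        by_contra hc
        have : (1 : ℝ) ≤ nm w := by exact_mod_cast Nat.one_le_iff_ne_zero.2 hc
        linarith
      rw [Pool.Agent.Y692.PP.nm_eq_zero h2]
      unfold h0
      rw [if_neg]
      intro h
      exact Pool.Agent.Y692.PP.prm_ne_zero h rfl
    rw [e, mul_zero]

/-- **ASYM** -/
theorem t_ASYM : SASYM := by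
  classical
  obtain ⟨C, hC0, hC⟩ := main_bound
  refine ⟨C, fun x hx => ⟨?_, ?_⟩⟩
  · have h := sieve h1 (fun v hv => by unfold h1; rw [if_neg hv]) x
    have e : ∀ A ∈ FF gN x, h1 (PA A) = ∏ p ∈ A, gz p := fun A _ => by
      unfold h1
      rw [if_pos (prm_PA A), gi_prod]
    rw [Finset.sum_congr rfl e] at h
    rw [h]
    have e2 : ∀ T ∈ FF gN x, (-1 : ℝ) ^ #T * ∑ w ∈ disc (x / (NN gN T : ℝ) ^ 2), h1 (PA T ^ 2 * w) =
        (-1 : ℝ) ^ #T * ∑ w ∈ disc (x / (NN gN T : ℝ) ^ 2), h1 w := by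
      intro T _
      congr 1
      exact Finset.sum_congr rfl fun w _ => per_h1.per _ _ (mul_sq_congr T w)
    rw [Finset.sum_congr rfl e2]
    exact hC h1 per_h1 x (by linarith)
  · rw [card_half (by linarith : (0 : ℝ) ≤ x), card_FF x, Finset.sum_div, ← Finset.sum_sub_distrib]
    have e : ∀ T ∈ FF gN x, (-1 : ℝ) ^ #T * ∑ w ∈ disc (x / 2 / (NN gN T : ℝ) ^ 2), h0 w -
        (-1 : ℝ) ^ #T * (∑ w ∈ disc (x / (NN gN T : ℝ) ^ 2), h0 w) / 2 =
        (-1 : ℝ) ^ #T * ∑ w ∈ disc (x / (NN gN T : ℝ) ^ 2), h2 w := by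
      intro T _
      have e1 : x / 2 / (NN gN T : ℝ) ^ 2 = x / (NN gN T : ℝ) ^ 2 / 2 := by ring
      rw [e1, half]
      unfold h2
      rw [Finset.sum_sub_distrib]
      have e3 : ∑ w ∈ disc (x / (NN gN T : ℝ) ^ 2), (if Prm w then (1 / 2 : ℝ) else 0) =
          (∑ w ∈ disc (x / (NN gN T : ℝ) ^ 2), h0 w) / 2 := by
        rw [Finset.sum_div]
        refine Finset.sum_congr rfl fun w _ => ?_
        unfold h0
        split_ifs <;> norm_num
      rw [e3]
      ring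
    rw [Finset.sum_congr rfl e]
    exact hC h2 per_h2 x (by linarith)

end Pool.Agent.Helper26K9.DN
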