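import Pool.Agent.Helper26K9.DN.Stm
import Pool.Agent.Y37.PP.Cnt1
import Pool.Agent.Y100.PP.Cnt

/-!
# Counting the odd squarefree Gaussian integers
-/

set_option autoImplicit false

open Finset

namespace Pool.Agent.Helper26K9.DN

open Pool.Agent.Y690.PP Pool.Agent.Y690.PP.Fn
open Pool.Agent.Y100.PP (U U_inj U_unit nm_U unit_eq)

/-- the odd squarefree Gaussian integers of norm at most `X` -/
def TwO (X : ℝ) : Set G := {D | Squarefree D ∧ ¬ la ∣ D ∧ ((D.norm : ℤ) : ℝ) ≤ X}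

/-- the squarefree Gaussian integers of norm at most `X` -/
def TwA (X : ℝ) : Set G := {D | Squarefree D ∧ ((D.norm : ℤ) : ℝ) ≤ X}

/-- the parametrization -/
def W0 (x : Fin 4 × Finset Pr) : G := U x.1 * PA x.2

theorem W0_inj : Function.Injective W0 := by
  rintro ⟨i, A⟩ ⟨j, B⟩ h
  have h' : Pool.Agent.Y100.PP.W (i, A) = Pool.Agent.Y100.PP.W (j, B) := by
    unfold Pool.Agent.Y100.PP.W
    unfold W0 at h
    simp only at h ⊢
    linear_combination la * h
  exact Pool.Agent.Y100.PP.W_inj Pool.Agent.Y37.PP.t_CNT2 h'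

theorem nm_W0 (i : Fin 4) (A : Finset Pr) : nm (W0 (i, A)) = NN gN A := by
  have h : nm (PA A) = NN gN A := Pool.Agent.Y678.PP.nm_prod A
  unfold W0
  simp only
  rw [Pool.Agent.Y678.PP.nm_mul, nm_U, h, one_mul]

theorem W0_le {X : ℝ} (i : Fin 4) (A : Finset Pr) :
    ((((W0 (i, A)).norm : ℤ)) : ℝ) ≤ X ↔ A ∈ FF gN X := by
  rw [Pool.Agent.Y100.PP.norm_le, nm_W0, Pool.Agent.Y678.PP.mem_FF Pool.Agent.Y427.PP.t_FAC]

theorem odd_iff (D : G) :
    (Squarefree D ∧ ¬ la ∣ D) ↔ ∃ (u : G) (A : Finset Pr), IsUnit u ∧ D = u * PA A := by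
  constructor
  · rintro ⟨hD, hl⟩
    have h1 : Squarefree (la * D) ∧ la ∣ la * D := by
      refine ⟨?_, dvd_mul_right _ _⟩
      rw [squarefree_mul_iff]
      refine ⟨?_, Pool.Agent.Y37.PP.la_irr.squarefree, hD⟩
      rw [Pool.Agent.Y37.PP.la_irr.isRelPrime_iff_not_dvd]
      exact hl
    obtain ⟨u, A, hu, h⟩ := (Pool.Agent.Y37.PP.t_CNT1 _).mp h1
    refine ⟨u, A, hu, ?_⟩
    apply mul_left_cancel₀ Pool.Agent.Y37.PP.la_prime.ne_zero
    linear_combination h
  · rintro ⟨u, A, hu, rfl⟩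
    have h1 : Associated (PA A) (u * PA A) := by
      obtain ⟨w, rfl⟩ := hu
      exact ⟨w, by ring⟩
    refine ⟨(h1.squarefree_iff).1 (Pool.Agent.Y37.PP.sqf_PA A), fun h2 => ?_⟩
    exact Pool.Agent.Y37.PP.la_not_dvd A (h2.trans h1.symm.dvd)

theorem TwO_eq (X : ℝ) :
    TwO X = W0 '' ((univ ×ˢ FF gN X : Finset (Fin 4 × Finset Pr)) : Set (Fin 4 × Finset Pr)) := by
  ext D
  constructor
  · rintro ⟨ha, hb, hc⟩
    obtain ⟨u, A, hu, hD⟩ := (odd_iff D).mp ⟨ha, hb⟩
    obtain ⟨i, rfl⟩ := unit_eq u hu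
    refine ⟨(i, A), ?_, hD.symm⟩
    have h3 : ((((W0 (i, A)).norm : ℤ)) : ℝ) ≤ X := by
      have : W0 (i, A) = D := hD.symm
      rw [this]
      exact hc
    rw [Finset.mem_coe, Finset.mem_product]
    exact ⟨Finset.mem_univ _, (W0_le i A).mp h3⟩
  · rintro ⟨⟨i, A⟩, hm, rfl⟩
    rw [Finset.mem_coe, Finset.mem_product] at hm
    obtain ⟨ha, hb⟩ := (odd_iff (W0 (i, A))).mpr ⟨U i, A, U_unit i, rfl⟩
    exact ⟨ha, hb, (W0_le i A).mpr hm.2⟩

theorem TwO_fin (X : ℝ) : (TwO X).Finite := by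
  rw [TwO_eq]
  exact (Finset.finite_toSet _).image _

theorem TwO_card (X : ℝ) : (TwO X).ncard = 4 * #(FF gN X) := by
  rw [TwO_eq, Set.ncard_image_of_injective _ W0_inj, Set.ncard_coe_finset,
      Finset.card_product, Finset.card_univ, Fintype.card_fin]

theorem TwA_eq (X : ℝ) : TwA X = Tw X ∪ TwO X := by
  ext D
  by_cases h : la ∣ D
  · constructor
    · rintro ⟨h1, h2⟩
      exact Or.inl ⟨h1, h, h2⟩
    · rintro (h1 | h1)
      · exact ⟨h1.1, h1.2.2⟩
      · exact absurd h h1.2.1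
  · constructor
    · rintro ⟨h1, h2⟩
      exact Or.inr ⟨h1, h, h2⟩
    · rintro (h1 | h1)
      · exact absurd h1.2.1 h
      · exact ⟨h1.1, h1.2.2⟩

theorem Tw_disj (X : ℝ) : Disjoint (Tw X) (TwO X) :=
  Set.disjoint_left.mpr fun _ h1 h2 => h2.2.1 h1.2.1

theorem Tw_fin (X : ℝ) : (Tw X).Finite :=
  (Pool.Agent.Y100.PP.t_CNT Pool.Agent.Y37.PP.t_CNT1 Pool.Agent.Y37.PP.t_CNT2 X).1

theorem Tw_card (X : ℝ) : (Tw X).ncard = 4 * #(FF gN (X / 2)) :=
  (Pool.Agent.Y100.PP.t_CNT Pool.Agent.Y37.PP.t_CNT1 Pool.Agent.Y37.PP.t_CNT2 X).2.1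

theorem TwA_fin (X : ℝ) : (TwA X).Finite := by
  rw [TwA_eq]
  exact (Tw_fin X).union (TwO_fin X)

theorem TwA_card (X : ℝ) : (TwA X).ncard = 4 * #(FF gN (X / 2)) + 4 * #(FF gN X) := by
  rw [TwA_eq, Set.ncard_union_eq (Tw_disj X) (Tw_fin X) (TwO_fin X), Tw_card, TwO_card]

theorem TwA_Q (X : ℝ) (Q : G → Prop) :
    {D ∈ TwA X | Q D}.ncard = {D ∈ Tw X | Q D}.ncard + {D ∈ TwO X | Q D}.ncard := by
  have h : {D ∈ TwA X | Q D} = {D ∈ Tw X | Q D} ∪ {D ∈ TwO X | Q D} := by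
    rw [TwA_eq]
    ext D
    simp only [Set.mem_union, Set.mem_setOf_eq]
    tauto
  rw [h, Set.ncard_union_eq _ ((Tw_fin X).subset fun D hD => hD.1)
    ((TwO_fin X).subset fun D hD => hD.1)]
  exact (Tw_disj X).mono (fun D hD => hD.1) (fun D hD => hD.1)

theorem U0 : U 0 = 1 := rfl
theorem U1 : U 1 = -1 := rfl
theorem U2 : U 2 = ii := rfl
theorem U3 : U 3 = -ii := by decide

open Classical in
/-- the lower bound -/
theorem TwO_low (X : ℝ) (Q : G → Prop) (T1 Ti : Finset Pr → Prop) (hn : ∀ D, Q D → Q (-D))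
    (h1 : ∀ A, T1 A → Q (PA A)) (hi : ∀ A, Ti A → Q (ii * PA A)) :
    2 * #((FF gN X).filter fun A => T1 A) + 2 * #((FF gN X).filter fun A => Ti A) ≤
      {D ∈ TwO X | Q D}.ncard := by
  set F1 : Finset (Fin 4 × Finset Pr) := ({0, 1} : Finset (Fin 4)) ×ˢ
    ((FF gN X).filter fun A => T1 A) with hF1
  set F2 : Finset (Fin 4 × Finset Pr) := ({2, 3} : Finset (Fin 4)) ×ˢ
    ((FF gN X).filter fun A => Ti A) with hF2
  have hd : Disjoint F1 F2 := by
    rw [Finset.disjoint_left]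
    rintro ⟨i, A⟩ hm1 hm2
    rw [hF1, Finset.mem_product] at hm1
    rw [hF2, Finset.mem_product] at hm2
    have e1 := hm1.1
    have e2 := hm2.1
    simp only [Finset.mem_insert, Finset.mem_singleton] at e1 e2
    rcases e1 with e1 | e1 <;> rcases e2 with e2 | e2 <;> rw [e1] at e2 <;> revert e2 <;> decide
  have hsub : W0 '' ((F1 ∪ F2 : Finset (Fin 4 × Finset Pr)) : Set (Fin 4 × Finset Pr)) ⊆
      {D ∈ TwO X | Q D} := by
    rintro _ ⟨⟨i, A⟩, hm, rfl⟩
    rw [Finset.mem_coe, Finset.mem_union] at hm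
    have hA : A ∈ FF gN X := by
      rcases hm with hm | hm
      · rw [hF1, Finset.mem_product] at hm
        exact (Finset.mem_filter.mp hm.2).1
      · rw [hF2, Finset.mem_product] at hm
        exact (Finset.mem_filter.mp hm.2).1
    refine ⟨?_, ?_⟩
    · rw [TwO_eq]
      refine ⟨(i, A), ?_, rfl⟩
      rw [Finset.mem_coe, Finset.mem_product]
      exact ⟨Finset.mem_univ _, hA⟩
    · show Q (W0 (i, A))
      unfold W0
      simp only
      rcases hm with hm | hm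
      · rw [hF1, Finset.mem_product] at hm
        have hT := (Finset.mem_filter.mp hm.2).2
        have e1 := hm.1
        simp only [Finset.mem_insert, Finset.mem_singleton] at e1
        rcases e1 with e1 | e1
        · rw [e1, U0, one_mul]
          exact h1 A hT
        · rw [e1, U1, neg_one_mul]
          exact hn _ (h1 A hT)
      · rw [hF2, Finset.mem_product] at hm
        have hT := (Finset.mem_filter.mp hm.2).2
        have e1 := hm.1
        simp only [Finset.mem_insert, Finset.mem_singleton] at e1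
        rcases e1 with e1 | e1
        · rw [e1, U2]
          exact hi A hT
        · rw [e1, U3, neg_mul]
          exact hn _ (hi A hT)
  have h4 := Set.ncard_le_ncard hsub ((TwO_fin X).subset fun D hD => hD.1)
  rw [Set.ncard_image_of_injective _ W0_inj, Set.ncard_coe_finset,
    Finset.card_union_of_disjoint hd, hF1, hF2, Finset.card_product, Finset.card_product] at h4
  have h5 : #({0, 1} : Finset (Fin 4)) = 2 := by decide
  have h6 : #({2, 3} : Finset (Fin 4)) = 2 := by decide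
  rw [h5, h6] at h4
  exact h4

end Pool.Agent.Helper26K9.DN
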