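import Pool.Agent.Y405.PP.Comb

/-!
# The number of all maximal unlinked sets
-/

set_option autoImplicit false

open Finset

namespace Pool.Agent.Helper26K9.DN

open Pool.Agent.Y690.PP

lemma ix_two {k : ℕ} (u : Ix k) : u + u = 0 := by
  funext j
  exact Prod.ext (CharTwo.add_self_eq_zero _) (CharTwo.add_self_eq_zero _)

/-- translation -/
def trl {k : ℕ} (u : Ix k) (Λ : Finset (Ix k)) : Finset (Ix k) :=
  Λ.map ⟨fun v => u + v, fun _ _ h => add_left_cancel h⟩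

lemma mem_trl {k : ℕ} {u v : Ix k} {Λ : Finset (Ix k)} : v ∈ trl u Λ ↔ u + v ∈ Λ := by
  unfold trl
  rw [Finset.mem_map]
  constructor
  · rintro ⟨w, hw, rfl⟩
    show u + (u + w) ∈ Λ
    rw [← add_assoc, ix_two, zero_add]
    exact hw
  · intro h
    refine ⟨u + v, h, ?_⟩
    show u + (u + v) = v
    rw [← add_assoc, ix_two, zero_add]

lemma trl_trl {k : ℕ} (u : Ix k) (Λ : Finset (Ix k)) : trl u (trl u Λ) = Λ := by
  ext v
  rw [mem_trl, mem_trl, ← add_assoc, ix_two, zero_add]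

lemma card_trl {k : ℕ} (u : Ix k) (Λ : Finset (Ix k)) : #(trl u Λ) = #Λ := card_map _

lemma unl_trl {k : ℕ} {u : Ix k} {Λ : Finset (Ix k)} (h : ∀ a ∈ Λ, ∀ b ∈ Λ, QQ (a + b) = 0) :
    ∀ a ∈ trl u Λ, ∀ b ∈ trl u Λ, QQ (a + b) = 0 := by
  intro a ha b hb
  rw [mem_trl] at ha hb
  have := h _ ha _ hb
  have e : u + a + (u + b) = a + b := by
    have : u + a + (u + b) = (u + u) + (a + b) := by abel
    rw [this, ix_two, zero_add]
  rwa [e] at this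

open Classical in
/-- the number of all maximal unlinked sets -/
theorem card_all (k : ℕ) :
    #((univ : Finset (Finset (Ix k))).filter fun Λ =>
      (∀ u ∈ Λ, ∀ v ∈ Λ, QQ (u + v) = 0) ∧ #Λ = 2 ^ k) = 2 ^ k * ∏ i ∈ range k, (2 ^ i + 1) := by
  obtain ⟨c1, c2, c3⟩ := Pool.Agent.Y405.PP.t_COMB k
  set L : Finset (Finset (Ix k)) := univ.filter fun Λ =>
    (∀ u ∈ Λ, ∀ v ∈ Λ, QQ (u + v) = 0) ∧ #Λ = 2 ^ k with hL
  set L0 : Finset (Finset (Ix k)) := univ.filter fun Λ =>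
    (∀ u ∈ Λ, ∀ v ∈ Λ, QQ (u + v) = 0) ∧ #Λ = 2 ^ k ∧ ∀ u ∈ Λ, QQ u = 0 with hL0
  have hmL : ∀ Λ, Λ ∈ L ↔ (∀ u ∈ Λ, ∀ v ∈ Λ, QQ (u + v) = 0) ∧ #Λ = 2 ^ k := fun Λ => by
    rw [hL, mem_filter]
    exact ⟨fun h => h.2, fun h => ⟨mem_univ _, h⟩⟩
  have hmL0 : ∀ Λ, Λ ∈ L0 ↔ (∀ u ∈ Λ, ∀ v ∈ Λ, QQ (u + v) = 0) ∧ #Λ = 2 ^ k ∧
      ∀ u ∈ Λ, QQ u = 0 := fun Λ => by
    rw [hL0, mem_filter]
    exact ⟨fun h => h.2, fun h => ⟨mem_univ _, h⟩⟩
  have hzero : ∀ Λ ∈ L0, (0 : Ix k) ∈ Λ := by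
    intro Λ hΛ
    obtain ⟨h1, h2, h3⟩ := (hmL0 Λ).mp hΛ
    by_contra h0
    obtain ⟨⟨-, u, hu, hu1⟩, -⟩ := (c2 Λ h1 h2).imp_left (fun h => h 0 h0)
    rw [add_zero, h3 u hu] at hu1
    exact absurd hu1 (by decide)
  -- pairs
  have hpairs : #((L ×ˢ (univ : Finset (Ix k))).filter fun x => x.2 ∈ x.1) = #(L0 ×ˢ (univ : Finset (Ix k))) := by
    refine Finset.card_nbij' (fun x => (trl x.2 x.1, x.2)) (fun x => (trl x.2 x.1, x.2)) ?_ ?_ ?_ ?_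
    · rintro ⟨Λ, u⟩ h
      rw [mem_coe, mem_filter, mem_product] at h
      obtain ⟨⟨h1, -⟩, h2⟩ := h
      obtain ⟨h3, h4⟩ := (hmL Λ).mp h1
      rw [mem_coe, mem_product]
      refine ⟨(hmL0 _).mpr ⟨unl_trl h3, (card_trl _ _).trans h4, fun v hv => ?_⟩, mem_univ _⟩
      have hv' := mem_trl.mp hv
      have := h3 _ hv' _ h2
      have e : u + v + u = v := by
        have : u + v + u = (u + u) + v := by abel
        rw [this, ix_two, zero_add]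
      rwa [e] at this
    · rintro ⟨Λ, u⟩ h
      rw [mem_coe, mem_product] at h
      obtain ⟨h3, h4, h5⟩ := (hmL0 Λ).mp h.1
      rw [mem_coe, mem_filter, mem_product]
      refine ⟨⟨(hmL _).mpr ⟨unl_trl h3, (card_trl _ _).trans h4⟩, mem_univ _⟩, ?_⟩
      show u ∈ trl u Λ
      rw [mem_trl, ix_two]
      exact hzero Λ h.1
    · rintro ⟨Λ, u⟩ _
      exact Prod.ext (trl_trl u Λ) rfl
    · rintro ⟨Λ, u⟩ _
      exact Prod.ext (trl_trl u Λ) rfl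
  have hcount : #((L ×ˢ (univ : Finset (Ix k))).filter fun x => x.2 ∈ x.1) = #L * 2 ^ k := by
    rw [Finset.card_filter, Finset.sum_product]
    have : ∀ Λ ∈ L, ∑ u : Ix k, (if u ∈ Λ then 1 else 0) = 2 ^ k := by
      intro Λ hΛ
      rw [Finset.sum_ite_mem, univ_inter, ← card_eq_sum_ones]
      exact ((hmL Λ).mp hΛ).2
    rw [Finset.sum_congr rfl this, sum_const, smul_eq_mul]
  have hcard : #(univ : Finset (Ix k)) = 2 ^ k * 2 ^ k := by
    rw [card_univ, Fintype.card_fun, Fintype.card_prod, ZMod.card, Fintype.card_fin, mul_pow]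
  rw [hcount, card_product, hcard, c3] at hpairs
  have h2 : (0 : ℕ) < 2 ^ k := by positivity
  have : #L * 2 ^ k = (2 ^ k * ∏ i ∈ range k, (2 ^ i + 1)) * 2 ^ k := by
    rw [hpairs]
    ring
  exact Nat.eq_of_mul_eq_mul_right h2 this

end Pool.Agent.Helper26K9.DN
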