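import Pool.Agent.Helper26K9.DN.Stm
import Pool.Agent.Y547.PP.Dsc1

/-!
# Job DN-DSCO: the first step of the descent on `D y² = x³ - x`, `D = η ∏ A` odd
-/

set_option autoImplicit false

open Finset

namespace Pool.Agent.Helper26K9.DN

open Pool.Agent.Y690.PP Pool.Agent.Y690.PP.Fn
open Pool.Agent.Y547.PP
open Pool.Agent.Y427.PP (unit_cases)

theorem ii_unit : IsUnit ii := by
  refine IsUnit.of_mul_eq_one (⟨0, -1⟩ : G) ?_
  unfold ii
  decide

/-- a unit is `1` or `i` times the square of a unit -/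
theorem unit_class {v : G} (hv : IsUnit v) : ∃ u e : G, (u = 1 ∨ u = ii) ∧ IsUnit e ∧ v = u * e ^ 2 := by
  have h1 : IsUnit (⟨0, 1⟩ : G) := ii_unit
  rcases unit_cases hv with rfl | rfl | rfl | rfl
  · exact ⟨1, 1, Or.inl rfl, isUnit_one, by ring⟩
  · exact ⟨1, ⟨0, 1⟩, Or.inl rfl, h1, by decide⟩
  · exact ⟨ii, 1, Or.inr rfl, isUnit_one, by unfold ii; decide⟩
  · exact ⟨ii, ⟨0, 1⟩, Or.inr rfl, h1, by unfold ii; decide⟩

theorem not_dvd_unit (p : Pr) {e : G} (he : IsUnit e) : ¬ p.1 ∣ e := fun h =>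
  p.2.1.not_isUnit (isUnit_of_dvd_unit h he)

theorem main {F : Type} [Field F] [Algebra G F] [IsFractionRing G F] (η : G) (hη : IsUnit η)
    (A : Finset Pr) (x y : F) (hy : y ≠ 0)
    (hxy : algebraMap G F (η * PA A) * y ^ 2 = x ^ 3 - x) :
    ∃ (u : G) (V : Finset Pr) (w : F), (u = 1 ∨ u = ii) ∧ V ⊆ A ∧
      algebraMap G F (η * PA A) * x = algebraMap G F (u * PA V) * w ^ 2 ∧
      (∀ p ∈ V, ∃ B : Finset Pr, (∀ q, q ∈ B ↔ q ∈ A ∧ q ∉ V) ∧ qs p.1 (η * u * PA B) = 1) ∧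
      (∀ p ∈ A, p ∉ V → qs p.1 (u * PA V) = 1) := by
  classical
  have hm : ∀ p : Pr, ∀ v w : G, qs p.1 (v * w) = qs p.1 v * qs p.1 w := fun p => qs_mul p.2.1 p.2.2
  have hD0 : η * PA A ≠ 0 := mul_ne_zero hη.ne_zero (PA_ne A)
  have hDF := A_ne (F := F) hD0
  set DF := algebraMap G F (η * PA A) with hDFdef
  obtain ⟨d, f, b, Y0, hd, hdD, hcop, hf0, hb0, hX, hY0⟩ := decomp0 (F := F) hD0
    (x := DF * x) (y := DF ^ 2 * y) (mul_ne_zero (pow_ne_zero _ hDF) hy)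
    (by linear_combination DF ^ 3 * hxy)
  have hdD' : ∀ ρ : G, Prime ρ → ρ ∣ d → ρ ∣ PA A := fun ρ hρ h =>
    dvd_of_unit_mul hη (hdD ρ hρ h)
  obtain ⟨S, v, hSA, hv, hdS⟩ := struct hd fun ρ hρ h => (hdD' ρ hρ h).mul_left la
  have hdS : d = v * PA S := by
    rcases hdS with h | h
    · exact h
    · exfalso
      have h1 : la ∣ d := by
        rw [h]
        exact ((dvd_refl la).mul_left v).mul_right _
      exact la_not_dvd_prm (prm_PA A) (hdD' la la_prime h1)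
  obtain ⟨v', hvv'⟩ := hv.exists_right_inv
  have hv' : IsUnit v' := IsUnit.of_mul_eq_one v (by rw [mul_comm]; exact hvv')
  have hPA := PA_sdiff hSA
  have hDD : d * (v' * η * PA (A \ S)) = η * PA A := by
    rw [hdS, ← hPA]
    linear_combination η * PA S * PA (A \ S) * hvv'
  rw [← hDD] at hY0
  obtain ⟨Y, hY⟩ := reduce hd hY0
  have hsq : ∀ p : Pr, ¬ p.1 * p.1 ∣ d * (v' * η * PA (A \ S)) := by
    intro p h
    rw [hDD] at h
    exact sqf_D A p ((dvd_of_unit_mul hη h).mul_left la)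
  have hL := fun p : Pr => loc hY hcop p (hsq p)
  obtain ⟨u, e, hu, he, hve⟩ := unit_class hv
  -- the symbols of `v'` and `u` agree
  have hsym : ∀ p : Pr, qs p.1 v' = qs p.1 u := by
    intro p
    have h1 : v' = v * v' ^ 2 := by linear_combination -v' * hvv'
    rw [h1, hve, hm, hm, qs_sq p.2.1 (not_dvd_unit p he), qs_sq p.2.1 (not_dvd_unit p hv'),
      mul_one, mul_one]
  refine ⟨u, S, algebraMap G F e * (algebraMap G F f / algebraMap G F b), hu, hSA, ?_, ?_, ?_⟩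
  · rw [hX, hdS, hve]
    simp only [map_mul, map_pow]
    ring
  · intro p hp
    refine ⟨A \ S, fun q => Finset.mem_sdiff, ?_⟩
    have h1 := (hL p).1 (by rw [hdS]; exact (dvd_PA hp).mul_left _)
    rw [hm, hm, hsym] at h1
    rw [hm, hm, mul_comm (qs p.1 η)]
    exact h1
  · intro p hpA hpS
    have h1 := (hL p).2 ((dvd_PA (Finset.mem_sdiff.2 ⟨hpA, hpS⟩)).mul_left _)
    rw [hdS, hve, hm, hm, qs_sq p.2.1 (not_dvd_unit p he), mul_one] at h1
    rw [hm]
    exact h1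

/-- **DSCO** -/
theorem t_DSCO : SDSCO := by
  intro η hη A x y hy hxy
  refine main η ?_ A x y hy hxy
  rcases hη with rfl | rfl
  · exact isUnit_one
  · exact ii_unit

end Pool.Agent.Helper26K9.DN
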