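import Pool.Agent.Helper26K9.DN.Good
import Pool.Agent.Helper26K9.DN.Dsco
import Pool.Agent.Y690.PP.Dsc

/-!
# The descent for the classes `D` and `i D`
-/

set_option autoImplicit false

open Finset

namespace Pool.Agent.Helper26K9.DN

open Pool.Agent.Y690.PP Pool.Agent.Y690.PP.Fn

/-- the descent from the description of the Selmer group -/
theorem goodP_of {η : G} (hη : η = 1 ∨ η = ii) {A : Finset Pr}
    (h : ∀ (u : G) (V : Finset Pr), (u = 1 ∨ u = ii) → V ⊆ A →
      (∀ p ∈ V, ∃ B : Finset Pr, (∀ q, q ∈ B ↔ q ∈ A ∧ q ∉ V) ∧ qs p.1 (η * u * PA B) = 1) →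
      (∀ p ∈ A, p ∉ V → qs p.1 (u * PA V) = 1) → (u = 1 ∧ V = ∅) ∨ (u = η ∧ V = A)) :
    GoodP (η * PA A) := by
  classical
  intro x y hxy
  have hη0 : η ≠ 0 := by rcases hη with rfl | rfl <;> decide
  have hP0 : η * PA A ≠ 0 := by
    refine mul_ne_zero hη0 ?_
    unfold PA
    exact Finset.prod_ne_zero_iff.mpr fun p _ => p.2.1.ne_zero
  have hA0 : algebraMap G (FractionRing G) (η * PA A) ≠ 0 := A_ne hP0
  refine no_pts hA0 (fun x y hy hxy => ?_) hxy
  obtain ⟨u, V, w, hu, hVA, hw, hc1, hc2⟩ := t_DSCO η hη A x y hy hxy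
  rcases h u V hu hVA hc1 hc2 with ⟨rfl, rfl⟩ | ⟨rfl, rfl⟩
  · have hPe : PA ∅ = 1 := Finset.prod_empty
    rw [hPe, mul_one, map_one, one_mul] at hw
    exact ⟨w, Or.inl hw⟩
  · set d := algebraMap G (FractionRing G) (u * PA V) with hd
    have hx : x = w ^ 2 := mul_left_cancel₀ hA0 hw
    have hx0 : x ≠ 0 := by
      rintro rfl
      apply hy
      have h1 : d * y ^ 2 = 0 := by rw [hxy]; ring
      rcases mul_eq_zero.mp h1 with h2 | h2
      · exact absurd h2 hA0
      · exact pow_eq_zero_iff (by norm_num) |>.1 h2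
    have hw0 : w ≠ 0 := by
      rintro rfl
      apply hx0
      rw [hx]
      ring
    have hx1 : x - 1 ≠ 0 := by
      intro h1
      apply hy
      have h2 : d * y ^ 2 = 0 := by
        rw [hxy]
        have : x ^ 3 - x = (x - 1) * (x * (x + 1)) := by ring
        rw [this, h1, zero_mul]
      rcases mul_eq_zero.mp h2 with h3 | h3
      · exact absurd h3 hA0
      · exact pow_eq_zero_iff (by norm_num) |>.1 h3
    refine ⟨d * y / (w * (x - 1)), Or.inr ?_⟩
    rw [div_pow, mul_pow, mul_pow, ← hx, mul_div_assoc', div_eq_div_iff hx1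
      (mul_ne_zero hx0 (pow_ne_zero 2 hx1))]
    have e : d ^ 2 * y ^ 2 = d * (x ^ 3 - x) := by rw [← hxy]; ring
    rw [e]
    ring

lemma gs_eq (q p : Pr) : gs q p = ((qs q.1 p.1 : ℤ) : ℝ) := rfl

lemma cast_gs (V : Finset Pr) (p : Pr) :
    ∏ q ∈ V, gs q p = ((∏ q ∈ V, qs q.1 p.1 : ℤ) : ℝ) := by
  push_cast
  rfl

lemma ii2 : ii * ii = -1 := by decide

lemma gi_sq (p : Pr) : gi p.1 * gi p.1 = 1 := by
  rcases gi_val1 p.1 with h | h <;> rw [h] <;> norm_num

/-- the class `i D` -/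
theorem goodP_I {A : Finset Pr} (hX : XX gs gz A = 1) : GoodP (ii * PA A) := by
  classical
  refine goodP_of (Or.inr rfl) fun u V hu hVA h1 h2 => ?_
  have hB : ∀ B : Finset Pr, (∀ q, q ∈ B ↔ q ∈ A ∧ q ∉ V) → B = A \ V := by
    intro B hB
    ext q
    rw [hB, mem_sdiff]
  rcases hu with rfl | rfl
  · left
    refine ⟨rfl, eq_empty_of hX hVA (fun p hp => ?_) (fun p hp hp' => ?_)⟩
    · obtain ⟨B, hB1, hB2⟩ := h1 p hp
      rw [hB B hB1, mul_one, qs_iPA] at hB2
      rw [cast_gs]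
      unfold gz
      exact_mod_cast hB2
    · have h3 := h2 p hp hp'
      rw [one_mul, qs_PA] at h3
      rw [cast_gs]
      exact_mod_cast h3
  · right
    refine ⟨rfl, ?_⟩
    have h3 : A \ V = ∅ := by
      refine eq_empty_of hX sdiff_subset (fun p hp => ?_) (fun p hp hp' => ?_)
      · rw [mem_sdiff] at hp
        have h3 := h2 p hp.1 hp.2
        rw [qs_iPA] at h3
        have e : A \ (A \ V) = V := by
          rw [Finset.sdiff_sdiff_eq_self hVA]
        rw [e, cast_gs]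
        unfold gz
        exact_mod_cast h3
      · have hpV : p ∈ V := by
          by_contra h
          exact hp' (mem_sdiff.mpr ⟨hp, h⟩)
        obtain ⟨B, hB1, hB2⟩ := h1 p hpV
        rw [hB B hB1, ii2, neg_one_mul, Pool.Agent.Y259.PP.qs_neg, qs_PA] at hB2
        rw [cast_gs]
        exact_mod_cast hB2
    rw [sdiff_eq_empty_iff_subset] at h3
    exact Finset.Subset.antisymm hVA h3

/-- the class `D` -/
theorem goodP_D {A : Finset Pr} (hX : XX gs (fun _ => (1 : ℝ)) A = 2)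
    (hch : ∏ p ∈ A, gz p = -1) : GoodP (PA A) := by
  classical
  have hgoal : GoodP (1 * PA A) := by
    refine goodP_of (Or.inl rfl) fun u V hu hVA h1 h2 => ?_
    have hB : ∀ B : Finset Pr, (∀ q, q ∈ B ↔ q ∈ A ∧ q ∉ V) → B = A \ V := by
      intro B hB
      ext q
      rw [hB, mem_sdiff]
    rcases hu with rfl | rfl
    · have h4 : V = ∅ ∨ V = A := by
        refine eq_of_two hX hVA (fun p hp => ?_) (fun p hp hp' => ?_)
        · obtain ⟨B, hB1, hB2⟩ := h1 p hp
          rw [hB B hB1, mul_one, one_mul, qs_PA] at hB2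
          rw [cast_gs]
          exact_mod_cast hB2
        · have h3 := h2 p hp hp'
          rw [one_mul, qs_PA] at h3
          rw [cast_gs]
          exact_mod_cast h3
      rcases h4 with h3 | h3
      · exact Or.inl ⟨rfl, h3⟩
      · exact Or.inr ⟨rfl, h3⟩
    · exfalso
      have e1 : ∀ p ∈ V, gi p.1 = ∏ q ∈ A \ V, qs q.1 p.1 := by
        intro p hp
        obtain ⟨B, hB1, hB2⟩ := h1 p hp
        rw [hB B hB1, one_mul, qs_iPA] at hB2
        have := gi_sq p
        calc gi p.1 = gi p.1 * (gi p.1 * ∏ q ∈ A \ V, qs q.1 p.1) := by rw [hB2, mul_one]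
          _ = (gi p.1 * gi p.1) * ∏ q ∈ A \ V, qs q.1 p.1 := by ring
          _ = _ := by rw [this, one_mul]
      have e2 : ∀ p ∈ A \ V, gi p.1 = ∏ q ∈ V, qs q.1 p.1 := by
        intro p hp
        rw [mem_sdiff] at hp
        have h3 := h2 p hp.1 hp.2
        rw [qs_iPA] at h3
        have := gi_sq p
        calc gi p.1 = gi p.1 * (gi p.1 * ∏ q ∈ V, qs q.1 p.1) := by rw [h3, mul_one]
          _ = (gi p.1 * gi p.1) * ∏ q ∈ V, qs q.1 p.1 := by ring
          _ = _ := by rw [this, one_mul]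
      have e3 : ∏ p ∈ A, gi p.1 = (∏ p ∈ V, ∏ q ∈ A \ V, qs q.1 p.1) ^ 2 := by
        rw [← prod_sdiff hVA, prod_congr rfl e1, prod_congr rfl e2, prod_comm, sq]
        congr 1
        refine prod_congr rfl fun p _ => prod_congr rfl fun q _ => ?_
        exact Pool.Agent.Y901.PP.Rec.t_REC p.1 q.1 p.2.1 p.2.2 q.2.1 q.2.2
      have e4 : (∏ p ∈ A, gi p.1 : ℤ) = -1 := by
        have h5 : ((∏ p ∈ A, gi p.1 : ℤ) : ℝ) = -1 := by
          rw [← hch]
          push_cast
          rfl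
        exact_mod_cast h5
      rw [e3] at e4
      have := sq_nonneg (∏ p ∈ V, ∏ q ∈ A \ V, qs q.1 p.1)
      omega
  rwa [one_mul] at hgoal

end Pool.Agent.Helper26K9.DN
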