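import Pool.Agent.Helper26K9.DN.Tr
import Pool.Agent.Y674.PP.Eul

/-!
# The Euler product over the primary primes
-/

set_option autoImplicit false

open Finset IsDedekindDomain

namespace Pool.Agent.Helper26K9.DN

open Pool.Agent.Y690.PP Pool.Agent.Y690.PP.Fn
open Pool.Agent.Y674.PP (ph_card ph_mem prm_assoc qs_prod qs_val)
open Pool.Agent.Y690.NV (ff qr)
open Pool.Agent.Y690.NV (Sg1 euler_one)
open Pool.Agent.W192.HK (sp H_BASIC)

variable {R : Subring ℂ} (hR : ∀ z : ℂ, z ∈ R ↔ ∃ x y : ℤ, z = x + y * Complex.I)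

theorem isL_of (hbasic : H_BASIC) (ψ : Ideal R → ℂ) (D : G) (h0 : ψ ⊥ = 0) (h1 : ψ ⊤ = 1)
    (hmul : ∀ I J, ψ (I * J) = ψ I * ψ J)
    (hgen : ∀ p : Pr, ψ (Ideal.span {phi hR p.1}) = (qs p.1 D : ℂ) * (p.1 : ℂ))
    (hz : ∀ J, (¬ ∃ α : R, α - 1 ∈ sp (ff hR) ∧ J = sp α) → ψ J = 0)
    (k a b : ℕ) (hk : 1 ≤ k) (hab : a + b = 2 * k - 1) (hS : Sg1 ψ k a b) :
    ∃ L : ℂ → ℂ, IsLFunction D a b L ∧ L k ≠ 0 := by
  classical
  obtain ⟨L, hL1, hL2, hL3⟩ := hS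
  refine ⟨L, ⟨hL1, fun s hsre => ?_⟩, hL3⟩
  have hodd : Odd (a + b) := by rw [hab]; exact ⟨k - 1, by omega⟩
  have hab' : (a : ℝ) + b = 2 * k - 1 := by
    have h1 : a + b + 1 = 2 * k := by omega
    have h2 : ((a + b + 1 : ℕ) : ℝ) = ((2 * k : ℕ) : ℝ) := by rw [h1]
    push_cast at h2
    linarith
  have h := euler_one hbasic (qr hR) h0 h1 hmul (by omega) s _
    (hL2 s (by rw [hab'] at hsre; linarith))
  have hprime : ∀ p : Pr, Prime (phi hR p.1) := fun p =>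
    (MulEquiv.prime_iff (phi hR).toMulEquiv).mpr p.2.1
  obtain ⟨ι, hι⟩ : ∃ ι : Pr → HeightOneSpectrum R, ∀ p, (ι p).asIdeal = Ideal.span {phi hR p.1} :=
    ⟨fun p => ⟨Ideal.span {phi hR p.1},
      (Ideal.span_singleton_prime (hprime p).ne_zero).2 (hprime p), by
        rw [Ne, Ideal.span_singleton_eq_bot]
        exact (hprime p).ne_zero⟩, fun _ => rfl⟩
  have hcong : ∀ x : G, phi hR x - 1 ∈ sp (ff hR) ↔ Prm x := by
    intro x
    rw [← phi_pri hR x, ← Pool.Agent.Y690.AW.pri_iff hR]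
  have hinj : Function.Injective ι := by
    intro p q hpq
    have h1 : Ideal.span {phi hR p.1} = Ideal.span {phi hR q.1} := by rw [← hι, ← hι, hpq]
    rw [Ideal.span_singleton_eq_span_singleton] at h1
    have h2 : Associated p.1 q.1 := by
      obtain ⟨h3, h4⟩ := dvd_dvd_iff_associated.2 h1
      rw [map_dvd_iff] at h3 h4
      exact dvd_dvd_iff_associated.1 ⟨h3, h4⟩
    exact Subtype.ext (prm_assoc p.2.2 q.2.2 h2)
  have hout : ∀ P ∉ Set.range ι, (1 - ψ P.asIdeal ^ a * (starRingEnd ℂ) (ψ P.asIdeal) ^ b *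
      (Pool.Agent.W192.HK.nm P.asIdeal : ℂ) ^ (-s))⁻¹ = 1 := by
    intro P hP
    have h0 : ψ P.asIdeal = 0 := by
      apply hz
      rintro ⟨α, hα, hPα⟩
      apply hP
      obtain ⟨x, rfl⟩ := (phi hR).surjective α
      have hx0 : phi hR x ≠ 0 := by
        intro h0
        apply P.ne_bot
        rw [hPα, h0]
        exact Ideal.span_singleton_eq_bot.2 rfl
      have hpr : Prime (phi hR x) := by
        rw [← Ideal.span_singleton_prime hx0]
        have h2 : P.asIdeal = Ideal.span {phi hR x} := hPα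
        rw [← h2]
        exact P.isPrime
      obtain ⟨x', hx'⟩ : ∃ x' : Pr, x'.1 = x :=
        ⟨⟨x, (MulEquiv.prime_iff (phi hR).toMulEquiv).mp hpr, (hcong x).1 hα⟩, rfl⟩
      refine ⟨x', ?_⟩
      apply HeightOneSpectrum.ext
      rw [hι, hPα, hx']
    rw [h0, map_zero]
    have h1 : (0 : ℂ) ^ a * 0 ^ b = 0 := by
      rw [← pow_add]
      exact zero_pow hodd.pos.ne'
    rw [h1, zero_mul, sub_zero, inv_one]
  have h2 := (hinj.hasProd_iff hout).2 h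
  have hfac : (fun p : Pr => (1 - (qs p.1 D : ℂ) * (p.1 : ℂ) ^ a *
      (starRingEnd ℂ) (p.1 : ℂ) ^ b * ((p.1.norm : ℤ) : ℂ) ^ (-s))⁻¹) =
      (fun P : HeightOneSpectrum R => (1 - ψ P.asIdeal ^ a * (starRingEnd ℂ) (ψ P.asIdeal) ^ b *
      (Pool.Agent.W192.HK.nm P.asIdeal : ℂ) ^ (-s))⁻¹) ∘ ι := by
    funext p
    simp only [Function.comp_apply]
    have hnorm : ((Pool.Agent.W192.HK.nm (ι p).asIdeal : ℝ) : ℂ) = ((p.1.norm : ℤ) : ℂ) := by
      rw [hι]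
      have h5 : (Pool.Agent.W192.HK.nm (Ideal.span {phi hR p.1}) : ℝ) =
          ((Nat.card (R ⧸ sp (phi hR p.1)) : ℕ) : ℝ) := rfl
      rw [h5, card_phi hR hbasic]
      have h3 : ((p.1.norm.natAbs : ℕ) : ℤ) = p.1.norm :=
        Int.natAbs_of_nonneg (GaussianInt.norm_nonneg _)
      have h4 := congrArg (fun z : ℤ => (z : ℂ)) h3
      simp only [Int.cast_natCast] at h4
      rw [← h4]
      push_cast
      rfl
    rw [hnorm, hι, hgen, map_mul, mul_pow, mul_pow]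
    have hc : (starRingEnd ℂ) (qs p.1 D : ℂ) = (qs p.1 D : ℂ) := map_intCast _ _
    rw [hc]
    have hc2 : ((qs p.1 D : ℤ) : ℂ) ^ (a + b) = ((qs p.1 D : ℤ) : ℂ) := by
      rcases qs_val p.1 D with h3 | h3 | h3 <;> rw [h3]
      · rw [Int.cast_zero, zero_pow hodd.pos.ne']
      · rw [Int.cast_one, one_pow]
      · push_cast
        rw [hodd.neg_one_pow]
    congr 2
    rw [← hc2]
    rw [pow_add] at hc2 ⊢
    rw [hc2]
    linear_combination (-(p.1 : ℂ) ^ a * (starRingEnd ℂ) (p.1 : ℂ) ^ b *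
      ((p.1.norm : ℤ) : ℂ) ^ (-s)) * hc2
  rw [hfac]
  exact h2

end Pool.Agent.Helper26K9.DN
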