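import Pool.Agent.Helper26K9.DN.Stm
import Pool.Agent.Y690.PP.Mo
import Pool.Agent.Y692.PP.A3
import Pool.Agent.Y690.JP.Stm

/-!
# The sign `gi` and the upper bound of the `L`-functions
-/

set_option autoImplicit false

open Finset

namespace Pool.Agent.Helper26K9.DN

open Pool.Agent.Y690.PP
open Pool.Agent.Y692.PP (chi pd Tp facEquiv facEquiv_apply prm_one prm_mul prm_pd prm_ne_zero
  chi_one chi_mul chi_abs partial_le summable_nm NN_pos nm_prime rpow_neg_le mem_disc nm_pos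
  nm_mul nm_pd nm_one log_ge)

/-! ## The sign -/

theorem gi_cases {v : G} (hv : Prm v) :
    ((4 : G) ∣ v - 1 ∧ gi v = 1) ∨ ((4 : G) ∣ v - ⟨3, 2⟩ ∧ gi v = -1) := by
  by_cases h : (4 : G) ∣ v - 1
  · exact Or.inl ⟨h, by unfold gi; rw [if_pos h]⟩
  · right
    refine ⟨?_, by unfold gi; rw [if_neg h]⟩
    obtain ⟨c, hc⟩ := hv
    have h22 : (4 : G) = ⟨2, 2⟩ * ⟨1, -1⟩ := by ext <;> simp
    rcases Int.even_or_odd (c.re + c.im) with he | ho
    · exfalso
      apply h
      obtain ⟨k, hk⟩ := he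
      rw [hc, h22]
      refine mul_dvd_mul_left _ ⟨⟨c.re - k, k⟩, ?_⟩
      ext
      · simp
      · simp
        omega
    · obtain ⟨k, hk⟩ := ho
      have h2 : v - ⟨3, 2⟩ = ⟨2, 2⟩ * (c - 1) := by
        have : v - ⟨3, 2⟩ = (v - 1) - ⟨2, 2⟩ := by ext <;> simp <;> ring
        rw [this, hc]
        ring
      rw [h2, h22]
      refine mul_dvd_mul_left _ ⟨⟨c.re - 1 - k, k⟩, ?_⟩
      ext
      · simp
      · simp
        omega

theorem not_four : ¬ (4 : G) ∣ (⟨3, 2⟩ : G) - 1 := by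
  rintro ⟨c, hc⟩
  have := congrArg Zsqrtd.re hc
  simp at this
  omega

theorem gi_one1 : gi 1 = 1 := by
  unfold gi
  rw [if_pos (by rw [sub_self]; exact dvd_zero _)]

theorem gi_c1 : gi ⟨3, 2⟩ = -1 := by
  unfold gi
  rw [if_neg not_four]

theorem gi_val1 (v : G) : gi v = 1 ∨ gi v = -1 := by
  unfold gi
  split_ifs
  · exact Or.inl rfl
  · exact Or.inr rfl

theorem gi_cong {v w : G} (h : (4 : G) ∣ v - w) : gi v = gi w := by
  unfold gi
  have : (4 : G) ∣ v - 1 ↔ (4 : G) ∣ w - 1 := by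
    have e : v - 1 = (v - w) + (w - 1) := by ring
    rw [e, dvd_add_right h]
  by_cases h1 : (4 : G) ∣ v - 1
  · rw [if_pos h1, if_pos (this.mp h1)]
  · rw [if_neg h1, if_neg (fun h2 => h1 (this.mpr h2))]

theorem gi_mul1 {v w : G} (hv : Prm v) (hw : Prm w) : gi (v * w) = gi v * gi w := by
  have key : ∀ a b : G, (4 : G) ∣ v - a → (4 : G) ∣ w - b → gi (v * w) = gi (a * b) := by
    intro a b ha hb
    apply gi_cong
    have : v * w - a * b = (v - a) * w + a * (w - b) := by ring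
    rw [this]
    exact dvd_add (ha.mul_right _) (hb.mul_left _)
  rcases gi_cases hv with ⟨h1, h2⟩ | ⟨h1, h2⟩ <;> rcases gi_cases hw with ⟨h3, h4⟩ | ⟨h3, h4⟩ <;>
    rw [key _ _ h1 h3, h2, h4]
  · rw [mul_one, gi_one1]; norm_num
  · rw [one_mul, gi_c1]; norm_num
  · rw [mul_one, gi_c1]; norm_num
  · have : gi ((⟨3, 2⟩ : G) * ⟨3, 2⟩) = gi 1 := by
      apply gi_cong
      refine ⟨⟨1, 3⟩, ?_⟩
      ext <;> simp
    rw [this, gi_one1]
    norm_num

theorem gz_val (p : Pr) : gz p = 1 ∨ gz p = -1 := by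
  unfold gz
  rcases gi_val1 p.1 with h | h <;> rw [h] <;> simp

theorem basic_gz (h1 : SREC) : Basic gN gs gz :=
  { basic_gs h1 with t_val := gz_val }

theorem basic_one (h1 : SREC) : Basic gN gs (fun _ => (1 : ℝ)) :=
  { basic_gs h1 with t_val := fun _ => Or.inl rfl }

theorem prm_PA1 (A : Finset Pr) : Prm (Fn.PA A) := prm_pd A

theorem gi_PA (A : Finset Pr) : gi (Fn.PA A) = ∏ p ∈ A, gi p.1 := by
  classical
  induction A using Finset.induction_on with
  | empty =>
    unfold Fn.PA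
    rw [prod_empty, prod_empty, gi_one1]
  | insert p A hp ih =>
    have h : Fn.PA (insert p A) = p.1 * Fn.PA A := by
      unfold Fn.PA
      rw [prod_insert hp]
    rw [h, gi_mul1 p.2.2 (prm_PA1 A), ih, prod_insert hp]

/-! ## The upper bound of `log L` -/

/-- the general form of the bound -/
theorem A3_gen (h3 : SDISC) (h4 : SFAC) : ∃ C : ℝ, ∀ (A : Finset Pr) (h : G → ℝ),
    (∀ v, |h v| ≤ 1) → h 0 = 0 → (∀ v, ¬ Prm v → h v = 0) → h 1 = 1 →
    (∀ v w, Prm v → Prm w → h (v * w) = h v * h w) →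
    (∀ v w : G, ((8 * NN gN A : ℕ) : G) ∣ v - w → h v = h w) →
    (∑ x ∈ range (8 * NN gN A), ∑ y ∈ range (8 * NN gN A), h ⟨(x : ℤ), (y : ℤ)⟩ = 0) →
    ∀ σ : ℝ, 1 < σ → σ ≤ 2 →
      ∑' p : Pr, h p.1 * (gN p : ℝ) ^ (-σ) ≤ Real.log (1 + Real.log (NN gN A)) + C := by
  classical
  obtain ⟨C, hC1, hC⟩ := partial_le h3
  set Z : ℝ := ∑' v : G, (nm v : ℝ) ^ (-2 : ℝ) with hZ
  have hZs : Summable (fun v : G => (nm v : ℝ) ^ (-2 : ℝ)) := summable_nm (by norm_num) le_rfl
  have hlog8 : 0 ≤ Real.log 8 := Real.log_nonneg (by norm_num)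
  refine ⟨Real.log (C * (1 + Real.log 8)) + 2 * Z, fun A h habs hzero hprm hone hmul hper hmean σ
    hσ1 hσ2 => ?_⟩
  set M : ℕ := 8 * NN gN A with hM
  have hNN1 : 1 ≤ NN gN A := NN_pos A
  have hM1 : 1 ≤ M := by omega
  have hpd : ∀ B : Finset Pr, h (pd B) = ∏ p ∈ B, h p.1 := by
    intro B
    induction B using Finset.induction_on with
    | empty =>
      unfold pd
      rw [Finset.prod_empty, Finset.prod_empty, hone]
    | insert p B hp ih =>
      have h2 : pd (insert p B) = p.1 * pd B := Finset.prod_insert hp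
      rw [h2, hmul _ _ p.2.2 (prm_pd B), ih, Finset.prod_insert hp]
  -- the function on primes
  set f : Pr → ℝ := fun p => h p.1 * (gN p : ℝ) ^ (-σ) with hf
  -- summability
  have hsN := summable_nm hσ1 hσ2
  have hfabs : ∀ p, |f p| ≤ (nm p.1 : ℝ) ^ (-σ) := by
    intro p
    rw [hf]
    simp only
    rw [abs_mul, abs_of_nonneg (Real.rpow_nonneg (Nat.cast_nonneg (gN p)) _)]
    exact mul_le_of_le_one_left (Real.rpow_nonneg (Nat.cast_nonneg _) _) (habs p.1)
  have hfs : Summable (fun p => ‖f p‖) :=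
    Summable.of_nonneg_of_le (fun _ => norm_nonneg _) hfabs
      (hsN.comp_injective Subtype.val_injective)
  have hfs' : Summable f := hfs.of_norm
  have hfhalf : ∀ p, |f p| ≤ 1 / 2 := by
    intro p
    refine (hfabs p).trans ?_
    have h5 : 2 ≤ nm p.1 := nm_prime p.2.1
    have h6 := rpow_neg_le hσ1.le (n := nm p.1) (by omega)
    refine h6.trans ?_
    exact one_div_le_one_div_of_le (by norm_num) (by exact_mod_cast h5)
  have hfpos : ∀ p, 0 < 1 + f p := fun p => by
    have := (abs_le.1 (hfhalf p)).1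
    linarith
  -- the L-function
  have hLs : Summable (fun v : G => h v * (nm v : ℝ) ^ (-σ)) := by
    refine Summable.of_norm_bounded hsN fun v => ?_
    rw [Real.norm_eq_abs, abs_mul, abs_of_nonneg (Real.rpow_nonneg (Nat.cast_nonneg (nm v)) _)]
    exact mul_le_of_le_one_left (Real.rpow_nonneg (Nat.cast_nonneg _) _) (habs v)
  set L : ℝ := ∑' v : G, h v * (nm v : ℝ) ^ (-σ) with hL
  have hLle : L ≤ C * (1 + Real.log M) := by
    have hmono : Monotone (fun X : ℕ => disc (X : ℝ)) := by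
      intro X Y hXY v hv
      rw [mem_disc] at hv ⊢
      exact hv.trans (by exact_mod_cast hXY)
    have hex : ∀ v : G, ∃ X : ℕ, v ∈ disc (X : ℝ) := fun v => ⟨nm v, mem_disc.2 le_rfl⟩
    have htend := hLs.hasSum.comp (Filter.tendsto_atTop_finset_of_monotone hmono hex)
    refine le_of_tendsto htend (Filter.Eventually.of_forall fun X => ?_)
    exact (le_abs_self _).trans (hC M h hM1 habs hzero hper hmean σ hσ1.le hσ2 X)
  -- factorization
  set g₁ : Tp → ℝ := fun t => h t.1 ^ 2 * ((nm t.1 : ℝ) ^ 2) ^ (-σ) with hg₁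
  have hg₁nn : ∀ t, 0 ≤ g₁ t := fun t => by
    rw [hg₁]
    positivity
  have hg₁s : Summable g₁ := by
    refine Summable.of_nonneg_of_le hg₁nn (fun t => ?_)
      (hsN.comp_injective (i := fun t : Tp => t.1) Subtype.val_injective)
    rw [hg₁]
    simp only [Function.comp]
    have h5 : (1 : ℝ) ≤ nm t.1 := by exact_mod_cast nm_pos (prm_ne_zero t.2)
    have h6 : ((nm t.1 : ℝ) ^ 2) ^ (-σ) ≤ (nm t.1 : ℝ) ^ (-σ) :=
      Real.rpow_le_rpow_of_nonpos (by linarith) (by nlinarith) (by linarith)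
    have h7 : h t.1 ^ 2 ≤ 1 := by
      rw [← sq_abs]
      exact pow_le_one₀ (abs_nonneg _) (habs t.1)
    calc h t.1 ^ 2 * ((nm t.1 : ℝ) ^ 2) ^ (-σ) ≤ 1 * (nm t.1 : ℝ) ^ (-σ) :=
          mul_le_mul h7 h6 (by positivity) zero_le_one
      _ = _ := one_mul _
  have hprods : Summable (fun B : Finset Pr => ∏ p ∈ B, f p) :=
    summable_finsetProd_of_summable_norm hfs
  have hprods' : Summable (fun B : Finset Pr => ‖∏ p ∈ B, f p‖) := hprods.norm
  have hfac : L = (∑' t : Tp, g₁ t) * ∑' B : Finset Pr, ∏ p ∈ B, f p := by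
    rw [tsum_mul_tsum_of_summable_norm hg₁s.norm hprods']
    have e1 : L = ∑' v : Tp, h v.1 * (nm v.1 : ℝ) ^ (-σ) := by
      rw [hL]
      symm
      apply tsum_subtype_eq_of_support_subset (s := {v : G | Prm v})
        (f := fun v : G => h v * (nm v : ℝ) ^ (-σ))
      intro v hv
      by_contra hv'
      apply hv
      have : h v = 0 := hprm v hv'
      simp only [this, zero_mul]
    rw [e1, ← (facEquiv h4).tsum_eq]
    refine tsum_congr fun x => ?_
    obtain ⟨t, B⟩ := x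
    rw [facEquiv_apply]
    have h5 : h (t.1 ^ 2 * pd B) = h t.1 ^ 2 * ∏ p ∈ B, h p.1 := by
      rw [sq, hmul _ _ (prm_mul t.2 t.2) (prm_pd B), hmul _ _ t.2 t.2, hpd, sq]
    have h6 : (nm (t.1 ^ 2 * pd B) : ℝ) ^ (-σ) =
        ((nm t.1 : ℝ) ^ 2) ^ (-σ) * ∏ p ∈ B, (gN p : ℝ) ^ (-σ) := by
      have h7 : (nm (t.1 ^ 2 * pd B) : ℝ) = (nm t.1 : ℝ) ^ 2 * ∏ p ∈ B, (gN p : ℝ) := by
        rw [nm_mul, nm_pd, sq, nm_mul]
        unfold NN
        push_cast
        ring
      rw [h7, Real.mul_rpow (by positivity) (by positivity),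
        Real.finsetProd_rpow _ _ (fun _ _ => by positivity)]
    rw [h5, h6, hg₁]
    simp only [hf]
    rw [Finset.prod_mul_distrib]
    ring
  -- the product
  have hlogs : Summable (fun p => Real.log (1 + f p)) :=
    Real.summable_log_one_add_of_summable hfs'
  have hD : ∑' B : Finset Pr, ∏ p ∈ B, f p = Real.exp (∑' p, Real.log (1 + f p)) := by
    rw [Real.rexp_tsum_eq_tprod hfpos hlogs, tprod_one_add hprods]
  have hfirst : 1 ≤ ∑' t : Tp, g₁ t := by
    have h5 := hg₁s.le_tsum (⟨1, prm_one⟩ : Tp) (fun t _ => hg₁nn t)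
    refine le_trans ?_ h5
    rw [hg₁]
    simp only
    rw [hone, nm_one]
    norm_num
  have hexp : Real.exp (∑' p, Real.log (1 + f p)) ≤ C * (1 + Real.log M) := by
    refine le_trans ?_ hLle
    rw [hfac, hD]
    exact le_mul_of_one_le_left (Real.exp_pos _).le hfirst
  have hlogD : ∑' p, Real.log (1 + f p) ≤ Real.log (C * (1 + Real.log M)) := by
    rw [← Real.log_exp (∑' p, Real.log (1 + f p))]
    exact Real.log_le_log (Real.exp_pos _) hexp
  -- the logarithm
  have hsq : ∀ p, f p ^ 2 ≤ (nm p.1 : ℝ) ^ (-2 : ℝ) := by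
    intro p
    have h5 : 2 ≤ nm p.1 := nm_prime p.2.1
    have h6 := (hfabs p).trans (rpow_neg_le hσ1.le (n := nm p.1) (by omega))
    have h7 : (0 : ℝ) < nm p.1 := by
      have : 0 < nm p.1 := by omega
      exact_mod_cast this
    rw [← sq_abs]
    calc |f p| ^ 2 ≤ (1 / (nm p.1 : ℝ)) ^ 2 := pow_le_pow_left₀ (abs_nonneg _) h6 2
      _ = (nm p.1 : ℝ) ^ (-2 : ℝ) := by
          rw [Real.rpow_neg h7.le, one_div, inv_pow]
          norm_num
  have hsqs' : Summable (fun p : Pr => (nm p.1 : ℝ) ^ (-2 : ℝ)) :=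
    hZs.comp_injective (i := fun p : Pr => p.1) Subtype.val_injective
  have hsqs : Summable (fun p => f p ^ 2) :=
    Summable.of_nonneg_of_le (fun _ => sq_nonneg _) hsq hsqs'
  have hsqZ : ∑' p, f p ^ 2 ≤ Z := by
    refine (hsqs.tsum_le_tsum hsq hsqs').trans ?_
    rw [hZ]
    exact tsum_comp_le_tsum_of_inj hZs (fun v => Real.rpow_nonneg (Nat.cast_nonneg _) _)
      (i := fun p : Pr => p.1) Subtype.val_injective
  have hmain : ∑' p, f p ≤ ∑' p, Real.log (1 + f p) + 2 * ∑' p, f p ^ 2 := by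
    rw [← tsum_mul_left, ← Summable.tsum_add hlogs (hsqs.mul_left 2)]
    refine Summable.tsum_le_tsum (fun p => ?_) hfs' (hlogs.add (hsqs.mul_left 2))
    have := log_ge (x := f p) (by
      have := (abs_le.1 (hfhalf p)).1
      linarith)
    linarith
  -- conclusion
  have hNNr : (1 : ℝ) ≤ NN gN A := by exact_mod_cast hNN1
  have hlogN : 0 ≤ Real.log (NN gN A) := Real.log_nonneg hNNr
  have hfin : Real.log (C * (1 + Real.log M)) ≤
      Real.log (1 + Real.log (NN gN A)) + Real.log (C * (1 + Real.log 8)) := by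
    rw [← Real.log_mul (by positivity) (by positivity)]
    have hlM : Real.log M = Real.log 8 + Real.log (NN gN A) := by
      rw [hM]
      push_cast
      rw [Real.log_mul (by norm_num) (by positivity)]
    rw [hlM]
    refine Real.log_le_log (by positivity) ?_
    have h5 : 1 + (Real.log 8 + Real.log (NN gN A)) ≤
        (1 + Real.log (NN gN A)) * (1 + Real.log 8) := by
      nlinarith [mul_nonneg hlogN hlog8]
    calc C * (1 + (Real.log 8 + Real.log (NN gN A)))
        ≤ C * ((1 + Real.log (NN gN A)) * (1 + Real.log 8)) :=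
          mul_le_mul_of_nonneg_left h5 (by linarith)
      _ = _ := by ring
  linarith

/-! ## The functions `hg` -/

open Classical in
/-- the product of characters attached to a set of primes -/
noncomputable def hg (A : Finset Pr) (e : ℕ) (v : G) : ℝ :=
  if Prm v then (gi v : ℝ) ^ e * chi A v else 0

theorem hg_of {A : Finset Pr} {e : ℕ} {v : G} (hv : Prm v) :
    hg A e v = (gi v : ℝ) ^ e * chi A v := by
  unfold hg
  rw [if_pos hv]

theorem hg_not {A : Finset Pr} {e : ℕ} {v : G} (hv : ¬ Prm v) : hg A e v = 0 := by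
  unfold hg
  rw [if_neg hv]

theorem gi_abs (v : G) : |(gi v : ℝ)| ≤ 1 := by
  rcases gi_val1 v with h | h <;> rw [h] <;> norm_num

theorem hg_abs (A : Finset Pr) (e : ℕ) (v : G) : |hg A e v| ≤ 1 := by
  by_cases hv : Prm v
  · rw [hg_of hv, abs_mul, abs_pow]
    exact mul_le_one₀ (pow_le_one₀ (abs_nonneg _) (gi_abs v)) (abs_nonneg _) (chi_abs A v)
  · rw [hg_not hv, abs_zero]
    exact zero_le_one

theorem hg_mul (h1 : SMULT) (A : Finset Pr) (e : ℕ) {v w : G} (hv : Prm v) (hw : Prm w) :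
    hg A e (v * w) = hg A e v * hg A e w := by
  rw [hg_of hv, hg_of hw, hg_of (prm_mul hv hw), gi_mul1 hv hw, chi_mul h1, Int.cast_mul,
    mul_pow]
  ring

open Pool.Agent.Y497.PP in
theorem hg_per (h : SMULT) (A : Finset Pr) (e : ℕ) :
    ∀ v w : G, ((8 * NN gN A : ℕ) : G) ∣ v - w → hg A e v = hg A e w := by
  set M := 8 * NN gN A with hMdef
  have h8 : (8 : G) ∣ (M : G) := by
    rw [hMdef]
    push_cast
    exact dvd_mul_right _ _
  have hqA : ∀ q ∈ A, q.1 ∣ (M : G) := by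
    intro q hq
    refine (dvd_gN q).trans (cast_dvd ((dvd_NN hq).trans ?_))
    rw [hMdef]
    exact dvd_mul_left _ _
  intro v w hvw
  have hvw' : (M : G) ∣ w - v := by
    rw [← neg_sub]
    exact (dvd_neg).2 hvw
  by_cases hv : Prm v
  · obtain ⟨h1, -⟩ := h.2.2.2 v w hv (h8.trans hvw)
    have h48 : (4 : G) ∣ (8 : G) := ⟨2, by norm_num⟩
    rw [hg_of hv, hg_of h1, gi_cong ((h48.trans h8).trans hvw)]
    congr 1
    unfold chi
    exact Finset.prod_congr rfl fun q hq => by rw [h.2.1 q.1 v w ((hqA q hq).trans hvw)]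
  · rw [hg_not hv, hg_not]
    intro hw
    exact hv (h.2.2.2 w v hw (h8.trans hvw')).1

open Pool.Agent.Y497.PP in
theorem hg_neg (h : SMULT) (A : Finset Pr) (e : ℕ) {c : G} (hc : Prm c)
    (h1 : hg A e c = -1) (v : G) : hg A e (c * v) = - hg A e v := by
  by_cases hv : Prm v
  · rw [hg_mul h A e hc hv, h1, neg_one_mul]
  · rw [hg_not (fun h' => hv ((prm_mul_iff hc).1 h')), hg_not hv, neg_zero]

open Pool.Agent.Y497.PP (nat_dvd_iff gN_cast dvd_gN dvd_NN cast_dvd prm_mul_iff prm_coprime_two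
  prm_coprime_eight coprime_ne exists_nonres qs_of_dvd sum_zero prm_c NN_odd) in
theorem hg_mean (h : SMULT) (A : Finset Pr) (e : ℕ) (hAe : A.Nonempty ∨ e = 1) :
    ∑ x ∈ range (8 * NN gN A), ∑ y ∈ range (8 * NN gN A), hg A e ⟨(x : ℤ), (y : ℤ)⟩ = 0 := by
  classical
  have hper := hg_per h A e
  have hN1 : 1 ≤ NN gN A := NN_pos A
  set M := 8 * NN gN A with hMdef
  have hM : 0 < M := by omega
  have h8 : (8 : G) ∣ (M : G) := by
    rw [hMdef]
    push_cast
    exact dvd_mul_right _ _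
  have hqA : ∀ q ∈ A, q.1 ∣ (M : G) := by
    intro q hq
    refine (dvd_gN q).trans (cast_dvd ((dvd_NN hq).trans ?_))
    rw [hMdef]
    exact dvd_mul_left _ _
  by_cases hA : A.Nonempty
  · obtain ⟨q0, hq0⟩ := hA
    have hMne : (M : G) ≠ 0 := by
      intro h0
      have h1 := congrArg Zsqrtd.re h0
      simp at h1
      omega
    have hfm : FiniteMultiplicity q0.1 (M : G) :=
      FiniteMultiplicity.of_prime_left q0.2.1 hMne
    obtain ⟨K, hK, hKn⟩ := hfm.exists_eq_pow_mul_and_not_dvd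
    have hcop : IsCoprime q0.1 K := (q0.2.1.irreducible.coprime_iff_not_dvd).2 hKn
    obtain ⟨n, hn, hn1⟩ := exists_nonres q0
    obtain ⟨a, b, hab⟩ := hcop
    obtain ⟨c, hc1, hc2⟩ : ∃ c : G, q0.1 ∣ c - n ∧ K ∣ c - 1 := by
      refine ⟨a * q0.1 + b * K * n, ⟨a - a * n, ?_⟩, ⟨b * n - b, ?_⟩⟩
      · linear_combination n * hab
      · linear_combination hab
    have h8K : (8 : G) ∣ K := by
      rw [hK] at h8
      exact ((prm_coprime_eight q0.2.2).pow_left.symm).dvd_of_dvd_mul_left h8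
    have hqK : ∀ q : Pr, q ≠ q0 → q.1 ∣ (M : G) → q.1 ∣ K := by
      intro q hne hd
      rw [hK] at hd
      rcases q.2.1.dvd_or_dvd hd with h1 | h1
      · exact absurd (q.2.1.dvd_of_dvd_pow h1) (coprime_ne hne)
      · exact h1
    have hc8 : (8 : G) ∣ (1 : G) - c := by
      rw [← neg_sub]
      exact (dvd_neg).2 (h8K.trans hc2)
    obtain ⟨hcp, -⟩ := h.2.2.2 1 c prm_one hc8
    have hcs : gi c = 1 := by
      have h48 : (4 : G) ∣ (8 : G) := ⟨2, by norm_num⟩
      rw [← gi_cong (h48.trans hc8), gi_one1]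
    have hcq0 : qs q0.1 c = -1 := by rw [h.2.1 q0.1 c n hc1, hn1]
    have hcq : ∀ q : Pr, q ≠ q0 → q.1 ∣ (M : G) → qs q.1 c = 1 := fun q hne hd =>
      qs_of_dvd h ((hqK q hne hd).trans hc2)
    have hcc : IsCoprime c (M : G) := by
      rw [hK]
      refine IsCoprime.mul_right (IsCoprime.pow_right ?_) ?_
      · rw [isCoprime_comm, q0.2.1.irreducible.coprime_iff_not_dvd]
        intro h1
        apply hn
        have h2 := dvd_sub h1 hc1
        have h3 : c - (c - n) = n := by ring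
        rwa [h3] at h2
      · obtain ⟨k, hk⟩ := hc2
        exact ⟨1, -k, by linear_combination hk⟩
    refine sum_zero M hM _ c hcc hper (hg_neg h A e hcp ?_)
    rw [hg_of hcp, hcs]
    unfold chi
    rw [← Finset.mul_prod_erase A _ hq0, hcq0]
    have h1 : ∏ q ∈ A.erase q0, (qs q.1 c : ℝ) = 1 := by
      refine Finset.prod_eq_one fun q hq => ?_
      rw [Finset.mem_erase] at hq
      rw [hcq q hq.1 (hqA q hq.2)]
      norm_num
    rw [h1]
    norm_num
  · have he : e = 1 := by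
      rcases hAe with h1 | h1
      · exact absurd h1 hA
      · exact h1
    have hA0 : A = ∅ := Finset.not_nonempty_iff_eq_empty.1 hA
    have hM8 : M = 8 := by
      rw [hMdef, hA0]
      unfold NN
      rw [Finset.prod_empty, mul_one]
    have hcc : IsCoprime (⟨3, 2⟩ : G) (M : G) := by
      rw [hM8]
      exact prm_coprime_eight prm_c
    refine sum_zero M hM _ (⟨3, 2⟩ : G) hcc hper (hg_neg h A e prm_c ?_)
    rw [hg_of prm_c, hA0, he, gi_c1]
    unfold chi
    rw [Finset.prod_empty]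
    norm_num

theorem hg_one (A : Finset Pr) (e : ℕ) : hg A e 1 = 1 := by
  rw [hg_of prm_one, gi_one1, chi_one]
  norm_num

theorem hg_zero (A : Finset Pr) (e : ℕ) : hg A e 0 = 0 := hg_not fun h => prm_ne_zero h rfl

theorem t_A3g (h1 : SMULT) (h3 : SDISC) (h4 : SFAC) : A3 gN gs gz := by
  obtain ⟨C, hC⟩ := A3_gen h3 h4
  refine ⟨C, fun A e hAe _ σ hσ1 hσ2 => ?_⟩
  have h := hC A (hg A e) (hg_abs A e) (hg_zero A e) (fun v hv => hg_not hv) (hg_one A e)
    (fun v w hv hw => hg_mul h1 A e hv hw) (hg_per h1 A e) (hg_mean h1 A e hAe) σ hσ1 hσ2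
  refine le_trans (le_of_eq (tsum_congr fun p => ?_)) h
  rw [hg_of p.2.2]
  rfl

/-- the linear characters -/
noncomputable def chg (x : ZMod 2) (p : Pr) : ℝ := gz p ^ x.val

theorem lin_chg : Pool.Agent.Y690.JP.Lin chg where
  zero p := by unfold chg; rw [ZMod.val_zero, pow_zero]
  add x y p := pm_pow (gz_val p) x y
  two x := CharTwo.add_self_eq_zero x
  val x p := pm_val (gz_val p) _

theorem t_A3g' (h1 : SMULT) (h3 : SDISC) (h4 : SFAC) : Pool.Agent.Y690.JP.A3' gN gs chg := by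
  obtain ⟨C, hC⟩ := t_A3g h1 h3 h4
  refine ⟨C, fun A x hAx σ hσ1 hσ2 => ?_⟩
  have h := hC A x.val (by
    rcases hAx with h | h
    · exact Or.inl h
    · right
      revert h
      fin_cases x
      · intro h; exact absurd rfl h
      · intro _; rfl) (by have := ZMod.val_lt x; omega) σ hσ1 hσ2
  exact h

end Pool.Agent.Helper26K9.DN
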