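import Pool.Agent.Helper26K9.DN.Tr
import Pool.Agent.Y674.PP.Eul
import Pool.Agent.Y259.PP.Inv

/-!
# The supplementary law for `i`
-/

set_option autoImplicit false

open Finset

namespace Pool.Agent.Helper26K9.DN

open Pool.Agent.Y690.PP Pool.Agent.Y690.PP.Fn

/-- `(i / p) = 1` if and only if `p` is congruent to `1` modulo `4` -/
theorem qs_ii (p : Pr) : qs p.1 ii = gi p.1 := by
  classical
  have hmax : (Ideal.span {p.1} : Ideal G).IsMaximal :=
    PrincipalIdealRing.isMaximal_of_irreducible p.2.1.irreducible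
  let F := G ⧸ Ideal.span {p.1}
  let _ : Field F := Ideal.Quotient.field _
  have hfin : Finite F := Pool.Agent.Y497.PP.finite_quot p
  have _ : Fintype F := Fintype.ofFinite F
  have hcard : Fintype.card F = nm p.1 := by
    rw [← Nat.card_eq_fintype_card]
    exact Pool.Agent.Y674.PP.card_quot p.1
  have hchar : ringChar F ≠ 2 := by
    intro h
    have h1 : ((2 : ℕ) : F) = 0 := by
      rw [← h]
      exact ringChar.Nat.cast_ringChar
    have h2 : Ideal.Quotient.mk (Ideal.span {p.1}) (2 : G) = 0 := by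
      rw [map_ofNat]
      simpa using h1
    rw [Ideal.Quotient.eq_zero_iff_mem, Ideal.mem_span_singleton] at h2
    have h3 := (Pool.Agent.Y497.PP.prm_coprime_two p.2.2).isUnit_of_dvd' (dvd_refl p.1) h2
    exact p.2.1.not_isUnit h3
  have hii : ii * ii = -1 := by decide
  have hnd : ¬ p.1 ∣ ii := by
    intro h
    have : IsUnit ii := IsUnit.of_mul_eq_one (-ii) (by rw [mul_neg, hii, neg_neg])
    exact p.2.1.not_isUnit (isUnit_of_dvd_unit h this)
  set z : F := Ideal.Quotient.mk (Ideal.span {p.1}) ii with hz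
  have hz2 : z ^ 2 = -1 := by
    rw [sq, hz, ← map_mul, hii, map_neg, map_one]
  have hz0 : z ≠ 0 := by
    intro h
    rw [hz, Ideal.Quotient.eq_zero_iff_mem, Ideal.mem_span_singleton] at h
    exact hnd h
  have hneg : (-1 : F) ≠ 1 := Ring.neg_one_ne_one_of_char_ne_two hchar
  have hsq : IsSquare z ↔ z ^ (nm p.1 / 2) = 1 := by
    have := FiniteField.isSquare_iff hchar hz0
    rwa [hcard] at this
  have hqs : qs p.1 ii = if IsSquare z then 1 else -1 := by
    unfold qs
    rw [if_neg hnd]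
    have h1 : (∃ b : G, p.1 ∣ b * b - ii) ↔ IsSquare z := by
      constructor
      · rintro ⟨b, hb⟩
        refine ⟨Ideal.Quotient.mk _ b, ?_⟩
        rw [← map_mul, eq_comm, hz, Ideal.Quotient.eq, Ideal.mem_span_singleton]
        exact hb
      · rintro ⟨y, hy⟩
        obtain ⟨b, rfl⟩ := Ideal.Quotient.mk_surjective y
        refine ⟨b, ?_⟩
        rw [← map_mul, eq_comm, hz, Ideal.Quotient.eq, Ideal.mem_span_singleton] at hy
        exact hy
    by_cases h2 : IsSquare z
    · rw [if_pos (h1.mpr h2), if_pos h2]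
    · rw [if_neg (fun h => h2 (h1.mp h)), if_neg h2]
  rw [hqs]
  have hz4 : z ^ 4 = 1 := by
    have : z ^ 4 = (z ^ 2) ^ 2 := by ring
    rw [this, hz2]
    norm_num
  rcases nm_prm p.2.2 with ⟨h1, h2⟩ | ⟨h1, h2⟩
  · rw [h2, if_neg]
    rw [hsq]
    have h3 : nm p.1 / 2 = 4 * (nm p.1 / 8) + 2 := by omega
    rw [h3, pow_add, pow_mul, hz4, one_pow, one_mul, hz2]
    exact hneg
  · rw [h2, if_pos]
    rw [hsq]
    have h3 : nm p.1 / 2 = 4 * (nm p.1 / 8) := by omega
    rw [h3, pow_mul, hz4, one_pow]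

/-- the symbols of the class `D` -/
theorem qs_PA (p : Pr) (A : Finset Pr) : qs p.1 (PA A) = ∏ q ∈ A, qs q.1 p.1 := by
  unfold PA
  rw [Pool.Agent.Y674.PP.qs_prod p.2.1 p.2.2]
  exact Finset.prod_congr rfl fun q _ =>
    Pool.Agent.Y901.PP.Rec.t_REC p.1 q.1 p.2.1 p.2.2 q.2.1 q.2.2

/-- the symbols of the class `i D` -/
theorem qs_iPA (p : Pr) (A : Finset Pr) : qs p.1 (ii * PA A) = gi p.1 * ∏ q ∈ A, qs q.1 p.1 := by
  rw [Pool.Agent.Y944.PP.t_MULT.1 p.1 p.2.1 p.2.2, qs_ii, qs_PA]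

end Pool.Agent.Helper26K9.DN
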