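import Pool.Agent.Helper26K9.DN.Eul
import Pool.Agent.Helper26K9.DN.SuppI
import Pool.Agent.W287.HK.Basic
import Pool.Agent.W571.HK.Cls
import Pool.Agent.W53.HK.Fp
import Pool.Agent.W366.HK.Fpr
import Pool.Agent.W585.HK.LAT
import Pool.Agent.W692.HK.Ker
import Pool.Agent.W584.HK.CNT
import Pool.Agent.W856.HK.Dec
import Pool.Agent.W636.HK.Gauss
import Pool.Agent.W348.HK.Pois

/-!
# The nonvanishing for the good sets
-/

set_option autoImplicit false

open Finset IsDedekindDomain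

namespace Pool.Agent.Helper26K9.DN

open Pool.Agent.Y690.PP Pool.Agent.Y690.PP.Fn
open Pool.Agent.Y690.NV (ff qr)
open Pool.Agent.W192.HK (sp)

/-- one central value does not vanish -/
def GoodV (D : G) (k a b : ℕ) : Prop := ∃ L : ℂ → ℂ, IsLFunction D a b L ∧ L k ≠ 0

/-- `ℤ[i]` as a subring of `ℂ` -/
abbrev RR : Subring ℂ := GaussianInt.toComplex.range

theorem hRR : ∀ z : ℂ, z ∈ RR ↔ ∃ x y : ℤ, z = x + y * Complex.I := by
  intro z
  constructor
  · rintro ⟨w, rfl⟩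
    exact ⟨w.re, w.im, GaussianInt.toComplex_def w⟩
  · rintro ⟨x, y, rfl⟩
    exact ⟨⟨x, y⟩, GaussianInt.toComplex_def _⟩

lemma ch_phi (p : Pr) (A : Finset Pr) :
    Pool.Agent.Y690.AW.ch (A.map (em hRR)) (phi hRR p.1) = ∏ q ∈ A, qs q.1 p.1 := by
  unfold Pool.Agent.Y690.AW.ch
  rw [Finset.prod_map]
  exact Finset.prod_congr rfl fun q _ => phi_qs hRR q.1 p.1

lemma phi_cc (z : G) : ((phi hRR z : RR) : ℂ) = (z : ℂ) := rfl

/-- the class `i D` -/
theorem goodI {A : Finset Pr} (hX : XX gs gz A = 1) (k a b : ℕ) (hk : 1 ≤ k)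
    (hab : a + b = 2 * k - 1) (hc : ((a : ℤ) - b).natAbs % 4 = 1 ∨ ∏ p ∈ A, gz p = -1) :
    GoodV (ii * PA A) k a b := by
  classical
  have hbasic := Pool.Agent.W287.HK.h_basic
  have hcls := Pool.Agent.W571.HK.h_cls hbasic
  have hfp := Pool.Agent.W53.HK.h_fp hbasic hcls
  have hfpr := Pool.Agent.W366.HK.h_fpr hbasic hcls
  have hlat := Pool.Agent.W585.HK.h_lat hbasic
  have hker := Pool.Agent.W692.HK.h_ker hbasic hcls hfpr
  have hcnt := Pool.Agent.W584.HK.h_cnt hbasic hcls hfpr hlat hker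
  have hdec := Pool.Agent.W856.HK.h_dec hbasic
  have hgauss := Pool.Agent.W636.HK.h_gauss hbasic hfp
  have hpois := Pool.Agent.W348.HK.h_pois hbasic
  have htheta := Pool.Agent.TH936.HK.h_theta hbasic hfp hdec hgauss hpois hcnt
  have hafe := Pool.Agent.TH936.HK.h_afe hbasic hfp hcnt hgauss htheta
  set S := A.map (em hRR) with hS
  have hadm : Pool.Agent.Helper26K9.XI.AdmI S := admI_of_XX hRR hbasic hX
  have hHC := Pool.Agent.Helper26K9.XI.hc_tI hRR hbasic 1 S hadm.1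
    (Pool.Agent.Y690.AW.dst_of hRR hadm.1)
  have hbot : Pool.Agent.Helper26K9.XI.tI hRR 1 S ⊥ = 0 := (hHC.zero ⊥).2 (Or.inl rfl)
  have htop : Pool.Agent.Helper26K9.XI.tI hRR 1 S ⊤ = 1 := by
    have h3 := hHC.princ 1 one_ne_zero (by
      rw [sub_self]; exact (sp _).zero_mem)
    rwa [sp, Ideal.span_singleton_one, Subring.coe_one, one_pow] at h3
  have hCI : Pool.Agent.Helper26K9.XI.CI S a b := by
    rcases hc with h | h
    · exact Or.inl h
    · exact Or.inr (zn_of hRR hbasic h)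
  refine isL_of hRR hbasic (Pool.Agent.Helper26K9.XI.tI hRR 1 S) _ hbot htop hHC.mul
    (fun p => ?_) (fun J hJ => Pool.Agent.Helper26K9.XI.tI_zero hRR S 1 hJ) k a b hk hab
    (Pool.Agent.Helper26K9.XI.singleI hRR hbasic hfp hcnt hdec hafe hadm k a b hab hk hCI)
  have hpri : phi hRR p.1 - 1 ∈ sp (ff hRR) := by
    rw [Pool.Agent.Y690.AW.pri_iff hRR, phi_pri]
    exact p.2.2
  have h := Pool.Agent.Helper26K9.XI.tI_gen hRR 1 S hpri
  rw [pow_one] at h
  refine h.trans ?_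
  rw [qs_iPA, ← ch_phi p A, phi_cc]
  unfold Pool.Agent.Helper26K9.XI.kI
  rw [phi_sI hRR hbasic p.2.2, Int.cast_mul]

/-- the class `D` -/
theorem goodD {A : Finset Pr} (hX : XX gs (fun _ => (1 : ℝ)) A = 2) (hch : ∏ p ∈ A, gz p = -1)
    (k a b : ℕ) (hk : 1 ≤ k) (hab : a + b = 2 * k - 1) : GoodV (PA A) k a b := by
  classical
  have hbasic := Pool.Agent.W287.HK.h_basic
  have hcls := Pool.Agent.W571.HK.h_cls hbasic
  have hfp := Pool.Agent.W53.HK.h_fp hbasic hcls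
  have hfpr := Pool.Agent.W366.HK.h_fpr hbasic hcls
  have hlat := Pool.Agent.W585.HK.h_lat hbasic
  have hker := Pool.Agent.W692.HK.h_ker hbasic hcls hfpr
  have hcnt := Pool.Agent.W584.HK.h_cnt hbasic hcls hfpr hlat hker
  have hdec := Pool.Agent.W856.HK.h_dec hbasic
  have hgauss := Pool.Agent.W636.HK.h_gauss hbasic hfp
  have hpois := Pool.Agent.W348.HK.h_pois hbasic
  have htheta := Pool.Agent.TH936.HK.h_theta hbasic hfp hdec hgauss hpois hcnt
  have hafe := Pool.Agent.TH936.HK.h_afe hbasic hfp hcnt hgauss htheta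
  set S := A.map (em hRR) with hS
  have hadm : Pool.Agent.Helper26K9.XO.Adm0 S := adm0_of_XX hRR hbasic hX hch
  have hHC := (Pool.Agent.Helper26K9.XO.tw0_main hRR hbasic hfp hcnt hdec hafe hadm
      (Pool.Agent.Y690.AW.dst_of hRR hadm.1) 0).1
  have hbot : Pool.Agent.Helper26K9.XO.tw0 hRR 1 S ⊥ = 0 := (hHC.zero ⊥).2 (Or.inl rfl)
  have htop : Pool.Agent.Helper26K9.XO.tw0 hRR 1 S ⊤ = 1 := by
    have h3 := hHC.princ 1 one_ne_zero (by
      rw [sub_self]; exact (sp _).zero_mem)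
    rwa [sp, Ideal.span_singleton_one, Subring.coe_one, one_pow] at h3
  refine isL_of hRR hbasic (Pool.Agent.Helper26K9.XO.tw0 hRR 1 S) _ hbot htop hHC.mul
    (fun p => ?_) (fun J hJ => Pool.Agent.Helper26K9.XO.tw0_zero hRR S 1 hJ) k a b hk hab
    (Pool.Agent.Helper26K9.XO.single0 hRR hbasic hfp hcnt hdec hafe hadm k a b hab hk)
  have hpri : phi hRR p.1 - 1 ∈ sp (ff hRR) := by
    rw [Pool.Agent.Y690.AW.pri_iff hRR, phi_pri]
    exact p.2.2
  have h := Pool.Agent.Helper26K9.XO.tw0_gen hRR 1 S hpri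
  rw [pow_one] at h
  refine h.trans ?_
  rw [qs_PA, ← ch_phi p A, phi_cc]

end Pool.Agent.Helper26K9.DN
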