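import Pool.Agent.Helper26K9.DN.Mom
import Pool.Agent.Helper26K9.DN.Glue0
import Pool.Agent.Helper26K9.DN.CombD
import Pool.Agent.Y690.JP.Mo
import Pool.Agent.Y258.JP.ABSa
import Pool.Agent.Y232.JP.Mom

/-!
# The density for the class `D`
-/

set_option autoImplicit false

open Finset Filter

namespace Pool.Agent.Helper26K9.DN

open Pool.Agent.Y690.PP hiding wt SABSa SABSc Gd ML sum_ML ML_est glue wt_abs SCOMB wt_fam sum_lab
open Pool.Agent.Y690.JP (Lin A3' wt SABSa wt_abs Gd ML sum_ML sum_lab SMOMW)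

/-- the sign of a set -/
noncomputable def ch (S : Finset Pr) : ℝ := ∏ p ∈ S, gz p

theorem ch_val (S : Finset Pr) : ch S = 1 ∨ ch S = -1 := pm_prod S _ fun p _ => gz_val p

/-- the mean values of the sign -/
theorem hs_of (h : SASYM) : HS gN chg := by
  obtain ⟨C, hC⟩ := h
  intro x0 hx0
  have hx1 : x0 = 1 := by
    revert hx0
    fin_cases x0
    · intro h; exact absurd rfl h
    · intro _; rfl
  subst hx1
  refine ⟨|C| * 4, 1, one_pos, fun x hx => ?_⟩
  have h1 := (hC x (by linarith)).1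
  have e1 : ∀ A : Finset Pr, ∏ p ∈ A, chg 1 p = ∏ p ∈ A, gz p := by
    intro A
    refine Finset.prod_congr rfl fun p _ => ?_
    unfold chg
    have : (1 : ZMod 2).val = 1 := rfl
    rw [this, pow_one]
  simp only [e1]
  have hx0 : 0 < x := by linarith
  have hl : 0 < Real.log x := Real.log_pos (by linarith)
  have h2 : Real.log x ≤ x ^ (1 / 4 : ℝ) / (1 / 4) := Real.log_le_rpow_div hx0.le (by norm_num)
  have h3 : x = x ^ (3 / 4 : ℝ) * x ^ (1 / 4 : ℝ) := by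
    rw [← Real.rpow_add hx0]
    norm_num
  have h4 : 0 < x ^ (3 / 4 : ℝ) := Real.rpow_pos_of_pos hx0 _
  have h5 : x ^ (3 / 4 : ℝ) ≤ 4 * x * Real.log x ^ (-1 : ℝ) := by
    rw [Real.rpow_neg_one, ← div_eq_mul_inv, le_div_iff₀ hl]
    calc x ^ (3 / 4 : ℝ) * Real.log x ≤ x ^ (3 / 4 : ℝ) * (x ^ (1 / 4 : ℝ) / (1 / 4)) :=
          mul_le_mul_of_nonneg_left h2 h4.le
      _ = 4 * (x ^ (3 / 4 : ℝ) * x ^ (1 / 4 : ℝ)) := by ring
      _ = 4 * x := by rw [← h3]
  calc |∑ A ∈ FF gN x, ∏ p ∈ A, gz p| ≤ C * x ^ (3 / 4 : ℝ) := h1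
    _ ≤ |C| * x ^ (3 / 4 : ℝ) := mul_le_mul_of_nonneg_right (le_abs_self C) h4.le
    _ ≤ |C| * (4 * x * Real.log x ^ (-1 : ℝ)) := mul_le_mul_of_nonneg_left h5 (abs_nonneg C)
    _ = _ := by ring

section
variable (hs : SASYM)
include hs

open Classical in
/-- the estimates for a constant character -/
theorem all_tendsto (k : ℕ) (τ : Ix k → ZMod 2) :
    Tendsto (fun x : ℝ => (∑ A ∈ TT (Ix k) gN x, wt gs chg ((1 / 2 : ℝ) ^ k) ee τ A) /
      #(FF gN x)) atTop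
      (nhds (#((univ : Finset (Finset (Ix k))).filter fun Λ => Gd ee τ (2 ^ k) Λ) : ℝ)) := by
  have hrec := Pool.Agent.Y901.PP.Rec.t_REC
  have hmult := Pool.Agent.Y944.PP.t_MULT
  have hann := Pool.Agent.Y808.PP.t_ANN
  have hdisc := Pool.Agent.Y808.PP.t_DISC
  have hfac := Pool.Agent.Y427.PP.t_FAC
  have hmean := Pool.Agent.Y497.PP.t_MEAN hmult
  have h1 := Pool.Agent.Y658.PP.t_A1
  have h2 := Pool.Agent.Y363.PP.t_A2 hfac
  have h5 := Pool.Agent.Y954.PP.t_A5 hfac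
  have h3 := t_A3g' hmult hdisc hfac
  have hbox1 := Pool.Agent.Y678.PP.t_BOX1 hmult hmean hdisc hfac
  have hbox := Pool.Agent.Y692.PP.t_BOX hmult hfac hbox1
  have h4 := Pool.Agent.Y678.PP.t_A4 hrec hann hfac hbox
  have hb := basic_one hrec
  have hHR := Pool.Agent.Y665.PP.t_HR gN gs _ hb h1
  have hw0 : (0 : ℝ) < (1 / 2 : ℝ) ^ k := by positivity
  have hw1 : (1 / 2 : ℝ) ^ k ≤ 1 := pow_le_one₀ (by norm_num) (by norm_num)
  obtain ⟨c1, c2, -⟩ := Pool.Agent.Y405.PP.t_COMB k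
  refine glue0 hb lin_chg hw0.le (n := 2 ^ k) (by push_cast; rw [← mul_pow]; norm_num)
    (Pool.Agent.Y258.JP.t_ABSa gN gs chg (Ix k) ((1 / 2 : ℝ) ^ k) ee τ hb lin_chg h2 h4 hw0.le hw1
      ee_self)
    (Pool.Agent.Y804.PP.t_ABSb gN gs (fun _ => 1) (Ix k) _ hb h2 hHR hw0.le hw1)
    (t_ABSc0 hb lin_chg h2 h3 hHR (hs_of hs) _ hw0 hw1 ee ee_self τ) h5
    (fun Λ hΛ => c1 Λ fun u hu v hv => (even_ee u v).mp (hΛ u hu v hv))
    (fun Λ hΛ hn => ?_)
  have hΛ' : ∀ u ∈ Λ, ∀ v ∈ Λ, QQ (u + v) = 0 := fun u hu v hv => (even_ee u v).mp (hΛ u hu v hv)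
  obtain ⟨d1, -⟩ := c2 Λ hΛ' hn
  intro v hv
  obtain ⟨⟨u, hu, hu'⟩, ⟨u1, hu1, hu1'⟩⟩ := d1 v hv
  exact ⟨⟨u, hu, (even_ee u v).mpr hu'⟩, ⟨u1, hu1, (odd_ee u1 v).mpr hu1'⟩⟩

/-- the moments of the size of the kernel of the Laplacian -/
theorem mom0 (k : ℕ) :
    Tendsto (fun x : ℝ => (∑ S ∈ FF gN x, (XX gs (fun _ => 1) S : ℝ) ^ k) / #(FF gN x)) atTop
      (nhds ((2 : ℝ) ^ k * ∏ i ∈ range k, ((2 : ℝ) ^ i + 1))) := by
  classical
  have hb := basic_one Pool.Agent.Y901.PP.Rec.t_REC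
  have h := all_tendsto hs k (fun _ => 0)
  have hcard : (#((univ : Finset (Finset (Ix k))).filter fun Λ => Gd ee (fun _ => (0 : ZMod 2))
      (2 ^ k) Λ) : ℝ) = (2 : ℝ) ^ k * ∏ i ∈ range k, ((2 : ℝ) ^ i + 1) := by
    have h2 := card_all k
    have h3 : ((2 ^ k * ∏ i ∈ range k, (2 ^ i + 1) : ℕ) : ℝ) =
        (2 : ℝ) ^ k * ∏ i ∈ range k, ((2 : ℝ) ^ i + 1) := by
      push_cast
      rfl
    rw [← h3, ← h2]
    congr 1
    refine congrArg Finset.card (Finset.filter_congr fun Λ _ => ?_)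
    unfold Gd
    constructor
    · exact fun h => ⟨fun u hu v hv => (even_ee u v).mp (h.1 u hu v hv), h.2.1⟩
    · exact fun h => ⟨fun u hu v hv => (even_ee u v).mpr (h.1 u hu v hv), h.2, fun _ _ => rfl⟩
  rw [hcard] at h
  refine h.congr fun x => ?_
  congr 1
  rw [← sum_lab hb]
  refine Finset.sum_congr rfl fun S _ => ?_
  rw [XX_pow_exp hb]
  refine Finset.sum_congr rfl fun l _ => Finset.prod_congr rfl fun p _ => ?_
  rw [lin_chg.zero, one_pow]

/-- the weighted moments -/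
theorem mom1 (k : ℕ) :
    Tendsto (fun x : ℝ => (∑ S ∈ FF gN x, ch S * (XX gs (fun _ => 1) S : ℝ) ^ k) / #(FF gN x))
      atTop (nhds 0) := by
  classical
  have hb := basic_one Pool.Agent.Y901.PP.Rec.t_REC
  have h := all_tendsto hs k (fun _ => 1)
  have hcard : (#((univ : Finset (Finset (Ix k))).filter fun Λ => Gd ee (fun _ => (1 : ZMod 2))
      (2 ^ k) Λ) : ℝ) = 0 := by
    rw [Nat.cast_eq_zero, Finset.card_eq_zero, Finset.filter_eq_empty_iff]
    intro Λ _ hG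
    obtain ⟨-, h2, h3⟩ := hG
    have h4 : Λ.Nonempty := by
      rw [← Finset.card_pos, h2]
      positivity
    obtain ⟨u, hu⟩ := h4
    exact absurd (show (1 : ZMod 2) = 0 from h3 u hu) (by decide)
  rw [hcard] at h
  refine h.congr fun x => ?_
  congr 1
  rw [← sum_lab hb]
  refine Finset.sum_congr rfl fun S _ => ?_
  rw [XX_pow_exp hb, Finset.mul_sum]
  refine Finset.sum_congr rfl fun l _ => ?_
  have e1 : ch S = ∏ p : S, gz p := by
    unfold ch
    rw [Finset.prod_coe_sort S (fun p => gz p)]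
  rw [e1, ← Finset.prod_mul_distrib]
  refine Finset.prod_congr rfl fun p _ => ?_
  have e2 : chg 1 p = gz p := by
    unfold chg
    have : (1 : ZMod 2).val = 1 := rfl
    rw [this, pow_one]
  rw [e2, one_pow]
  ring

/-- half of the size of the kernel of the Laplacian (`1` for the empty set) -/
noncomputable def YY (S : Finset Pr) : ℕ :=
  if XX gs (fun _ => (1 : ℝ)) S = 1 then 1 else XX gs (fun _ => (1 : ℝ)) S / 2

omit hs in
/-- the all-one vector is in the kernel -/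
theorem XX_one_ne {S : Finset Pr} (hS : S.Nonempty) : XX gs (fun _ => (1 : ℝ)) S ≠ 1 := by
  classical
  intro h1
  have h0 : (0 : S → ZMod 2) ∈ Kn gs (fun _ => (1 : ℝ)) S := by
    unfold Kn
    rw [mem_filter]
    refine ⟨mem_univ _, fun p => ?_⟩
    unfold cc
    simp
  have h2 : (1 : S → ZMod 2) ∈ Kn gs (fun _ => (1 : ℝ)) S := by
    unfold Kn
    rw [mem_filter]
    refine ⟨mem_univ _, fun p => ?_⟩
    unfold cc
    rw [one_pow, one_mul]
    refine Finset.prod_eq_one fun q _ => ?_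
    have : ((1 : S → ZMod 2) q + (1 : S → ZMod 2) p) = 0 := by
      show (1 : ZMod 2) + 1 = 0
      decide
    rw [this, ZMod.val_zero, pow_zero]
  unfold XX at h1
  obtain ⟨μ, hμ⟩ := Finset.card_eq_one.mp h1
  rw [hμ, mem_singleton] at h0 h2
  obtain ⟨p, hp⟩ := hS
  have h3 := congrFun (h0.trans h2.symm) ⟨p, hp⟩
  exact absurd (show (0 : ZMod 2) = 1 from h3) (by decide)

omit hs in
theorem XX_empty : XX gs (fun _ => (1 : ℝ)) ∅ = 1 := by
  classical
  obtain ⟨j, hj⟩ := XX_pow (basic_one Pool.Agent.Y901.PP.Rec.t_REC) ∅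
  have h1 : XX gs (fun _ => (1 : ℝ)) ∅ ≤ 1 := by
    unfold XX
    refine (Finset.card_le_univ _).trans ?_
    rw [Fintype.card_fun]
    simp
  have h2 : 1 ≤ XX gs (fun _ => (1 : ℝ)) ∅ := by
    rw [hj]
    exact Nat.one_le_two_pow
  omega

omit hs in
theorem YY_spec {S : Finset Pr} (hS : S.Nonempty) :
    (XX gs (fun _ => (1 : ℝ)) S : ℝ) = 2 * YY S ∧ ∃ j, YY S = 2 ^ j := by
  obtain ⟨j, hj⟩ := XX_pow (basic_one Pool.Agent.Y901.PP.Rec.t_REC) S
  have h1 := XX_one_ne hS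
  unfold YY
  rw [if_neg h1]
  rcases j with _ | j
  · exact absurd hj h1
  · rw [hj, pow_succ, Nat.mul_div_cancel _ (by norm_num)]
    push_cast
    exact ⟨by ring, j, rfl⟩

omit hs in
theorem YY_pow (S : Finset Pr) : ∃ j, YY S = 2 ^ j := by
  rcases S.eq_empty_or_nonempty with rfl | h
  · refine ⟨0, ?_⟩
    unfold YY
    rw [if_pos XX_empty, pow_zero]
  · exact (YY_spec h).2

omit hs in
theorem YY_empty : YY ∅ = 1 := by
  unfold YY
  rw [if_pos XX_empty]

omit hs in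
theorem ch_empty : ch ∅ = 1 := by
  unfold ch
  rw [Finset.prod_empty]

omit hs in
/-- the sums for `YY` and for `XX` -/
theorem sum_YY (v : Finset Pr → ℝ) (k : ℕ) {x : ℝ} (hx : 1 ≤ x) :
    ∑ S ∈ FF gN x, v S * (YY S : ℝ) ^ k =
      (∑ S ∈ FF gN x, v S * (XX gs (fun _ => (1 : ℝ)) S : ℝ) ^ k) / 2 ^ k +
        v ∅ * (1 - (1 / 2 : ℝ) ^ k) := by
  classical
  have hb := basic_one Pool.Agent.Y901.PP.Rec.t_REC
  have hmem : (∅ : Finset Pr) ∈ FF gN x := by
    rw [mem_FF hb]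
    unfold NN
    rw [Finset.prod_empty]
    push_cast
    exact hx
  rw [← Finset.add_sum_erase _ _ hmem, ← Finset.add_sum_erase _ _ hmem, YY_empty, XX_empty,
    add_div, Finset.sum_div]
  have h1 : ∑ S ∈ (FF gN x).erase ∅, v S * (XX gs (fun _ => (1 : ℝ)) S : ℝ) ^ k / 2 ^ k =
      ∑ S ∈ (FF gN x).erase ∅, v S * (YY S : ℝ) ^ k := by
    refine Finset.sum_congr rfl fun S hS => ?_
    have h2 : S.Nonempty := Finset.nonempty_iff_ne_empty.mpr (Finset.mem_erase.mp hS).1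
    rw [(YY_spec h2).1, mul_pow]
    field_simp
  rw [h1]
  push_cast
  rw [one_pow, mul_one, one_div, inv_pow]
  ring

theorem card_tendsto : Tendsto (fun x : ℝ => (#(FF gN x) : ℝ)) atTop atTop := by
  obtain ⟨c, hc, h⟩ := Pool.Agent.Y954.PP.t_A5 Pool.Agent.Y427.PP.t_FAC
  refine tendsto_atTop_mono' _ ((eventually_ge_atTop 1).mono fun x hx => h x hx) ?_
  exact tendsto_id.const_mul_atTop hc

/-- the moments with the weight -/
theorem momW (k : ℕ) :
    Tendsto (fun x : ℝ => (∑ S ∈ FF gN x, ((1 - ch S) / 2) * (YY S : ℝ) ^ k) / #(FF gN x)) atTop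
      (nhds (1 / 2 * ∏ i ∈ range k, ((2 : ℝ) ^ i + 1))) := by
  have h0 := (mom0 hs k).const_mul ((1 / 2 : ℝ) * (1 / 2 ^ k))
  have h1 := (mom1 hs k).const_mul ((1 / 2 : ℝ) * (1 / 2 ^ k))
  have h2 := h0.sub h1
  have e : (1 / 2 : ℝ) * (1 / 2 ^ k) * ((2 : ℝ) ^ k * ∏ i ∈ range k, ((2 : ℝ) ^ i + 1)) -
      (1 / 2 : ℝ) * (1 / 2 ^ k) * 0 = 1 / 2 * ∏ i ∈ range k, ((2 : ℝ) ^ i + 1) := by
    have : (2 : ℝ) ^ k ≠ 0 := by positivity
    field_simp
    ring
  rw [e] at h2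
  refine h2.congr' ?_
  filter_upwards [eventually_ge_atTop 1] with x hx
  rw [sum_YY (fun S => (1 - ch S) / 2) k hx, ch_empty, sub_self, zero_div, zero_mul, add_zero]
  have e1 : ∑ S ∈ FF gN x, (1 - ch S) / 2 * (XX gs (fun _ => (1 : ℝ)) S : ℝ) ^ k =
      (1 / 2) * ∑ S ∈ FF gN x, (XX gs (fun _ => (1 : ℝ)) S : ℝ) ^ k -
        (1 / 2) * ∑ S ∈ FF gN x, ch S * (XX gs (fun _ => (1 : ℝ)) S : ℝ) ^ k := by
    rw [Finset.mul_sum, Finset.mul_sum, ← Finset.sum_sub_distrib]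
    refine Finset.sum_congr rfl fun S _ => ?_
    ring
  rw [e1]
  ring

open Classical in
/-- The sets of primes with minimal kernel of the Laplacian and sign `-1` have density `al / 2`. -/
theorem density_D :
    Tendsto (fun n : ℕ => (#((FF gN (n + 1 : ℝ)).filter fun S =>
      XX gs (fun _ => (1 : ℝ)) S = 2 ∧ ch S = -1) : ℝ) / #(FF gN (n + 1 : ℝ))) atTop
      (nhds (1 / 2 * al)) := by
  have hb := basic_one Pool.Agent.Y901.PP.Rec.t_REC
  have h := Pool.Agent.Y232.JP.t_MOMW (fun _ => Finset Pr) (fun n => FF gN (n + 1 : ℝ))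
    (fun _ S => YY S) (fun _ S => (1 - ch S) / 2) (1 / 2) ?_ ?_ ?_ ?_
  · refine h.congr fun n => ?_
    congr 1
    rw [Finset.card_filter]
    push_cast
    refine Finset.sum_congr rfl fun S _ => ?_
    rcases S.eq_empty_or_nonempty with rfl | hS
    · rw [if_pos YY_empty, ch_empty, if_neg]
      · norm_num
      · rintro ⟨-, h⟩
        norm_num at h
    · obtain ⟨h1, -⟩ := YY_spec hS
      by_cases h2 : YY S = 1
      · rw [if_pos h2]
        have h3 : XX gs (fun _ => (1 : ℝ)) S = 2 := by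
          rw [h2, Nat.cast_one, mul_one] at h1
          exact_mod_cast h1
        rcases ch_val S with h4 | h4
        · rw [h4, if_neg]
          · norm_num
          · rintro ⟨-, h⟩
            norm_num at h
        · rw [h4, if_pos ⟨h3, rfl⟩]
          norm_num
      · rw [if_neg h2, if_neg]
        rintro ⟨h3, -⟩
        apply h2
        rw [h3] at h1
        have : (YY S : ℝ) = 1 := by
          push_cast at h1
          linarith
        exact_mod_cast this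
  · intro n
    refine ⟨∅, (mem_FF hb).mpr ?_⟩
    unfold NN
    rw [Finset.prod_empty]
    push_cast
    have : (0 : ℝ) ≤ n := Nat.cast_nonneg n
    linarith
  · intro n S
    rcases ch_val S with h | h <;> rw [h] <;> norm_num
  · intro n S _
    exact YY_pow S
  · intro k
    exact (momW hs k).comp (tendsto_atTop_add_const_right _ 1 tendsto_natCast_atTop_atTop)

end

end Pool.Agent.Helper26K9.DN
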