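import Pool.Agent.Helper26K9.DN.MomD

/-!
# The density for the class `i D` with the sign
-/

set_option autoImplicit false

open Finset Filter

namespace Pool.Agent.Helper26K9.DN

open Pool.Agent.Y690.PP hiding wt SABSa SABSc Gd ML sum_ML ML_est glue wt_abs SCOMB wt_fam sum_lab
open Pool.Agent.Y690.JP (Lin A3' wt SABSa wt_abs Gd ML sum_ML sum_lab SMOMW)

lemma gz_tu {k : ℕ} (u : Ix k) (p : Pr) : gz p ^ tu u = chg (QQ u) p := by
  unfold chg
  rw [← tu_cast, ZMod.val_natCast]
  have h2 : gz p ^ 2 = 1 := by rcases gz_val p with h | h <;> rw [h] <;> norm_num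
  conv_lhs => rw [← Nat.mod_add_div (tu u) 2, pow_add, pow_mul, h2, one_pow, mul_one]

section
variable (hs : SASYM)
include hs

/-- the moments -/
theorem momI0 (k : ℕ) :
    Tendsto (fun x : ℝ => (∑ S ∈ FF gN x, (XX gs gz S : ℝ) ^ k) / #(FF gN x)) atTop
      (nhds (∏ i ∈ range k, ((2 : ℝ) ^ i + 1))) := by
  classical
  have hb := basic_one Pool.Agent.Y901.PP.Rec.t_REC
  have hbz := basic_gz Pool.Agent.Y901.PP.Rec.t_REC
  have h := all_tendsto hs k (fun u => QQ u)
  have hcard : (#((univ : Finset (Finset (Ix k))).filter fun Λ => Gd ee (fun u => QQ u)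
      (2 ^ k) Λ) : ℝ) = ∏ i ∈ range k, ((2 : ℝ) ^ i + 1) := by
    obtain ⟨-, -, c3⟩ := Pool.Agent.Y405.PP.t_COMB k
    have h3 : ((∏ i ∈ range k, (2 ^ i + 1) : ℕ) : ℝ) = ∏ i ∈ range k, ((2 : ℝ) ^ i + 1) := by
      push_cast
      rfl
    rw [← h3, ← c3]
    congr 1
    refine congrArg Finset.card (Finset.filter_congr fun Λ _ => ?_)
    unfold Gd
    constructor
    · exact fun h => ⟨fun u hu v hv => (even_ee u v).mp (h.1 u hu v hv), h.2.1, h.2.2⟩
    · exact fun h => ⟨fun u hu v hv => (even_ee u v).mpr (h.1 u hu v hv), h.2.1, h.2.2⟩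
  rw [hcard] at h
  refine h.congr fun x => ?_
  congr 1
  rw [← sum_lab hb]
  refine Finset.sum_congr rfl fun S _ => ?_
  rw [XX_pow_exp hbz]
  refine Finset.sum_congr rfl fun l _ => Finset.prod_congr rfl fun p _ => ?_
  rw [gz_tu]

/-- the weighted moments -/
theorem momI1 (k : ℕ) :
    Tendsto (fun x : ℝ => (∑ S ∈ FF gN x, ch S * (XX gs gz S : ℝ) ^ k) / #(FF gN x))
      atTop (nhds 0) := by
  classical
  have hb := basic_one Pool.Agent.Y901.PP.Rec.t_REC
  have hbz := basic_gz Pool.Agent.Y901.PP.Rec.t_REC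
  have h := all_tendsto hs k (fun u => 1 + QQ u)
  have hcard : (#((univ : Finset (Finset (Ix k))).filter fun Λ => Gd ee
      (fun u => (1 : ZMod 2) + QQ u) (2 ^ k) Λ) : ℝ) = 0 := by
    rw [Nat.cast_eq_zero, Finset.card_eq_zero, Finset.filter_eq_empty_iff]
    intro Λ _ hG
    obtain ⟨h1, h2, h3⟩ := hG
    have h4 : Λ.Nonempty := by
      rw [← Finset.card_pos, h2]
      positivity
    obtain ⟨-, c2, -⟩ := Pool.Agent.Y405.PP.t_COMB k
    have key : ∀ a : ZMod 2, 1 + a = 0 → a = 1 := by decide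
    obtain ⟨u, hu⟩ := h4
    obtain ⟨u', hu', h5⟩ := (c2 Λ (fun u hu v hv => (even_ee u v).mp (h1 u hu v hv)) h2).2
      ⟨u, hu, key _ (h3 u hu)⟩
    have h6 := key _ (h3 u' hu')
    rw [h5] at h6
    exact absurd h6 (by decide)
  rw [hcard] at h
  refine h.congr fun x => ?_
  congr 1
  rw [← sum_lab hb]
  refine Finset.sum_congr rfl fun S _ => ?_
  rw [XX_pow_exp hbz, Finset.mul_sum]
  refine Finset.sum_congr rfl fun l _ => ?_
  have e1 : ch S = ∏ p : S, gz p := by
    unfold ch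
    rw [Finset.prod_coe_sort S (fun p => gz p)]
  rw [e1, ← Finset.prod_mul_distrib]
  refine Finset.prod_congr rfl fun p _ => ?_
  have e2 : chg (1 + QQ (l p)) p = gz p * gz p ^ tu (l p) := by
    rw [lin_chg.add, gz_tu]
    congr 1
    unfold chg
    have : (1 : ZMod 2).val = 1 := rfl
    rw [this, pow_one]
  rw [e2]
  ring

open Classical in
/-- The sets of primes with trivial kernel for the sign `gz` and with sign `-1` have density
`al / 2`. -/
theorem density_I1 :
    Tendsto (fun n : ℕ => (#((FF gN (n + 1 : ℝ)).filter fun S =>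
      XX gs gz S = 1 ∧ ch S = -1) : ℝ) / #(FF gN (n + 1 : ℝ))) atTop
      (nhds (1 / 2 * al)) := by
  have hb := basic_gz Pool.Agent.Y901.PP.Rec.t_REC
  have h := Pool.Agent.Y232.JP.t_MOMW (fun _ => Finset Pr) (fun n => FF gN (n + 1 : ℝ))
    (fun _ S => XX gs gz S) (fun _ S => (1 - ch S) / 2) (1 / 2) ?_ ?_ ?_ ?_
  · refine h.congr fun n => ?_
    congr 1
    rw [Finset.card_filter]
    push_cast
    refine Finset.sum_congr rfl fun S _ => ?_
    by_cases h2 : XX gs gz S = 1
    · rw [if_pos h2]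
      rcases ch_val S with h4 | h4
      · rw [h4, if_neg]
        · norm_num
        · rintro ⟨-, h⟩
          norm_num at h
      · rw [h4, if_pos ⟨h2, rfl⟩]
        norm_num
    · rw [if_neg h2, if_neg]
      rintro ⟨h3, -⟩
      exact h2 h3
  · intro n
    refine ⟨∅, (mem_FF hb).mpr ?_⟩
    unfold NN
    rw [Finset.prod_empty]
    push_cast
    have : (0 : ℝ) ≤ n := Nat.cast_nonneg n
    linarith
  · intro n S
    rcases ch_val S with h | h <;> rw [h] <;> norm_num
  · intro n S _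
    exact XX_pow hb S
  · intro k
    have h0 := (momI0 hs k).const_mul (1 / 2 : ℝ)
    have h1 := (momI1 hs k).const_mul (1 / 2 : ℝ)
    have h2 := h0.sub h1
    rw [mul_zero, sub_zero] at h2
    refine (h2.comp (tendsto_atTop_add_const_right _ 1 tendsto_natCast_atTop_atTop)).congr
      fun n => ?_
    simp only [Function.comp_apply]
    have e1 : ∑ S ∈ FF gN ((n : ℝ) + 1), (1 - ch S) / 2 * (XX gs gz S : ℝ) ^ k =
        (1 / 2) * ∑ S ∈ FF gN ((n : ℝ) + 1), (XX gs gz S : ℝ) ^ k -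
          (1 / 2) * ∑ S ∈ FF gN ((n : ℝ) + 1), ch S * (XX gs gz S : ℝ) ^ k := by
      rw [Finset.mul_sum, Finset.mul_sum, ← Finset.sum_sub_distrib]
      refine Finset.sum_congr rfl fun S _ => ?_
      ring
    rw [e1]
    ring

end

end Pool.Agent.Helper26K9.DN
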