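import Pool.Agent.Helper26K9.DN.Cnt
import Pool.Agent.Helper26K9.DN.Asym
import Pool.Agent.Helper26K9.DN.Dsc
import Pool.Agent.Helper26K9.DN.MomD
import Pool.Agent.Helper26K9.DN.MomI
import Pool.Agent.Y690.PP.Last

/-!
# The last step: the density among all squarefree twists
-/

set_option autoImplicit false

open Finset Filter

namespace Pool.Agent.Helper26K9.DN

open Pool.Agent.Y690.PP Pool.Agent.Y690.PP.Fn

theorem F_pos {x : ℝ} (hx : 1 ≤ x) : (0 : ℝ) < #(FF gN x) := by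
  have hb := basic_gs Pool.Agent.Y901.PP.Rec.t_REC
  have : (∅ : Finset Pr) ∈ FF gN x := by
    rw [Pool.Agent.Y690.PP.mem_FF hb]
    unfold NN
    rw [Finset.prod_empty]
    push_cast
    exact hx
  exact_mod_cast Finset.card_pos.mpr ⟨_, this⟩

open Classical in
/-- from the limit along the integers to all large `x` -/
theorem low_of_tendsto (T : Finset Pr → Prop) (β : ℝ)
    (h : Tendsto (fun n : ℕ => (#((FF gN (n + 1 : ℝ)).filter fun S => T S) : ℝ) /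
      #(FF gN (n + 1 : ℝ))) atTop (nhds β)) (ε : ℝ) (hε : 0 < ε) :
    ∃ x₀ : ℝ, 1 ≤ x₀ ∧ ∀ x : ℝ, x₀ ≤ x →
      (β - ε) * #(FF gN x) ≤ (#((FF gN x).filter fun S => T S) : ℝ) := by
  have hev := h.eventually (lt_mem_nhds (show β - ε < β by linarith))
  obtain ⟨n₀, hn₀⟩ := eventually_atTop.mp hev
  have hn0 : (0 : ℝ) ≤ n₀ := Nat.cast_nonneg _
  refine ⟨n₀ + 2, by linarith, fun x hX => ?_⟩
  have hx1 : (1 : ℝ) ≤ x := by linarith
  have hfl : n₀ + 1 ≤ ⌊x⌋₊ := Nat.le_floor (by push_cast; linarith)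
  have h1 := hn₀ (⌊x⌋₊ - 1) (by omega)
  rw [← FF_floor hRR hx1] at h1
  rw [lt_div_iff₀ (F_pos hx1)] at h1
  exact h1.le

/-- the number of sets for `x` and `x / 2` -/
theorem half_card (δ : ℝ) (hδ : 0 < δ) : ∃ x₀ : ℝ, 1 ≤ x₀ ∧ ∀ x : ℝ, x₀ ≤ x →
    |(#(FF gN (x / 2)) : ℝ) - #(FF gN x) / 2| ≤ δ * #(FF gN x) := by
  obtain ⟨C, hC⟩ := t_ASYM
  obtain ⟨c, hc, h5⟩ := Pool.Agent.Y954.PP.t_A5 Pool.Agent.Y427.PP.t_FAC
  set K : ℝ := |C| / (δ * c) with hK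
  have hK0 : 0 ≤ K := div_nonneg (abs_nonneg _) (by positivity)
  refine ⟨max 1 (K ^ 4), le_max_left _ _, fun x hx => ?_⟩
  have hx1 : 1 ≤ x := (le_max_left _ _).trans hx
  have hx0 : 0 < x := by linarith
  have hxK : K ^ 4 ≤ x := (le_max_right _ _).trans hx
  have h1 : K ≤ x ^ (1 / 4 : ℝ) := by
    have h2 : (K ^ 4) ^ (1 / 4 : ℝ) ≤ x ^ (1 / 4 : ℝ) :=
      Real.rpow_le_rpow (by positivity) hxK (by norm_num)
    have h3 : (K ^ 4) ^ (1 / 4 : ℝ) = K := by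
      have : (K ^ 4 : ℝ) = K ^ ((4 : ℕ) : ℝ) := (Real.rpow_natCast K 4).symm
      rw [this, ← Real.rpow_mul hK0]
      norm_num
    rwa [h3] at h2
  have h2 : |C| ≤ δ * c * x ^ (1 / 4 : ℝ) := by
    rw [hK, div_le_iff₀ (by positivity)] at h1
    linarith
  refine ((hC x hx1).2).trans ?_
  have h3 : (0 : ℝ) ≤ x ^ (3 / 4 : ℝ) := by positivity
  have h4 : x ^ (1 / 4 : ℝ) * x ^ (3 / 4 : ℝ) = x := by
    rw [← Real.rpow_add hx0]
    norm_num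
  calc C * x ^ (3 / 4 : ℝ) ≤ |C| * x ^ (3 / 4 : ℝ) :=
        mul_le_mul_of_nonneg_right (le_abs_self C) h3
    _ ≤ δ * c * x ^ (1 / 4 : ℝ) * x ^ (3 / 4 : ℝ) := mul_le_mul_of_nonneg_right h2 h3
    _ = δ * (c * x) := by rw [mul_assoc, h4]; ring
    _ ≤ δ * #(FF gN x) := mul_le_mul_of_nonneg_left (h5 x hx1) hδ.le

open Classical in
/-- the combination of the three classes -/
theorem comb (Q : G → Prop) (T1 Ti : Finset Pr → Prop) (ae a1 ai : ℝ)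
    (hn : ∀ D, Q D → Q (-D)) (h1 : ∀ A, T1 A → Q (PA A)) (hi : ∀ A, Ti A → Q (ii * PA A))
    (b1 : 0 ≤ ae) (b2 : ae ≤ 1) (b3 : 0 ≤ a1) (b4 : a1 ≤ 1) (b5 : 0 ≤ ai) (b6 : ai ≤ 1)
    (he : ∀ ε : ℝ, 0 < ε → ∃ X₀ : ℝ, ∀ X : ℝ, X₀ ≤ X →
      (ae - ε) * ((Tw X).ncard : ℝ) ≤ ({D ∈ Tw X | Q D}.ncard : ℝ))
    (t1 : Tendsto (fun n : ℕ => (#((FF gN (n + 1 : ℝ)).filter fun S => T1 S) : ℝ) /
      #(FF gN (n + 1 : ℝ))) atTop (nhds a1))
    (ti : Tendsto (fun n : ℕ => (#((FF gN (n + 1 : ℝ)).filter fun S => Ti S) : ℝ) /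
      #(FF gN (n + 1 : ℝ))) atTop (nhds ai)) :
    (∀ ε : ℝ, 0 < ε → ∃ X₀ : ℝ, ∀ X : ℝ, X₀ ≤ X →
      ((ae + a1 + ai) / 3 - ε) * ((TwA X).ncard : ℝ) ≤ ({D ∈ TwA X | Q D}.ncard : ℝ)) ∧
    (∀ ε : ℝ, 0 < ε → ∃ X₀ : ℝ, ∀ X : ℝ, X₀ ≤ X →
      ((a1 + ai) / 2 - ε) * ((TwO X).ncard : ℝ) ≤ ({D ∈ TwO X | Q D}.ncard : ℝ)) := by
  have hodd : ∀ ε : ℝ, 0 < ε → ∃ X₀ : ℝ, 1 ≤ X₀ ∧ ∀ X : ℝ, X₀ ≤ X →
      (2 * (a1 - ε) + 2 * (ai - ε)) * (#(FF gN X) : ℝ) ≤ ({D ∈ TwO X | Q D}.ncard : ℝ) := by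
    intro ε hε
    obtain ⟨x1, hx1, g1⟩ := low_of_tendsto T1 a1 t1 ε hε
    obtain ⟨x2, hx2, g2⟩ := low_of_tendsto Ti ai ti ε hε
    refine ⟨max x1 x2, hx1.trans (le_max_left _ _), fun X hX => ?_⟩
    have e1 := g1 X ((le_max_left _ _).trans hX)
    have e2 := g2 X ((le_max_right _ _).trans hX)
    have e3 := TwO_low X Q T1 Ti hn h1 hi
    have e4 : (2 * #((FF gN X).filter fun A => T1 A) + 2 * #((FF gN X).filter fun A => Ti A) : ℝ) ≤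
      ({D ∈ TwO X | Q D}.ncard : ℝ) := by exact_mod_cast e3
    linarith
  refine ⟨fun ε hε => ?_, fun ε hε => ?_⟩
  · set δ : ℝ := min ε 1 / 4 with hδ
    have hδ0 : 0 < δ := by
      rw [hδ]
      have : 0 < min ε 1 := lt_min hε one_pos
      linarith
    have hδ1 : 4 * δ ≤ ε := by
      rw [hδ]
      have : min ε 1 ≤ ε := min_le_left _ _
      linarith
    have hδ2 : 4 * δ ≤ 1 := by
      rw [hδ]
      have : min ε 1 ≤ 1 := min_le_right _ _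
      linarith
    obtain ⟨X1, g1⟩ := he (ε / 2) (by linarith)
    obtain ⟨X2, hX2, g2⟩ := hodd (ε / 2) (by linarith)
    obtain ⟨X3, hX3, g3⟩ := half_card δ hδ0
    refine ⟨max X1 (max X2 X3), fun X hX => ?_⟩
    have e1 := g1 X ((le_max_left _ _).trans hX)
    have e2 := g2 X (((le_max_left _ _).trans (le_max_right _ _)).trans hX)
    have hXX3 : X3 ≤ X := ((le_max_right _ _).trans (le_max_right _ _)).trans hX
    have e3 := g3 X hXX3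
    rw [TwA_card, TwA_Q]
    rw [Tw_card] at e1
    push_cast at e1 ⊢
    set F : ℝ := (#(FF gN X) : ℝ) with hF
    set H : ℝ := (#(FF gN (X / 2)) : ℝ) with hH
    have hF0 : 0 ≤ F := Nat.cast_nonneg _
    rw [abs_le] at e3
    set c : ℝ := 4 * ae - 4 / 3 * (ae + a1 + ai) + 2 * ε with hc
    have hc1 : c ≤ 4 + 2 * ε := by rw [hc]; linarith
    have hc2 : -(4 + 2 * ε) ≤ c := by rw [hc]; linarith
    have key : -(δ * F * (4 + 2 * ε)) ≤ (H - F / 2) * c := by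
      have h7 : |(H - F / 2) * c| ≤ δ * F * (4 + 2 * ε) := by
        rw [abs_mul]
        exact mul_le_mul (abs_le.mpr e3) (abs_le.mpr ⟨hc2, hc1⟩) (abs_nonneg _) (by positivity)
      linarith [(abs_le.mp h7).1]
    have key2 : δ * (4 + 2 * ε) ≤ 3 * ε := by nlinarith
    have key3 : δ * F * (4 + 2 * ε) ≤ 3 * ε * F := by
      calc δ * F * (4 + 2 * ε) = δ * (4 + 2 * ε) * F := by ring
        _ ≤ 3 * ε * F := mul_le_mul_of_nonneg_right key2 hF0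
    have key4 : ((ae + a1 + ai) / 3 - ε) * (4 * H + 4 * F) =
        (ae - ε / 2) * (4 * H) + (2 * (a1 - ε / 2) + 2 * (ai - ε / 2)) * F -
          (3 * ε * F + (H - F / 2) * c) := by
      rw [hc]
      ring
    rw [key4]
    linarith
  · obtain ⟨X2, hX2, g2⟩ := hodd ε hε
    refine ⟨X2, fun X hX => ?_⟩
    have e2 := g2 X hX
    rw [TwO_card]
    push_cast
    refine le_trans (le_of_eq ?_) e2
    ring

/-- the points and half of the central values -/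
def GoodB (D : G) : Prop :=
  GoodP D ∧ ∀ k a b : ℕ, 1 ≤ k → a + b = 2 * k - 1 → ((a : ℤ) - b).natAbs % 4 = 1 → GoodV D k a b

theorem goodV_neg {D : G} {k a b : ℕ} (h : GoodV D k a b) : GoodV (-D) k a b := by
  obtain ⟨L, hL, h0⟩ := h
  exact ⟨L, Pool.Agent.Y259.PP.isL_neg hL, h0⟩

theorem goodB_neg {D : G} (h : GoodB D) : GoodB (-D) :=
  ⟨Pool.Agent.Y259.PP.goodP_neg h.1, fun k a b hk hab hc => goodV_neg (h.2 k a b hk hab hc)⟩

theorem goodA_neg {D : G} (h : GoodP D ∧ GoodL D) : GoodP (-D) ∧ GoodL (-D) :=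
  ⟨Pool.Agent.Y259.PP.goodP_neg h.1, fun k a b hk hab => goodV_neg (h.2 k a b hk hab)⟩

theorem goodA_D {A : Finset Pr} (h : XX gs (fun _ => (1 : ℝ)) A = 2 ∧ ch A = -1) :
    GoodP (PA A) ∧ GoodL (PA A) :=
  ⟨goodP_D h.1 h.2, fun k a b hk hab => goodD h.1 h.2 k a b hk hab⟩

theorem goodA_I {A : Finset Pr} (h : XX gs gz A = 1 ∧ ch A = -1) :
    GoodP (ii * PA A) ∧ GoodL (ii * PA A) :=
  ⟨goodP_I h.1, fun k a b hk hab => goodI h.1 k a b hk hab (Or.inr h.2)⟩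

theorem goodB_I {A : Finset Pr} (h : XX gs gz A = 1) : GoodB (ii * PA A) :=
  ⟨goodP_I h, fun k a b hk hab hc => goodI h k a b hk hab (Or.inl hc)⟩

theorem goodB_of {D : G} (h : GoodP D ∧ GoodL D) : GoodB D :=
  ⟨h.1, fun k a b hk hab _ => h.2 k a b hk hab⟩

theorem al_pos : 0 < al := lt_trans (by norm_num) Pool.Agent.Y944.PP.t_NUM

theorem al_le : al ≤ 1 := by
  have h := density_i
  refine le_of_tendsto' h fun n => ?_
  have h1 : (0 : ℝ) < #(FF gN (n + 1 : ℝ)) := F_pos (by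
    have : (0 : ℝ) ≤ n := Nat.cast_nonneg _
    linarith)
  rw [div_le_one h1]
  exact_mod_cast Finset.card_filter_le _ _

open Classical in
/-- all central values -/
theorem all_values :
    (∀ ε : ℝ, 0 < ε → ∃ X₀ : ℝ, ∀ X : ℝ, X₀ ≤ X →
      (2 / 3 * al - ε) * ((TwA X).ncard : ℝ) ≤ ({D ∈ TwA X | GoodP D ∧ GoodL D}.ncard : ℝ)) ∧
    (∀ ε : ℝ, 0 < ε → ∃ X₀ : ℝ, ∀ X : ℝ, X₀ ≤ X →
      (1 / 2 * al - ε) * ((TwO X).ncard : ℝ) ≤ ({D ∈ TwO X | GoodP D ∧ GoodL D}.ncard : ℝ)) := by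
  have h0 := al_pos
  have h1 := al_le
  have h := comb (fun D => GoodP D ∧ GoodL D)
    (fun A => XX gs (fun _ => (1 : ℝ)) A = 2 ∧ ch A = -1) (fun A => XX gs gz A = 1 ∧ ch A = -1)
    al (1 / 2 * al) (1 / 2 * al) (fun D => goodA_neg) (fun A => goodA_D) (fun A => goodA_I)
    h0.le h1 (by linarith) (by linarith) (by linarith) (by linarith)
    Pool.Agent.Y690.PP.Fn.last.2.2.2
    (by convert density_D t_ASYM) (by convert density_I1 t_ASYM)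
  refine ⟨fun ε hε => ?_, fun ε hε => ?_⟩
  · obtain ⟨X₀, hX⟩ := h.1 ε hε
    refine ⟨X₀, fun X hXX => le_trans (le_of_eq ?_) (hX X hXX)⟩
    ring
  · obtain ⟨X₀, hX⟩ := h.2 ε hε
    refine ⟨X₀, fun X hXX => le_trans (le_of_eq ?_) (hX X hXX)⟩
    ring

open Classical in
/-- half of the central values -/
theorem half_values :
    (∀ ε : ℝ, 0 < ε → ∃ X₀ : ℝ, ∀ X : ℝ, X₀ ≤ X →
      (5 / 6 * al - ε) * ((TwA X).ncard : ℝ) ≤ ({D ∈ TwA X | GoodB D}.ncard : ℝ)) ∧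
    (∀ ε : ℝ, 0 < ε → ∃ X₀ : ℝ, ∀ X : ℝ, X₀ ≤ X →
      (3 / 4 * al - ε) * ((TwO X).ncard : ℝ) ≤ ({D ∈ TwO X | GoodB D}.ncard : ℝ)) := by
  have h0 := al_pos
  have h1 := al_le
  have h := comb (fun D => GoodB D)
    (fun A => XX gs (fun _ => (1 : ℝ)) A = 2 ∧ ch A = -1) (fun A => XX gs gz A = 1)
    al (1 / 2 * al) al (fun D => goodB_neg) (fun A h => goodB_of (goodA_D h)) (fun A => goodB_I)
    h0.le h1 (by linarith) (by linarith) h0.le h1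
    (fun ε hε => by
      obtain ⟨X₀, hX⟩ := Pool.Agent.Y690.PP.Fn.last.2.2.2 ε hε
      refine ⟨X₀, fun X hXX => (hX X hXX).trans ?_⟩
      have hss : {D ∈ Tw X | GoodP D ∧ GoodL D} ⊆ {D ∈ Tw X | GoodB D} :=
        fun D hD => ⟨hD.1, goodB_of hD.2⟩
      exact_mod_cast Set.ncard_le_ncard hss ((Tw_fin X).subset fun D hD => hD.1))
    (by convert density_D t_ASYM) (by convert density_i)
  refine ⟨fun ε hε => ?_, fun ε hε => ?_⟩
  · obtain ⟨X₀, hX⟩ := h.1 ε hε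
    refine ⟨X₀, fun X hXX => le_trans (le_of_eq ?_) (hX X hXX)⟩
    ring
  · obtain ⟨X₀, hX⟩ := h.2 ε hε
    refine ⟨X₀, fun X hXX => le_trans (le_of_eq ?_) (hX X hXX)⟩
    ring

/-- the number of twists -/
theorem Tw_low : ∃ c : ℝ, 0 < c ∧ ∀ X : ℝ, 1 ≤ X →
    c * X ≤ ((TwA X).ncard : ℝ) ∧ c * X ≤ ((TwO X).ncard : ℝ) := by
  obtain ⟨c, hc, h⟩ := Pool.Agent.Y954.PP.t_A5 Pool.Agent.Y427.PP.t_FAC
  refine ⟨4 * c, by positivity, fun X hX => ?_⟩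
  have h1 := h X hX
  rw [TwA_card, TwO_card]
  push_cast
  have h2 : (0 : ℝ) ≤ #(FF gN (X / 2)) := Nat.cast_nonneg _
  constructor <;> linarith

end Pool.Agent.Helper26K9.DN
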