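import Pool.Agent.Helper26K9.DN.Gi
import Pool.Agent.Y690.PP.Dens

/-!
# The density for the class `i D`
-/

set_option autoImplicit false

open Finset Filter

namespace Pool.Agent.Helper26K9.DN

open Pool.Agent.Y690.PP

/-- all moments, general sign -/
theorem moments_t {t : Pr → ℝ} (hb : Basic gN gs t) (hcomb : SCOMB) (h5 : A5 gN)
    (ha : ∀ k, SABSa gN gs t (Ix k) ((1 / 2 : ℝ) ^ k) ee tu)
    (hbb : ∀ k, SABSb gN (Ix k) ((1 / 2 : ℝ) ^ k))
    (hc : ∀ k, SABSc gN gs t (Ix k) ((1 / 2 : ℝ) ^ k) ee tu) (k : ℕ) :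
    Tendsto (fun x : ℝ => (∑ S ∈ FF gN x, (XX gs t S : ℝ) ^ k) / #(FF gN x)) atTop
      (nhds (∏ i ∈ range k, ((2 : ℝ) ^ i + 1))) := by
  classical
  obtain ⟨c1, c2, c3⟩ := hcomb k
  have h := glue hb (w := (1 / 2 : ℝ) ^ k) (by positivity) (n := 2 ^ k)
    (by push_cast; rw [← mul_pow]; norm_num) (ha k) (hbb k) (hc k) h5
    (fun Λ hΛ => c1 Λ fun u hu v hv => (even_ee u v).mp (hΛ u hu v hv))
    (fun Λ hΛ hn => by
      obtain ⟨d1, d2⟩ := c2 Λ (fun u hu v hv => (even_ee u v).mp (hΛ u hu v hv)) hn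
      refine ⟨fun v hv => ?_, fun ⟨u, hu, hu'⟩ => ?_⟩
      · obtain ⟨⟨u, hu, hu'⟩, ⟨u1, hu1, hu1'⟩⟩ := d1 v hv
        exact ⟨⟨u, hu, (even_ee u v).mpr hu'⟩, ⟨u1, hu1, (odd_ee u1 v).mpr hu1'⟩⟩
      · obtain ⟨u', h1, h2⟩ := d2 ⟨u, hu, (odd_tu u).mp hu'⟩
        exact ⟨u', h1, (even_tu u').mpr h2⟩)
  have hcard : (#((univ : Finset (Finset (Ix k))).filter fun Λ => Gd ee tu (2 ^ k) Λ) : ℝ) =
      ∏ i ∈ range k, ((2 : ℝ) ^ i + 1) := by
    have h2 : ((∏ i ∈ range k, (2 ^ i + 1) : ℕ) : ℝ) = ∏ i ∈ range k, ((2 : ℝ) ^ i + 1) := by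
      push_cast
      rfl
    rw [← h2, ← c3]
    congr 1
    refine congrArg Finset.card (Finset.filter_congr fun Λ _ => ?_)
    unfold Gd
    constructor
    · exact fun h => ⟨fun u hu v hv => (even_ee u v).mp (h.1 u hu v hv), h.2.1,
        fun u hu => (even_tu u).mp (h.2.2 u hu)⟩
    · exact fun h => ⟨fun u hu v hv => (even_ee u v).mpr (h.1 u hu v hv), h.2.1,
        fun u hu => (even_tu u).mpr (h.2.2 u hu)⟩
  rw [hcard] at h
  refine h.congr fun x => ?_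
  rw [sum_XX hb k x]

open Classical in
/-- The sets of primes with trivial kernel for the sign `gz` have density `al`. -/
theorem density_i :
    Tendsto (fun n : ℕ => (#((FF gN (n + 1 : ℝ)).filter fun S => XX gs gz S = 1) : ℝ) /
      #(FF gN (n + 1 : ℝ))) atTop (nhds al) := by
  have hrec := Pool.Agent.Y901.PP.Rec.t_REC
  have hmult := Pool.Agent.Y944.PP.t_MULT
  have hmean := Pool.Agent.Y497.PP.t_MEAN hmult
  have hann := Pool.Agent.Y808.PP.t_ANN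
  have hdisc := Pool.Agent.Y808.PP.t_DISC
  have hfac := Pool.Agent.Y427.PP.t_FAC
  have h1 := Pool.Agent.Y658.PP.t_A1
  have h2 := Pool.Agent.Y363.PP.t_A2 hfac
  have h5 := Pool.Agent.Y954.PP.t_A5 hfac
  have h3 := t_A3g hmult hdisc hfac
  have hbox1 := Pool.Agent.Y678.PP.t_BOX1 hmult hmean hdisc hfac
  have hbox := Pool.Agent.Y692.PP.t_BOX hmult hfac hbox1
  have h4 := Pool.Agent.Y678.PP.t_A4 hrec hann hfac hbox
  have hb := basic_gz hrec
  have hHR := Pool.Agent.Y665.PP.t_HR gN gs gz hb h1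
  have hw0 : ∀ k : ℕ, (0 : ℝ) < (1 / 2 : ℝ) ^ k := fun k => by positivity
  have hw1 : ∀ k : ℕ, (1 / 2 : ℝ) ^ k ≤ 1 := fun k => pow_le_one₀ (by norm_num) (by norm_num)
  refine Pool.Agent.Y929.PP.t_MOM (fun _ => Finset Pr) (fun n => FF gN (n + 1 : ℝ))
    (fun _ S => XX gs gz S) ?_ ?_ ?_
  · intro n
    refine ⟨∅, (mem_FF hb).mpr ?_⟩
    unfold NN
    rw [Finset.prod_empty]
    push_cast
    have : (0 : ℝ) ≤ n := Nat.cast_nonneg n
    linarith
  · intro n S _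
    exact XX_pow hb S
  · intro k
    have h := moments_t hb Pool.Agent.Y405.PP.t_COMB h5
      (fun k => Pool.Agent.Y606.PP.t_ABSa gN gs gz (Ix k) _ ee tu hb h2 h4 (hw0 k).le (hw1 k) ee_self)
      (fun k => Pool.Agent.Y804.PP.t_ABSb gN gs gz (Ix k) _ hb h2 hHR (hw0 k).le (hw1 k))
      (fun k => Pool.Agent.Y977.PP.t_ABSc gN gs gz (Ix k) _ ee tu hb h2 h3 hHR (hw0 k) (hw1 k)
        ee_self) k
    exact h.comp (tendsto_atTop_add_const_right _ 1 tendsto_natCast_atTop_atTop)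

end Pool.Agent.Helper26K9.DN
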