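import Pool.Agent.Y690.PP.Stm2

/-!
# The density of the good twists by odd Gaussian integers: statements
-/

set_option autoImplicit false

open Finset Filter

namespace Pool.Agent.Helper26K9.DN

open Pool.Agent.Y690.PP Pool.Agent.Y690.PP.Fn

/-- `i` -/
def ii : G := ⟨0, 1⟩

open Classical in
/-- the sign of a primary element: `1` if it is congruent to `1` modulo `4` -/
noncomputable def gi (v : G) : ℤ := if (4 : G) ∣ v - 1 then 1 else -1

/-- the sign of a prime, `(i / p)` -/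
noncomputable def gz (p : Pr) : ℝ := (gi p.1 : ℝ)

/-- ASYM: the mean value of the sign over the squarefree primary elements, and the number of these
elements for `x` and `x / 2` -/
def SASYM : Prop :=
  ∃ C : ℝ, ∀ x : ℝ, 1 ≤ x →
    |∑ A ∈ FF gN x, ∏ p ∈ A, gz p| ≤ C * x ^ (3 / 4 : ℝ) ∧
    |(#(FF gN (x / 2)) : ℝ) - #(FF gN x) / 2| ≤ C * x ^ (3 / 4 : ℝ)

/-- DSCO: the first step of the descent on `D y² = x³ - x`, `D = η ∏ A` odd. -/
def SDSCO : Prop :=
  ∀ η : G, η = 1 ∨ η = ii → ∀ (A : Finset Pr) (x y : FractionRing G), y ≠ 0 →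
    algebraMap G (FractionRing G) (η * PA A) * y ^ 2 = x ^ 3 - x →
    ∃ (u : G) (V : Finset Pr) (w : FractionRing G), (u = 1 ∨ u = ii) ∧ V ⊆ A ∧
      algebraMap G (FractionRing G) (η * PA A) * x =
        algebraMap G (FractionRing G) (u * PA V) * w ^ 2 ∧
      (∀ p ∈ V, ∃ B : Finset Pr, (∀ q, q ∈ B ↔ q ∈ A ∧ q ∉ V) ∧ qs p.1 (η * u * PA B) = 1) ∧
      (∀ p ∈ A, p ∉ V → qs p.1 (u * PA V) = 1)

end Pool.Agent.Helper26K9.DN
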