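import Pool.Agent.Helper26K9.DN.Gi
import Pool.Agent.Helper26K9.XI.Crit
import Pool.Agent.Y690.PP.Tr

/-!
# Transfer to the subring of `ℂ`: the kernels and the hypotheses of the nonvanishing theorems
-/

set_option autoImplicit false
set_option linter.unusedSectionVars false

open Finset Filter

namespace Pool.Agent.Helper26K9.DN

open Pool.Agent.Y690.PP

section ker

variable {t : Pr → ℝ}

open Classical in
lemma cc_ind {A W : Finset Pr} (hW : W ⊆ A) (p : A) :
    cc gs t A (fun p => if (p : Pr) ∈ W then 1 else 0) p =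
      if (p : Pr) ∈ W then t p * ∏ q ∈ A \ W, gs q p else ∏ q ∈ W, gs q p := by
  set ν : A → ZMod 2 := fun p => if (p : Pr) ∈ W then 1 else 0 with hν
  have h2 := prod_ind A W hW (fun q => gs q p) (ν p)
  have h3 : cc gs t A ν p = t p ^ (ν p).val *
      (if ν p = 1 then ∏ q ∈ A \ W, gs q p else ∏ q ∈ W, gs q p) := by
    unfold cc
    exact congrArg (fun z => t p ^ (ν p).val * z) h2
  rw [h3]
  by_cases h : (p : Pr) ∈ W
  · have h5 : ν p = 1 := if_pos h
    have hval1 : ((1 : ZMod 2)).val = 1 := rfl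
    rw [if_pos h, if_pos h5, h5, hval1, pow_one]
  · have h5 : ν p = 0 := if_neg h
    have h6 : ν p ≠ 1 := by rw [h5]; decide
    have hval0 : ((0 : ZMod 2)).val = 0 := rfl
    rw [if_neg h, if_neg h6, h5, hval0, pow_zero, one_mul]

open Classical in
lemma ind_mem {A W : Finset Pr} (hW : W ⊆ A) (h1 : ∀ p ∈ W, t p * ∏ q ∈ A \ W, gs q p = 1)
    (h2 : ∀ p ∈ A, p ∉ W → ∏ q ∈ W, gs q p = 1) :
    (fun p : A => if (p : Pr) ∈ W then (1 : ZMod 2) else 0) ∈ Kn gs t A := by
  unfold Kn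
  rw [mem_filter]
  refine ⟨mem_univ _, fun p => ?_⟩
  rw [cc_ind hW]
  by_cases hp : (p : Pr) ∈ W
  · rw [if_pos hp]
    exact h1 p hp
  · rw [if_neg hp]
    exact h2 p p.2 hp

lemma zero_mem (A : Finset Pr) : (0 : A → ZMod 2) ∈ Kn gs t A := by
  classical
  unfold Kn
  rw [mem_filter]
  refine ⟨mem_univ _, fun p => ?_⟩
  unfold cc
  simp

open Classical in
/-- trivial kernel -/
theorem eq_empty_of {A W : Finset Pr} (hX : XX gs t A = 1) (hW : W ⊆ A)
    (h1 : ∀ p ∈ W, t p * ∏ q ∈ A \ W, gs q p = 1)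
    (h2 : ∀ p ∈ A, p ∉ W → ∏ q ∈ W, gs q p = 1) : W = ∅ := by
  have hker := ind_mem hW h1 h2
  have h0 := zero_mem (t := t) A
  unfold XX at hX
  obtain ⟨μ, hμ⟩ := Finset.card_eq_one.mp hX
  rw [hμ, mem_singleton] at hker h0
  by_contra hne
  obtain ⟨p, hp⟩ := Finset.nonempty_iff_ne_empty.mpr hne
  have h4 := congrFun (hker.trans h0.symm) ⟨p, hW hp⟩
  simp only [if_pos hp] at h4
  exact absurd (show (1 : ZMod 2) = 0 from h4) (by decide)

open Classical in
/-- minimal kernel of the Laplacian -/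
theorem eq_of_two {A W : Finset Pr} (hX : XX gs (fun _ => (1 : ℝ)) A = 2) (hW : W ⊆ A)
    (h1 : ∀ p ∈ W, ∏ q ∈ A \ W, gs q p = 1)
    (h2 : ∀ p ∈ A, p ∉ W → ∏ q ∈ W, gs q p = 1) : W = ∅ ∨ W = A := by
  have hker := ind_mem (t := fun _ => (1 : ℝ)) hW (fun p hp => by rw [one_mul]; exact h1 p hp) h2
  have h0 := zero_mem (t := fun _ => (1 : ℝ)) A
  have hone := ind_mem (t := fun _ => (1 : ℝ)) (subset_refl A) (fun p _ => by
    rw [sdiff_self, bot_eq_empty, prod_empty, one_mul]) (fun p hp hp' => absurd hp hp')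
  by_contra hcon
  push Not at hcon
  obtain ⟨hne, hneA⟩ := hcon
  obtain ⟨p, hp⟩ := hne
  obtain ⟨r, hrA, hr⟩ : ∃ r ∈ A, r ∉ W := by
    by_contra h
    push Not at h
    exact hneA (Finset.Subset.antisymm hW h)
  have h3 : #({(fun p : A => if (p : Pr) ∈ W then (1 : ZMod 2) else 0), 0,
      (fun p : A => if (p : Pr) ∈ A then (1 : ZMod 2) else 0)} : Finset (A → ZMod 2)) = 3 := by
    rw [Finset.card_eq_three]
    refine ⟨_, _, _, ?_, ?_, ?_, rfl⟩
    · intro h
      have h4 := congrFun h ⟨p, hW hp⟩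
      simp only [if_pos hp] at h4
      exact absurd (show (1 : ZMod 2) = 0 from h4) (by decide)
    · intro h
      have h4 := congrFun h ⟨r, hrA⟩
      simp only [if_neg hr, if_pos hrA] at h4
      exact absurd (show (0 : ZMod 2) = 1 from h4) (by decide)
    · intro h
      have h4 := congrFun h ⟨r, hrA⟩
      simp only [if_pos hrA] at h4
      exact absurd (show (0 : ZMod 2) = 1 from h4) (by decide)
  have h4 : ({(fun p : A => if (p : Pr) ∈ W then (1 : ZMod 2) else 0), 0,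
      (fun p : A => if (p : Pr) ∈ A then (1 : ZMod 2) else 0)} : Finset (A → ZMod 2)) ⊆
      Kn gs (fun _ => (1 : ℝ)) A := by
    intro x hx
    simp only [mem_insert, mem_singleton] at hx
    rcases hx with rfl | rfl | rfl
    · exact hker
    · exact h0
    · exact hone
  have h5 := Finset.card_le_card h4
  unfold XX at hX
  rw [h3, hX] at h5
  omega

end ker

/-! ## Norms and signs -/

theorem nm_prm {v : G} (hv : Prm v) : (nm v % 8 = 5 ∧ gi v = -1) ∨ (nm v % 8 = 1 ∧ gi v = 1) := by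
  have hn : (nm v : ℤ) = v.re * v.re + v.im * v.im := Pool.Agent.Y692.PP.nm_int v
  rcases gi_cases hv with ⟨⟨c, hc⟩, h2⟩ | ⟨⟨c, hc⟩, h2⟩
  · right
    refine ⟨?_, h2⟩
    have e1 := congrArg Zsqrtd.re hc
    have e2 := congrArg Zsqrtd.im hc
    simp at e1 e2
    have h3 : v.re = 1 + 4 * c.re := by omega
    have h4 : v.im = 4 * c.im := by omega
    have h5 : (nm v : ℤ) = 1 + 8 * (c.re + 2 * c.re * c.re + 2 * c.im * c.im) := by
      rw [hn, h3, h4]; ring
    omega
  · left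
    refine ⟨?_, h2⟩
    have e1 := congrArg Zsqrtd.re hc
    have e2 := congrArg Zsqrtd.im hc
    simp at e1 e2
    have h3 : v.re = 3 + 4 * c.re := by omega
    have h4 : v.im = 2 + 4 * c.im := by omega
    have h5 : (nm v : ℤ) = 5 + 8 * (1 + 3 * c.re + 2 * c.re * c.re + 2 * c.im + 2 * c.im * c.im) := by
      rw [hn, h3, h4]; ring
    omega

variable {R : Subring ℂ} (hR : ∀ z : ℂ, z ∈ R ↔ ∃ x y : ℤ, z = x + y * Complex.I)

open Pool.Agent.W192.HK in
lemma card_phi (hbasic : H_BASIC) (z : G) : Nat.card (R ⧸ sp (phi hR z)) = nm z := by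
  obtain ⟨-, -, -, -, b5, -⟩ := hbasic R Complex.I (Pool.Agent.Y690.NV.qr hR)
  have h1 := norm_phi hR z
  rw [← Complex.normSq_eq_norm_sq] at h1
  have h2 : ((Nat.card (R ⧸ sp (phi hR z)) : ℕ) : ℝ) = Complex.normSq ((phi hR z : R) : ℂ) := b5 _
  rw [h1] at h2
  exact_mod_cast h2

open Pool.Agent.W192.HK in
lemma phi_sI (hbasic : H_BASIC) {z : G} (hz : Prm z) :
    Pool.Agent.Helper26K9.XI.sI (phi hR z) = gi z := by
  unfold Pool.Agent.Helper26K9.XI.sI
  rw [card_phi hR hbasic]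
  rcases nm_prm hz with ⟨h1, h2⟩ | ⟨h1, h2⟩
  · rw [if_pos h1, h2]
  · rw [if_neg (by omega), h2]

/-- the product of the set -/
lemma prod_em (A : Finset Pr) : ∏ p ∈ A.map (em hR), p = phi hR (Fn.PA A) := by
  unfold Fn.PA
  rw [Finset.prod_map, map_prod]
  rfl

open Pool.Agent.W192.HK Classical in
/-- the class `i D` -/
theorem admI_of_XX (hbasic : H_BASIC) {A : Finset Pr} (h1 : XX gs gz A = 1) :
    Pool.Agent.Helper26K9.XI.AdmI (A.map (em hR)) := by
  refine Pool.Agent.Helper26K9.XI.admI_of hR hbasic (fun p hp => ?_) ?_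
  · obtain ⟨a, _, rfl⟩ := Finset.mem_map.mp hp
    exact em_prime hR a
  intro V hV hne
  obtain ⟨W, hW⟩ := exists_em hR (S := V) (fun p hp => by
    obtain ⟨a, _, rfl⟩ := Finset.mem_map.mp (hV hp)
    exact em_prime hR a)
  subst hW
  rw [Finset.map_subset_map] at hV
  rw [Finset.map_nonempty] at hne
  by_contra hcon
  push Not at hcon
  obtain ⟨hc1, hc2⟩ := hcon
  have hb := basic_gz Pool.Agent.Y901.PP.Rec.t_REC
  have hpr : ∀ (T : Finset Pr) (p : Pr), p ∉ T → (∏ q ∈ T, gs q p = 1 ∨ ∏ q ∈ T, gs q p = -1) :=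
    fun T p hp => pm_prod T _ fun q hq => hb.s_val q p fun h => hp (h ▸ hq)
  have h3 := eq_empty_of (t := gz) h1 hV (fun p hp => ?_) (fun p hp hp' => ?_)
  · rw [h3] at hne
    exact absurd hne (by simp)
  · have h4 := hc1 (em hR p) (Finset.mem_map_of_mem _ hp)
    rw [← Finset.map_sdiff] at h4
    have h5 : ((Pool.Agent.Helper26K9.XI.sI (em hR p) *
        ∏ l ∈ (A \ W).map (em hR), Pool.Agent.Y690.NV.qs l (em hR p) : ℤ) : ℝ) =
        gz p * ∏ q ∈ A \ W, gs q p := by
      rw [Int.cast_mul, cast_prod_map, em_coe, phi_sI hR hbasic p.2.2]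
      rfl
    rcases pm_mul (gz_val p) (hpr (A \ W) p fun h => (mem_sdiff.mp h).2 hp) with h6 | h6
    · exact h6
    · exfalso
      apply h4
      rw [h6] at h5
      exact_mod_cast h5
  · have h4 := hc2 (em hR p) (by
      rw [← Finset.map_sdiff]
      exact Finset.mem_map_of_mem _ (mem_sdiff.mpr ⟨hp, hp'⟩))
    have h5 := cast_prod_map hR W p
    rcases hpr W p hp' with h6 | h6
    · exact h6
    · exfalso
      apply h4
      rw [h6] at h5
      exact_mod_cast h5

open Pool.Agent.W192.HK Classical in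
/-- the class `D` -/
theorem adm0_of_XX (hbasic : H_BASIC) {A : Finset Pr} (h1 : XX gs (fun _ => (1 : ℝ)) A = 2)
    (hch : ∏ p ∈ A, gz p = -1) :
    Pool.Agent.Helper26K9.XO.Adm0 (A.map (em hR)) := by
  refine Pool.Agent.Helper26K9.XO.adm0_of hR hbasic (fun p hp => ?_) ?_ ?_
  · obtain ⟨a, _, rfl⟩ := Finset.mem_map.mp hp
    exact em_prime hR a
  · have h2 := Pool.Agent.Helper26K9.XO.card_prod hR hbasic (A.map (em hR))
    have h3 : Nat.card (R ⧸ Ideal.span {∏ p ∈ A.map (em hR), p}) = nm (Fn.PA A) := by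
      rw [prod_em]
      exact card_phi hR hbasic _
    rw [← h2, h3]
    have h4 : gi (Fn.PA A) = -1 := by
      have h5 : ((gi (Fn.PA A) : ℤ) : ℝ) = -1 := by
        rw [gi_PA, ← hch]
        push_cast
        rfl
      exact_mod_cast h5
    rcases nm_prm (prm_PA1 A) with ⟨h5, -⟩ | ⟨-, h5⟩
    · exact h5
    · rw [h4] at h5
      norm_num at h5
  intro V hV hne hneS
  obtain ⟨W, hW⟩ := exists_em hR (S := V) (fun p hp => by
    obtain ⟨a, _, rfl⟩ := Finset.mem_map.mp (hV hp)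
    exact em_prime hR a)
  subst hW
  rw [Finset.map_subset_map] at hV
  rw [Finset.map_nonempty] at hne
  by_contra hcon
  push Not at hcon
  obtain ⟨hc1, hc2⟩ := hcon
  have hb := basic_gz Pool.Agent.Y901.PP.Rec.t_REC
  have hpr : ∀ (T : Finset Pr) (p : Pr), p ∉ T → (∏ q ∈ T, gs q p = 1 ∨ ∏ q ∈ T, gs q p = -1) :=
    fun T p hp => pm_prod T _ fun q hq => hb.s_val q p fun h => hp (h ▸ hq)
  have h3 := eq_of_two h1 hV (fun p hp => ?_) (fun p hp hp' => ?_)
  · rcases h3 with h3 | h3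
    · rw [h3] at hne
      exact absurd hne (by simp)
    · exact hneS (by rw [h3])
  · have h4 := hc1 (em hR p) (Finset.mem_map_of_mem _ hp)
    rw [← Finset.map_sdiff] at h4
    have h5 := cast_prod_map hR (A \ W) p
    rcases hpr (A \ W) p fun h => (mem_sdiff.mp h).2 hp with h6 | h6
    · exact h6
    · exfalso
      apply h4
      rw [h6] at h5
      exact_mod_cast h5
  · have h4 := hc2 (em hR p) (by
      rw [← Finset.map_sdiff]
      exact Finset.mem_map_of_mem _ (mem_sdiff.mpr ⟨hp, hp'⟩))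
    have h5 := cast_prod_map hR W p
    rcases hpr W p hp' with h6 | h6
    · exact h6
    · exfalso
      apply h4
      rw [h6] at h5
      exact_mod_cast h5

/-- the condition on the sign -/
theorem zn_of (hbasic : Pool.Agent.W192.HK.H_BASIC) {A : Finset Pr} (hch : ∏ p ∈ A, gz p = -1) :
    ∑ p ∈ A.map (em hR), Pool.Agent.Helper26K9.XO.zn p = 1 := by
  classical
  have h4 : gi (Fn.PA A) = -1 := by
    have h5 : ((gi (Fn.PA A) : ℤ) : ℝ) = -1 := by
      rw [gi_PA, ← hch]
      push_cast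
      rfl
    exact_mod_cast h5
  have h3 : Nat.card (R ⧸ Ideal.span {∏ p ∈ A.map (em hR), p}) = nm (Fn.PA A) := by
    rw [prod_em]
    exact card_phi hR hbasic _
  rw [Pool.Agent.Helper26K9.XO.card_prod hR hbasic] at h3
  rcases nm_prm (prm_PA1 A) with ⟨h5, -⟩ | ⟨-, h5⟩
  · rcases Pool.Agent.Helper26K9.XO.norm_prod hR hbasic (S := A.map (em hR)) (fun p hp => by
      obtain ⟨a, _, rfl⟩ := Finset.mem_map.mp hp
      exact (em_prime hR a).2) with h6 | h6
    · exact h6.2
    · omega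
  · rw [h4] at h5
    norm_num at h5

end Pool.Agent.Helper26K9.DN
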